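import Pool.Agent.Work.MP_88b7aa_gt.Kc.TplU
import Pool.Agent.Work.MP_88b7aa_gt.PQ.SysQ

/-! Template: System A, `p = 10`. -/

set_option autoImplicit false

namespace Pool.Agent.Work.MP_88b7aa_gt.Kc

open Pool.Agent.Work.MP_88b7aa_gt.PQ

def sTA10_77EI : List SK := [.imgT 0 1 2 2 0 16, .star 0 2 1 2 16 0, .imgT 0 1 2 3 0 17, .imgT 0 1 2 4 0 18, .star 0 2 1 4 18 0, .imgT 0 1 2 5 0 19, .imgT 0 1 2 6 0 20, .star 0 2 1 6 20 0, .imgT 0 1 2 7 0 21, .imgT 0 1 2 8 0 22, .star 0 2 1 8 22 0, .imgT 0 1 2 9 0 23,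
    .img 1 2 2 1 24, .img 1 2 3 1 25, .img 1 2 4 1 26, .img 1 2 5 1 27, .img 1 2 6 1 28, .img 1 2 7 1 29, .img 1 2 8 1 30, .img 1 2 9 1 31, .cc 0 2 1 2 0, .cc 2 0 1 2 5, .imgT 0 2 1 2 0 32, .star 0 1 2 2 32 0,
    .imgT 0 2 1 3 0 33, .imgT 0 2 1 4 0 34, .star 0 1 2 4 34 0, .imgT 0 2 1 5 0 35, .imgT 0 2 1 6 0 36, .star 0 1 2 6 36 0, .imgT 0 2 1 7 0 37, .imgT 0 2 1 8 0 38, .star 0 1 2 8 38 0, .imgT 0 2 1 9 0 39, .img 2 1 2 1 40, .img 2 1 3 1 41,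
    .img 2 1 4 1 42, .img 2 1 5 1 43, .img 2 1 6 1 44, .img 2 1 7 1 45, .img 2 1 8 1 46, .img 2 1 9 1 47, .cc 0 1 2 5 0, .cc 1 0 2 5 2]

def TA10_77EI : Tm where
  fes d := [FEQ 0,
    d.c.getD 0 .gram,
    FEQ 1,
    d.c.getD 1 .gram,
    d.c.getD 2 .gram,
    FEQ 2,
    d.c.getD 3 .gram,
    d.c.getD 4 .gram,
    FEV 0 1 (d.f.getD 0 (.cst 0 0)) (ngS (DpS (.par (cpar 0 1)) 2)) (ngS (DpS (.par (cpar 0 1)) 3)),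
    FEV 0 1 (d.f.getD 0 (.cst 0 0)) (ngS (DpS (.par (cpar 0 1)) 3)) (ngS (DpS (.par (cpar 0 1)) 2)),
    FEV 0 1 (d.f.getD 0 (.cst 0 0)) (DpS (.par (cpar 0 1)) 4) (DpS (.par (cpar 0 1)) 3),
    FEV 0 1 (d.f.getD 0 (.cst 0 0)) (DpS (.par (cpar 0 1)) 3) (DpS (.par (cpar 0 1)) 4),
    FEV 2 0 (d.f.getD 1 (.cst 0 0)) (ngS (DpS (.par (cpar 2 0)) 2)) (ngS (DpS (.par (cpar 2 0)) 3)),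
    FEV 2 0 (d.f.getD 1 (.cst 0 0)) (ngS (DpS (.par (cpar 2 0)) 3)) (ngS (DpS (.par (cpar 2 0)) 2)),
    FEV 2 0 (d.f.getD 1 (.cst 0 0)) (DpS (.par (cpar 2 0)) 4) (DpS (.par (cpar 2 0)) 3),
    FEV 2 0 (d.f.getD 1 (.cst 0 0)) (DpS (.par (cpar 2 0)) 3) (DpS (.par (cpar 2 0)) 4),
    FUT 0 1 2 2,
    FUT 0 1 2 3,
    FUT 0 1 2 4,
    FUT 0 1 2 5,
    FUT 0 1 2 6,
    FUT 0 1 2 7,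
    FUT 0 1 2 8,
    FUT 0 1 2 9,
    .word (rv1 1 2 2) (rv2 1 2 2) 2 (d.c.getD 0 .gram),
    .word (rv1 1 2 3) (rv2 1 2 3) 3 (d.c.getD 0 .gram),
    .word (rv1 1 2 4) (rv2 1 2 4) 4 (d.c.getD 0 .gram),
    .word (rv1 1 2 5) (rv2 1 2 5) 5 (d.c.getD 0 .gram),
    .word (rv1 1 2 6) (rv2 1 2 6) 6 (d.c.getD 0 .gram),
    .word (rv1 1 2 7) (rv2 1 2 7) 7 (d.c.getD 0 .gram),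
    .word (rv1 1 2 8) (rv2 1 2 8) 8 (d.c.getD 0 .gram),
    .word (rv1 1 2 9) (rv2 1 2 9) 9 (d.c.getD 0 .gram),
    FUT 0 2 1 2,
    FUT 0 2 1 3,
    FUT 0 2 1 4,
    FUT 0 2 1 5,
    FUT 0 2 1 6,
    FUT 0 2 1 7,
    FUT 0 2 1 8,
    FUT 0 2 1 9,
    .word (rv1 2 1 2) (rv2 2 1 2) 2 (d.c.getD 0 .gram),
    .word (rv1 2 1 3) (rv2 2 1 3) 3 (d.c.getD 0 .gram),
    .word (rv1 2 1 4) (rv2 2 1 4) 4 (d.c.getD 0 .gram),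
    .word (rv1 2 1 5) (rv2 2 1 5) 5 (d.c.getD 0 .gram),
    .word (rv1 2 1 6) (rv2 2 1 6) 6 (d.c.getD 0 .gram),
    .word (rv1 2 1 7) (rv2 2 1 7) 7 (d.c.getD 0 .gram),
    .word (rv1 2 1 8) (rv2 2 1 8) 8 (d.c.getD 0 .gram),
    .word (rv1 2 1 9) (rv2 2 1 9) 9 (d.c.getD 0 .gram)]
  is := [.form 0, .comp 0 0, .word 0 1 2 1, .word 0 2 2 2, .word 1 2 10 3, .word 2 1 10 4, .form 1, .word 0 1 2 0, .word 0 1 3 1, .word 0 1 4 2, .word 0 1 5 3, .word 0 1 6 4,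
    .word 0 2 2 5, .word 0 2 3 6, .word 0 2 4 7, .word 0 2 5 8, .word 0 2 6 9, .word 1 2 10 10, .word 2 1 10 11, .form 2, .comp 1 0, .word 1 0 2 1, .form 3, .comp 0 0,
    .word 0 2 2 1, .word 0 2 3 2, .comp 2 3, .word 2 0 2 4, .word 2 0 3 5, .form 4, .comp 0 0, .word 1 0 2 1, .word 1 0 3 2, .word 1 0 4 3, .word 1 0 5 4, .word 1 0 6 5,
    .word 1 2 2 6, .word 1 2 3 7, .word 1 2 4 8, .word 1 2 5 9, .word 1 2 6 10, .word 1 2 7 11, .word 1 2 8 12, .word 1 2 9 13, .word 1 2 10 14, .comp 2 15, .form 5, .comp 2 0,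
    .word 2 0 2 1, .form 6, .comp 0 0, .word 0 1 2 1, .word 0 1 3 2, .comp 1 3, .word 1 0 2 4, .word 1 0 3 5, .form 7, .comp 0 0, .comp 1 1, .word 2 0 2 2,
    .word 2 0 3 3, .word 2 0 4 4, .word 2 0 5 5, .word 2 0 6 6, .word 2 1 2 7, .word 2 1 3 8, .word 2 1 4 9, .word 2 1 5 10, .word 2 1 6 11, .word 2 1 7 12, .word 2 1 8 13, .word 2 1 9 14,
    .word 2 1 10 15, .form 8, .form 9, .comp 0 0, .comp 2 1, .form 10, .form 11, .form 12, .comp 0 0, .comp 1 1, .form 13, .form 14,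
    .form 15, .form 16, .form 17, .form 18, .form 19, .form 20, .form 21, .form 22, .form 23, .form 24, .form 25, .form 26,
    .form 27, .form 28, .form 29, .form 30, .form 31, .form 32, .form 33, .form 34, .form 35, .form 36, .form 37, .form 38,
    .form 39, .form 40, .form 41, .form 42, .form 43, .form 44, .form 45, .form 46, .form 47]
  pks := [115, 114, 113, 110, 109, 108, 104, 103, 97, 96, 95, 94,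
    93, 92, 91, 90, 89, 88, 87, 86, 85, 84, 71, 70,
    69, 68, 67, 66, 65, 64, 63, 62, 61, 60, 59, 58,
    57, 56, 43, 42, 41, 40, 39, 38, 37, 36, 35, 34,
    33, 32, 31, 30, 29, 28, 27, 26, 25, 24, 23, 22,
    21, 20, 19, 18, 17, 16, 15, 14, 13, 12, 11, 10,
    9, 8, 7, 6, 5, 4, 3, 2, 1, 0]
  cn := [⟨0, 1, 0, 0, 8, 1, 38, 3⟩, ⟨0, 1, 0, 0, 13, 1, 47, 3⟩, ⟨0, 1, 0, 0, 16, 3, 50, 11⟩, ⟨2, 0, 2, 2, 16, 5, 50, 25⟩, ⟨0, 1, 0, 0, 17, 3, 51, 11⟩, ⟨0, 2, 2, 2, 17, 0, 51, 2⟩, ⟨2, 0, 2, 2, 17, 5, 51, 25⟩, ⟨0, 1, 0, 0, 18, 3, 52, 11⟩, ⟨2, 0, 2, 2, 18, 5, 52, 25⟩, ⟨0, 1, 0, 0, 19, 3, 53, 11⟩, ⟨0, 2, 2, 2, 19, 0, 53, 2⟩, ⟨2, 0, 2, 2, 19, 5, 53, 25⟩,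
    ⟨0, 1, 0, 0, 20, 3, 54, 11⟩, ⟨2, 0, 2, 2, 20, 5, 54, 25⟩, ⟨0, 1, 0, 0, 21, 3, 55, 11⟩, ⟨0, 2, 2, 2, 21, 0, 55, 2⟩, ⟨2, 0, 2, 2, 21, 5, 55, 25⟩, ⟨0, 1, 0, 0, 22, 3, 56, 11⟩, ⟨2, 0, 2, 2, 22, 5, 56, 25⟩, ⟨0, 1, 0, 0, 23, 3, 57, 11⟩, ⟨0, 2, 2, 2, 23, 0, 57, 2⟩, ⟨2, 0, 2, 2, 23, 5, 57, 25⟩, ⟨0, 1, 0, 0, 2, 3, 8, 11⟩, ⟨0, 1, 0, 0, 4, 3, 18, 11⟩,
    ⟨0, 2, 2, 1, 4, 0, 22, 0⟩, ⟨2, 0, 2, 1, 4, 5, 19, 24⟩, ⟨0, 1, 0, 0, 9, 3, 39, 11⟩, ⟨0, 2, 2, 1, 9, 0, 41, 0⟩, ⟨2, 0, 2, 1, 9, 5, 40, 24⟩, ⟨0, 1, 0, 0, 24, 3, 58, 11⟩, ⟨0, 2, 2, 2, 24, 0, 58, 2⟩, ⟨2, 0, 2, 2, 24, 5, 58, 25⟩, ⟨0, 1, 0, 0, 25, 3, 59, 11⟩, ⟨0, 2, 2, 2, 25, 0, 59, 2⟩, ⟨2, 0, 2, 2, 25, 5, 59, 25⟩, ⟨0, 1, 0, 0, 26, 3, 60, 11⟩,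
    ⟨0, 2, 2, 2, 26, 0, 60, 2⟩, ⟨2, 0, 2, 2, 26, 5, 60, 25⟩, ⟨0, 1, 0, 0, 27, 3, 61, 11⟩, ⟨0, 2, 2, 2, 27, 0, 61, 2⟩, ⟨2, 0, 2, 2, 27, 5, 61, 25⟩, ⟨0, 1, 0, 0, 28, 3, 62, 11⟩, ⟨0, 2, 2, 2, 28, 0, 62, 2⟩, ⟨2, 0, 2, 2, 28, 5, 62, 25⟩, ⟨0, 1, 0, 0, 29, 3, 63, 11⟩, ⟨0, 2, 2, 2, 29, 0, 63, 2⟩, ⟨2, 0, 2, 2, 29, 5, 63, 25⟩, ⟨0, 1, 0, 0, 30, 3, 64, 11⟩,
    ⟨0, 2, 2, 2, 30, 0, 64, 2⟩, ⟨2, 0, 2, 2, 30, 5, 64, 25⟩, ⟨0, 1, 0, 0, 31, 3, 65, 11⟩, ⟨0, 2, 2, 2, 31, 0, 65, 2⟩, ⟨2, 0, 2, 2, 31, 5, 65, 25⟩, ⟨0, 2, 3, 2, 3, 1, 12, 6⟩, ⟨2, 0, 3, 2, 3, 7, 15, 36⟩, ⟨0, 2, 4, 2, 3, 1, 16, 6⟩, ⟨2, 0, 4, 2, 3, 7, 13, 36⟩, ⟨0, 2, 5, 3, 3, 1, 13, 7⟩, ⟨2, 0, 5, 3, 3, 7, 16, 37⟩, ⟨0, 2, 6, 3, 3, 1, 17, 7⟩,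
    ⟨2, 0, 6, 3, 3, 7, 14, 37⟩, ⟨0, 1, 0, 0, 32, 6, 66, 26⟩, ⟨1, 0, 2, 2, 32, 2, 66, 10⟩, ⟨0, 1, 0, 0, 33, 6, 67, 26⟩, ⟨0, 1, 2, 2, 33, 0, 67, 1⟩, ⟨1, 0, 2, 2, 33, 2, 67, 10⟩, ⟨0, 1, 0, 0, 34, 6, 68, 26⟩, ⟨1, 0, 2, 2, 34, 2, 68, 10⟩, ⟨0, 1, 0, 0, 35, 6, 69, 26⟩, ⟨0, 1, 2, 2, 35, 0, 69, 1⟩, ⟨1, 0, 2, 2, 35, 2, 69, 10⟩, ⟨0, 1, 0, 0, 36, 6, 70, 26⟩,
    ⟨1, 0, 2, 2, 36, 2, 70, 10⟩, ⟨0, 1, 0, 0, 37, 6, 71, 26⟩, ⟨0, 1, 2, 2, 37, 0, 71, 1⟩, ⟨1, 0, 2, 2, 37, 2, 71, 10⟩, ⟨0, 1, 0, 0, 38, 6, 72, 26⟩, ⟨1, 0, 2, 2, 38, 2, 72, 10⟩, ⟨0, 1, 0, 0, 39, 6, 73, 26⟩, ⟨0, 1, 2, 2, 39, 0, 73, 1⟩, ⟨1, 0, 2, 2, 39, 2, 73, 10⟩, ⟨0, 1, 0, 0, 5, 6, 23, 26⟩, ⟨0, 1, 0, 0, 7, 6, 33, 26⟩, ⟨0, 1, 2, 1, 7, 0, 35, 0⟩,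
    ⟨1, 0, 2, 1, 7, 2, 34, 9⟩, ⟨0, 1, 0, 0, 12, 6, 44, 26⟩, ⟨0, 1, 2, 1, 12, 0, 46, 0⟩, ⟨1, 0, 2, 1, 12, 2, 45, 9⟩, ⟨0, 1, 0, 0, 40, 6, 74, 26⟩, ⟨0, 1, 2, 2, 40, 0, 74, 1⟩, ⟨1, 0, 2, 2, 40, 2, 74, 10⟩, ⟨0, 1, 0, 0, 41, 6, 75, 26⟩, ⟨0, 1, 2, 2, 41, 0, 75, 1⟩, ⟨1, 0, 2, 2, 41, 2, 75, 10⟩, ⟨0, 1, 0, 0, 42, 6, 76, 26⟩, ⟨0, 1, 2, 2, 42, 0, 76, 1⟩,
    ⟨1, 0, 2, 2, 42, 2, 76, 10⟩, ⟨0, 1, 0, 0, 43, 6, 77, 26⟩, ⟨0, 1, 2, 2, 43, 0, 77, 1⟩, ⟨1, 0, 2, 2, 43, 2, 77, 10⟩, ⟨0, 1, 0, 0, 44, 6, 78, 26⟩, ⟨0, 1, 2, 2, 44, 0, 78, 1⟩, ⟨1, 0, 2, 2, 44, 2, 78, 10⟩, ⟨0, 1, 0, 0, 45, 6, 79, 26⟩, ⟨0, 1, 2, 2, 45, 0, 79, 1⟩, ⟨1, 0, 2, 2, 45, 2, 79, 10⟩, ⟨0, 1, 0, 0, 46, 6, 80, 26⟩, ⟨0, 1, 2, 2, 46, 0, 80, 1⟩,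
    ⟨1, 0, 2, 2, 46, 2, 80, 10⟩, ⟨0, 1, 0, 0, 47, 6, 81, 26⟩, ⟨0, 1, 2, 2, 47, 0, 81, 1⟩, ⟨1, 0, 2, 2, 47, 2, 81, 10⟩, ⟨0, 1, 3, 2, 6, 1, 27, 4⟩, ⟨1, 0, 3, 2, 6, 4, 30, 20⟩, ⟨0, 1, 4, 2, 6, 1, 31, 4⟩, ⟨1, 0, 4, 2, 6, 4, 28, 20⟩, ⟨0, 1, 5, 3, 6, 1, 28, 5⟩, ⟨1, 0, 5, 3, 6, 4, 31, 21⟩, ⟨0, 1, 6, 3, 6, 1, 32, 5⟩, ⟨1, 0, 6, 3, 6, 4, 29, 21⟩,
    ⟨0, 1, 0, 0, 6, 10, 26, 42⟩, ⟨0, 1, 0, 0, 6, 11, 26, 43⟩, ⟨0, 1, 0, 0, 3, 14, 11, 48⟩, ⟨0, 1, 0, 0, 3, 15, 11, 49⟩]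
  pp := [⟨0, 1, 1, 0, 115⟩, ⟨1, 2, 1, 2, 96⟩, ⟨2, 0, 1, 5, 69⟩, ⟨0, 1, 2, 0, 114⟩, ⟨1, 0, 2, 2, 95⟩, ⟨0, 1, 3, 1, 108⟩, ⟨1, 0, 3, 4, 84⟩, ⟨0, 1, 4, 1, 107⟩, ⟨1, 0, 4, 4, 83⟩, ⟨0, 1, 5, 1, 106⟩, ⟨1, 0, 5, 4, 82⟩, ⟨0, 1, 6, 1, 105⟩,
    ⟨1, 0, 6, 4, 81⟩, ⟨0, 1, 0, 10, 39⟩, ⟨0, 1, 0, 11, 38⟩, ⟨0, 2, 2, 0, 113⟩, ⟨2, 0, 2, 5, 68⟩, ⟨0, 2, 3, 1, 103⟩, ⟨2, 0, 3, 7, 56⟩, ⟨0, 2, 4, 1, 102⟩, ⟨2, 0, 4, 7, 55⟩, ⟨0, 2, 5, 1, 101⟩, ⟨2, 0, 5, 7, 54⟩, ⟨0, 2, 6, 1, 100⟩,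
    ⟨2, 0, 6, 7, 53⟩, ⟨0, 2, 0, 14, 33⟩, ⟨0, 2, 0, 15, 32⟩, ⟨1, 2, 2, 4, 80⟩, ⟨1, 2, 3, 4, 79⟩, ⟨1, 2, 4, 4, 78⟩, ⟨1, 2, 5, 4, 77⟩, ⟨1, 2, 6, 4, 76⟩, ⟨1, 2, 7, 4, 75⟩, ⟨1, 2, 8, 4, 74⟩, ⟨1, 2, 9, 4, 73⟩, ⟨1, 2, 10, 4, 72⟩,
    ⟨2, 1, 2, 7, 52⟩, ⟨2, 1, 3, 7, 51⟩, ⟨2, 1, 4, 7, 50⟩, ⟨2, 1, 5, 7, 49⟩, ⟨2, 1, 6, 7, 48⟩, ⟨2, 1, 7, 7, 47⟩, ⟨2, 1, 8, 7, 46⟩, ⟨2, 1, 9, 7, 45⟩, ⟨2, 1, 10, 7, 44⟩]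
  pn := [⟨0, 1, 0, 0, 116⟩, ⟨0, 1, 0, 1, 110⟩, ⟨0, 1, 0, 16, 31⟩, ⟨0, 1, 0, 17, 30⟩, ⟨0, 1, 0, 18, 29⟩, ⟨0, 1, 0, 19, 28⟩, ⟨0, 1, 0, 20, 27⟩, ⟨0, 1, 0, 21, 26⟩, ⟨0, 1, 0, 22, 25⟩, ⟨0, 1, 0, 23, 24⟩, ⟨0, 1, 0, 2, 97⟩, ⟨0, 1, 0, 4, 87⟩,
    ⟨0, 1, 0, 9, 42⟩, ⟨0, 1, 0, 24, 23⟩, ⟨0, 1, 0, 25, 22⟩, ⟨0, 1, 0, 26, 21⟩, ⟨0, 1, 0, 27, 20⟩, ⟨0, 1, 0, 28, 19⟩, ⟨0, 1, 0, 29, 18⟩, ⟨0, 1, 0, 30, 17⟩, ⟨0, 1, 0, 31, 16⟩, ⟨0, 1, 0, 32, 15⟩, ⟨0, 1, 0, 33, 14⟩, ⟨0, 1, 0, 34, 13⟩,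
    ⟨0, 1, 0, 35, 12⟩, ⟨0, 1, 0, 36, 11⟩, ⟨0, 1, 0, 37, 10⟩, ⟨0, 1, 0, 38, 9⟩, ⟨0, 1, 0, 39, 8⟩, ⟨0, 1, 0, 5, 70⟩, ⟨0, 1, 0, 7, 60⟩, ⟨0, 1, 0, 12, 37⟩, ⟨0, 1, 0, 40, 7⟩, ⟨0, 1, 0, 41, 6⟩, ⟨0, 1, 0, 42, 5⟩, ⟨0, 1, 0, 43, 4⟩,
    ⟨0, 1, 0, 44, 3⟩, ⟨0, 1, 0, 45, 2⟩, ⟨0, 1, 0, 46, 1⟩, ⟨0, 1, 0, 47, 0⟩, ⟨1, 2, 10, 0, 112⟩, ⟨1, 2, 10, 1, 99⟩, ⟨2, 1, 10, 0, 111⟩, ⟨2, 1, 10, 1, 98⟩]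
  st := [(0, 0), (1, 0), (16, 1), (17, 1), (18, 1), (19, 1), (20, 1), (21, 1), (22, 1), (23, 1), (2, 1), (4, 1),
    (9, 1), (24, 1), (25, 1), (26, 1), (27, 1), (28, 1), (29, 1), (30, 1), (31, 1), (32, 2), (33, 2), (34, 2),
    (35, 2), (36, 2), (37, 2), (38, 2), (39, 2), (5, 2), (7, 2), (12, 2), (40, 2), (41, 2), (42, 2), (43, 2),
    (44, 2), (45, 2), (46, 2), (47, 2)]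
  sk _ := sTA10_77EI
  sf := sTA10_77EI.map SK.fct
  vd d := fun i j => match i, j with
    | 0, 1 => .sym false (d.f.getD 0 (.cst 0 0)) 2 8 10 11
    | 0, 2 => .sym true (d.f.getD 1 (.cst 0 0)) 2 13 14 15
    | 1, 0 => .sym true (d.f.getD 0 (.cst 0 0)) 2 9 10 11
    | 1, 2 => .small 10 4
    | 2, 0 => .sym false (d.f.getD 1 (.cst 0 0)) 2 12 14 15
    | 2, 1 => .small 10 7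
    | _, _ => .small 0 0
  vx := fun i j => match i, j with
    | 0, 1 => .big 7 8 10 11
    | 0, 2 => .big 7 13 15 14
    | 1, 0 => .big 7 9 11 10
    | 1, 2 => .small 10 4
    | 2, 0 => .big 7 12 14 15
    | 2, 1 => .small 10 7
    | _, _ => .small 0 0
  lb := fun i j => match i, j with
    | 1, 2 => 10
    | 2, 1 => 10
    | _, _ => 0

theorem TA10_77EI_ok {K : ℕ → ℕ → ℕ → Prop} (h1 : ∀ p q r, K p q r → p = 10) : TA10_77EI.OK K where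
  ok := Sys.ok_of (by decide +kernel)
  stt := by decide +kernel
  vx d i j := by fin_cases i <;> fin_cases j <;> rfl
  vd d i j hij := by
    fin_cases i <;> fin_cases j <;> first | exact absurd rfl hij | exact trivial | exact ⟨rfl, rfl, rfl⟩
  sf d := rfl
  sk d := (SKA.cons ⟨by decide, by decide, by decide, rfl, rfl⟩
    (SKA.cons ⟨by decide, by decide, by decide, rfl, by decide, by decide, rfl, rfl⟩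
    (SKA.cons ⟨by decide, by decide, by decide, rfl, rfl⟩
    (SKA.cons ⟨by decide, by decide, by decide, rfl, rfl⟩
    (SKA.cons ⟨by decide, by decide, by decide, rfl, by decide, by decide, rfl, rfl⟩
    (SKA.cons ⟨by decide, by decide, by decide, rfl, rfl⟩
    (SKA.cons ⟨by decide, by decide, by decide, rfl, rfl⟩
    (SKA.cons ⟨by decide, by decide, by decide, rfl, by decide, by decide, rfl, rfl⟩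
    (SKA.cons ⟨by decide, by decide, by decide, rfl, rfl⟩
    (SKA.cons ⟨by decide, by decide, by decide, rfl, rfl⟩
    (SKA.cons ⟨by decide, by decide, by decide, rfl, by decide, by decide, rfl, rfl⟩
    (SKA.cons ⟨by decide, by decide, by decide, rfl, rfl⟩
    (SKA.cons (Or.inl rfl)
    (SKA.cons (Or.inl rfl)
    (SKA.cons (Or.inl rfl)
    (SKA.cons (Or.inl rfl)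
    (SKA.cons (Or.inl rfl)
    (SKA.cons (Or.inl rfl)
    (SKA.cons (Or.inl rfl)
    (SKA.cons (Or.inl rfl)
    (SKA.cons ⟨by decide, by decide, by decide, rfl, rfl⟩
    (SKA.cons ⟨by decide, by decide, by decide, rfl, rfl⟩
    (SKA.cons ⟨by decide, by decide, by decide, rfl, rfl⟩
    (SKA.cons ⟨by decide, by decide, by decide, rfl, by decide, by decide, rfl, rfl⟩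
    (SKA.cons ⟨by decide, by decide, by decide, rfl, rfl⟩
    (SKA.cons ⟨by decide, by decide, by decide, rfl, rfl⟩
    (SKA.cons ⟨by decide, by decide, by decide, rfl, by decide, by decide, rfl, rfl⟩
    (SKA.cons ⟨by decide, by decide, by decide, rfl, rfl⟩
    (SKA.cons ⟨by decide, by decide, by decide, rfl, rfl⟩
    (SKA.cons ⟨by decide, by decide, by decide, rfl, by decide, by decide, rfl, rfl⟩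
    (SKA.cons ⟨by decide, by decide, by decide, rfl, rfl⟩
    (SKA.cons ⟨by decide, by decide, by decide, rfl, rfl⟩
    (SKA.cons ⟨by decide, by decide, by decide, rfl, by decide, by decide, rfl, rfl⟩
    (SKA.cons ⟨by decide, by decide, by decide, rfl, rfl⟩
    (SKA.cons (Or.inl rfl)
    (SKA.cons (Or.inl rfl)
    (SKA.cons (Or.inl rfl)
    (SKA.cons (Or.inl rfl)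
    (SKA.cons (Or.inl rfl)
    (SKA.cons (Or.inl rfl)
    (SKA.cons (Or.inl rfl)
    (SKA.cons (Or.inl rfl)
    (SKA.cons ⟨by decide, by decide, by decide, rfl, rfl⟩
    (SKA.cons ⟨by decide, by decide, by decide, rfl, rfl⟩
    SKA.nil))))))))))))))))))))))))))))))))))))))))))))
  cl d p q r hp hq hr hK' i j hij := by
    have e1 := h1 p q r hK'
    fin_cases i <;> fin_cases j <;> first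
      | exact absurd rfl hij
      | exact ⟨Nat.zero_le _, fun m E h => VD.noConfusion h⟩
      | exact ⟨e1.ge, fun m E h => VD.noConfusion h fun e _ => e1.trans e⟩

end Pool.Agent.Work.MP_88b7aa_gt.Kc
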