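import Pool.Agent.Work.MP_88b7aa_gt.Kc.TplU
import Pool.Agent.Work.MP_88b7aa_gt.PQ.SysQ

/-! Template: System A, `p = 4`. -/

set_option autoImplicit false

namespace Pool.Agent.Work.MP_88b7aa_gt.Kc

open Pool.Agent.Work.MP_88b7aa_gt.PQ

def sTA4_33 : List SK := [.imgT 0 1 2 2 0 16, .star 0 2 1 2 16 0, .imgT 0 1 2 3 0 17, .imgT 0 2 1 2 0 18, .star 0 1 2 2 18 0, .imgT 0 2 1 3 0 19]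

def TA4_33 : Tm where
  fes d := [FEQ 0,
    d.c.getD 0 .gram,
    d.c.getD 1 .gram,
    d.c.getD 2 .gram,
    d.c.getD 3 .gram,
    d.c.getD 4 .gram,
    d.c.getD 5 .gram,
    d.c.getD 6 .gram,
    FEV 0 1 (d.f.getD 0 (.cst 0 0)) (ngS (DpS (.par (cpar 0 1)) 0)) (ngS (DpS (.par (cpar 0 1)) 1)),
    FEV 0 1 (d.f.getD 0 (.cst 0 0)) (ngS (DpS (.par (cpar 0 1)) 1)) (ngS (DpS (.par (cpar 0 1)) 0)),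
    FEV 0 1 (d.f.getD 0 (.cst 0 0)) (DpS (.par (cpar 0 1)) 2) (DpS (.par (cpar 0 1)) 1),
    FEV 0 1 (d.f.getD 0 (.cst 0 0)) (DpS (.par (cpar 0 1)) 1) (DpS (.par (cpar 0 1)) 2),
    FEV 2 0 (d.f.getD 1 (.cst 0 0)) (ngS (DpS (.par (cpar 2 0)) 0)) (ngS (DpS (.par (cpar 2 0)) 1)),
    FEV 2 0 (d.f.getD 1 (.cst 0 0)) (ngS (DpS (.par (cpar 2 0)) 1)) (ngS (DpS (.par (cpar 2 0)) 0)),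
    FEV 2 0 (d.f.getD 1 (.cst 0 0)) (DpS (.par (cpar 2 0)) 2) (DpS (.par (cpar 2 0)) 1),
    FEV 2 0 (d.f.getD 1 (.cst 0 0)) (DpS (.par (cpar 2 0)) 1) (DpS (.par (cpar 2 0)) 2),
    FUT 0 1 2 2,
    FUT 0 1 2 3,
    FUT 0 2 1 2,
    FUT 0 2 1 3]
  is := [.form 0, .comp 0 0, .word 0 1 2 1, .word 0 2 2 2, .word 1 2 4 3, .word 2 1 4 4, .form 1, .comp 1 0, .word 1 2 2 1, .word 1 2 4 2, .comp 2 3, .word 2 1 2 4,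
    .word 2 1 4 5, .form 2, .comp 0 0, .comp 1 1, .word 1 0 2 2, .comp 2 3, .form 3, .form 4, .comp 0 0, .comp 1 1, .word 1 2 2 2, .word 1 2 3 3,
    .word 1 2 4 4, .comp 2 5, .form 5, .comp 0 0, .comp 1 1, .comp 2 2, .word 2 0 2 3, .form 6, .form 7, .comp 0 0, .comp 1 1, .comp 2 2,
    .word 2 1 2 3, .word 2 1 3 4, .word 2 1 4 5, .form 8, .form 9, .comp 0 0, .comp 2 1, .form 10, .form 11, .form 12, .comp 0 0, .comp 1 1,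
    .form 13, .form 14, .form 15, .form 16, .form 17, .form 18, .form 19]
  pks := [53, 52, 51, 48, 47, 46, 44, 43, 41, 40, 39, 38,
    37, 36, 35, 34, 33, 29, 28, 27, 26, 25, 24, 23,
    22, 21, 20, 19, 15, 14, 13, 12, 11, 10, 9, 8,
    7, 6, 5, 4, 3, 2, 1, 0]
  cn := [⟨0, 1, 0, 0, 8, 1, 28, 3⟩, ⟨0, 1, 0, 0, 13, 1, 37, 3⟩, ⟨1, 2, 2, 1, 1, 4, 6, 16⟩, ⟨1, 2, 3, 1, 1, 4, 5, 16⟩, ⟨0, 1, 0, 0, 16, 3, 40, 13⟩, ⟨2, 0, 2, 2, 16, 5, 40, 22⟩, ⟨0, 1, 0, 0, 17, 3, 41, 13⟩, ⟨0, 2, 2, 2, 17, 0, 41, 2⟩, ⟨2, 0, 2, 2, 17, 5, 41, 22⟩, ⟨0, 1, 0, 0, 2, 3, 8, 13⟩, ⟨0, 2, 2, 1, 2, 0, 12, 0⟩, ⟨2, 0, 2, 1, 2, 5, 9, 21⟩,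
    ⟨0, 1, 0, 0, 4, 3, 14, 13⟩, ⟨0, 2, 2, 1, 4, 0, 17, 0⟩, ⟨2, 0, 2, 1, 4, 5, 15, 21⟩, ⟨0, 1, 0, 0, 9, 3, 29, 13⟩, ⟨0, 2, 2, 1, 9, 0, 31, 0⟩, ⟨2, 0, 2, 1, 9, 5, 30, 21⟩, ⟨2, 1, 2, 1, 1, 7, 4, 27⟩, ⟨2, 1, 3, 1, 1, 7, 7, 27⟩, ⟨0, 1, 0, 0, 18, 6, 42, 23⟩, ⟨1, 0, 2, 2, 18, 2, 42, 11⟩, ⟨0, 1, 0, 0, 19, 6, 43, 23⟩, ⟨0, 1, 2, 2, 19, 0, 43, 1⟩,
    ⟨1, 0, 2, 2, 19, 2, 43, 11⟩, ⟨0, 1, 0, 0, 5, 6, 18, 23⟩, ⟨0, 1, 2, 1, 5, 0, 20, 0⟩, ⟨1, 0, 2, 1, 5, 2, 19, 10⟩, ⟨0, 1, 0, 0, 7, 6, 24, 23⟩, ⟨0, 1, 2, 1, 7, 0, 26, 0⟩, ⟨1, 0, 2, 1, 7, 2, 25, 10⟩, ⟨0, 1, 0, 0, 12, 6, 34, 23⟩, ⟨0, 1, 2, 1, 12, 0, 36, 0⟩, ⟨1, 0, 2, 1, 12, 2, 35, 10⟩, ⟨0, 1, 0, 0, 6, 10, 23, 32⟩, ⟨0, 1, 0, 0, 6, 11, 23, 33⟩,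
    ⟨0, 1, 0, 0, 3, 14, 13, 38⟩, ⟨0, 1, 0, 0, 3, 15, 13, 39⟩]
  pp := [⟨0, 1, 1, 0, 53⟩, ⟨1, 2, 1, 2, 39⟩, ⟨2, 0, 1, 5, 25⟩, ⟨0, 1, 2, 0, 52⟩, ⟨1, 0, 2, 2, 38⟩, ⟨0, 1, 0, 10, 11⟩, ⟨0, 1, 0, 11, 10⟩, ⟨0, 2, 2, 0, 51⟩, ⟨2, 0, 2, 5, 24⟩, ⟨0, 2, 0, 14, 5⟩, ⟨0, 2, 0, 15, 4⟩, ⟨1, 2, 2, 4, 32⟩,
    ⟨1, 2, 3, 4, 31⟩, ⟨1, 2, 4, 4, 30⟩, ⟨2, 1, 2, 7, 18⟩, ⟨2, 1, 3, 7, 17⟩, ⟨2, 1, 4, 7, 16⟩]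
  pn := [⟨0, 1, 0, 0, 54⟩, ⟨0, 1, 0, 1, 48⟩, ⟨0, 1, 0, 16, 3⟩, ⟨0, 1, 0, 17, 2⟩, ⟨0, 1, 0, 2, 41⟩, ⟨0, 1, 0, 4, 35⟩, ⟨0, 1, 0, 9, 14⟩, ⟨0, 1, 0, 18, 1⟩, ⟨0, 1, 0, 19, 0⟩, ⟨0, 1, 0, 5, 28⟩, ⟨0, 1, 0, 7, 22⟩, ⟨0, 1, 0, 12, 9⟩,
    ⟨1, 2, 4, 0, 50⟩, ⟨1, 2, 4, 1, 45⟩, ⟨2, 1, 4, 0, 49⟩, ⟨2, 1, 4, 1, 42⟩]
  st := [(0, 0), (1, 0), (16, 1), (17, 1), (2, 1), (4, 1), (9, 1), (18, 2), (19, 2), (5, 2), (7, 2), (12, 2)]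
  sk _ := sTA4_33
  sf := sTA4_33.map SK.fct
  vd d := fun i j => match i, j with
    | 0, 1 => .sym false (d.f.getD 0 (.cst 0 0)) 0 8 10 11
    | 0, 2 => .sym true (d.f.getD 1 (.cst 0 0)) 0 13 14 15
    | 1, 0 => .sym true (d.f.getD 0 (.cst 0 0)) 0 9 10 11
    | 1, 2 => .small 4 4
    | 2, 0 => .sym false (d.f.getD 1 (.cst 0 0)) 0 12 14 15
    | 2, 1 => .small 4 7
    | _, _ => .small 0 0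
  vx := fun i j => match i, j with
    | 0, 1 => .big 3 8 10 11
    | 0, 2 => .big 3 13 15 14
    | 1, 0 => .big 3 9 11 10
    | 1, 2 => .small 4 4
    | 2, 0 => .big 3 12 14 15
    | 2, 1 => .small 4 7
    | _, _ => .small 0 0
  lb := fun i j => match i, j with
    | 1, 2 => 4
    | 2, 1 => 4
    | _, _ => 0

theorem TA4_33_ok {K : ℕ → ℕ → ℕ → Prop} (h1 : ∀ p q r, K p q r → p = 4) : TA4_33.OK K where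
  ok := Sys.ok_of (by decide +kernel)
  stt := by decide +kernel
  vx d i j := by fin_cases i <;> fin_cases j <;> rfl
  vd d i j hij := by
    fin_cases i <;> fin_cases j <;> first | exact absurd rfl hij | exact trivial | exact ⟨rfl, rfl, rfl⟩
  sf d := rfl
  sk d := (SKA.cons ⟨by decide, by decide, by decide, rfl, rfl⟩
    (SKA.cons ⟨by decide, by decide, by decide, rfl, by decide, by decide, rfl, rfl⟩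
    (SKA.cons ⟨by decide, by decide, by decide, rfl, rfl⟩
    (SKA.cons ⟨by decide, by decide, by decide, rfl, rfl⟩
    (SKA.cons ⟨by decide, by decide, by decide, rfl, by decide, by decide, rfl, rfl⟩
    (SKA.cons ⟨by decide, by decide, by decide, rfl, rfl⟩
    SKA.nil))))))
  cl d p q r hp hq hr hK' i j hij := by
    have e1 := h1 p q r hK'
    fin_cases i <;> fin_cases j <;> first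
      | exact absurd rfl hij
      | exact ⟨Nat.zero_le _, fun m E h => VD.noConfusion h⟩
      | exact ⟨e1.ge, fun m E h => VD.noConfusion h fun e _ => e1.trans e⟩

end Pool.Agent.Work.MP_88b7aa_gt.Kc
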