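import Pool.Agent.Work.MP_88b7aa_gt.Kc.TplU
import Pool.Agent.Work.MP_88b7aa_gt.PQ.SysQ

/-! Template: System A, `p = 4`. -/

set_option autoImplicit false

namespace Pool.Agent.Work.MP_88b7aa_gt.Kc

open Pool.Agent.Work.MP_88b7aa_gt.PQ

def sTA4_33EI : List SK := [.imgT 0 1 2 2 0 16, .star 0 2 1 2 16 0, .imgT 0 1 2 3 0 17, .img 1 2 2 1 18, .img 1 2 3 1 19, .cc 0 2 1 2 0, .cc 2 0 1 2 5, .imgT 0 2 1 2 0 20, .star 0 1 2 2 20 0, .imgT 0 2 1 3 0 21, .img 2 1 2 1 22, .img 2 1 3 1 23,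
    .cc 0 1 2 5 0, .cc 1 0 2 5 2]

def TA4_33EI : Tm where
  fes d := [FEQ 0,
    d.c.getD 0 .gram,
    FEQ 1,
    d.c.getD 1 .gram,
    d.c.getD 2 .gram,
    FEQ 2,
    d.c.getD 3 .gram,
    d.c.getD 4 .gram,
    FEV 0 1 (d.f.getD 0 (.cst 0 0)) (ngS (DpS (.par (cpar 0 1)) 0)) (ngS (DpS (.par (cpar 0 1)) 1)),
    FEV 0 1 (d.f.getD 0 (.cst 0 0)) (ngS (DpS (.par (cpar 0 1)) 1)) (ngS (DpS (.par (cpar 0 1)) 0)),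
    FEV 0 1 (d.f.getD 0 (.cst 0 0)) (DpS (.par (cpar 0 1)) 2) (DpS (.par (cpar 0 1)) 1),
    FEV 0 1 (d.f.getD 0 (.cst 0 0)) (DpS (.par (cpar 0 1)) 1) (DpS (.par (cpar 0 1)) 2),
    FEV 2 0 (d.f.getD 1 (.cst 0 0)) (ngS (DpS (.par (cpar 2 0)) 0)) (ngS (DpS (.par (cpar 2 0)) 1)),
    FEV 2 0 (d.f.getD 1 (.cst 0 0)) (ngS (DpS (.par (cpar 2 0)) 1)) (ngS (DpS (.par (cpar 2 0)) 0)),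
    FEV 2 0 (d.f.getD 1 (.cst 0 0)) (DpS (.par (cpar 2 0)) 2) (DpS (.par (cpar 2 0)) 1),
    FEV 2 0 (d.f.getD 1 (.cst 0 0)) (DpS (.par (cpar 2 0)) 1) (DpS (.par (cpar 2 0)) 2),
    FUT 0 1 2 2,
    FUT 0 1 2 3,
    .word (rv1 1 2 2) (rv2 1 2 2) 2 (d.c.getD 0 .gram),
    .word (rv1 1 2 3) (rv2 1 2 3) 3 (d.c.getD 0 .gram),
    FUT 0 2 1 2,
    FUT 0 2 1 3,
    .word (rv1 2 1 2) (rv2 2 1 2) 2 (d.c.getD 0 .gram),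
    .word (rv1 2 1 3) (rv2 2 1 3) 3 (d.c.getD 0 .gram)]
  is := [.form 0, .comp 0 0, .word 0 1 2 1, .word 0 2 2 2, .word 1 2 4 3, .word 2 1 4 4, .form 1, .word 1 2 4 0, .word 2 1 4 1, .form 2, .comp 1 0, .word 1 0 2 1,
    .form 3, .form 4, .comp 0 0, .word 1 2 2 1, .word 1 2 3 2, .word 1 2 4 3, .comp 2 4, .form 5, .comp 2 0, .word 2 0 2 1, .form 6, .form 7,
    .comp 0 0, .comp 1 1, .word 2 1 2 2, .word 2 1 3 3, .word 2 1 4 4, .form 8, .form 9, .comp 0 0, .comp 2 1, .form 10, .form 11, .form 12,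
    .comp 0 0, .comp 1 1, .form 13, .form 14, .form 15, .form 16, .form 17, .form 18, .form 19, .form 20, .form 21, .form 22,
    .form 23]
  pks := [47, 46, 45, 42, 39, 38, 37, 36, 35, 34, 30, 29,
    28, 27, 26, 25, 24, 23, 19, 18, 17, 16, 15, 14,
    13, 12, 11, 10, 9, 8, 7, 6, 5, 4, 3, 2,
    1, 0]
  cn := [⟨0, 1, 0, 0, 8, 1, 18, 3⟩, ⟨0, 1, 0, 0, 13, 1, 27, 3⟩, ⟨0, 1, 0, 0, 16, 3, 30, 7⟩, ⟨2, 0, 2, 2, 16, 5, 30, 13⟩, ⟨0, 1, 0, 0, 17, 3, 31, 7⟩, ⟨0, 2, 2, 2, 17, 0, 31, 2⟩, ⟨2, 0, 2, 2, 17, 5, 31, 13⟩, ⟨0, 1, 0, 0, 2, 3, 4, 7⟩, ⟨0, 1, 0, 0, 4, 3, 8, 7⟩, ⟨0, 2, 2, 1, 4, 0, 10, 0⟩, ⟨2, 0, 2, 1, 4, 5, 9, 12⟩, ⟨0, 1, 0, 0, 9, 3, 19, 7⟩,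
    ⟨0, 2, 2, 1, 9, 0, 21, 0⟩, ⟨2, 0, 2, 1, 9, 5, 20, 12⟩, ⟨0, 1, 0, 0, 18, 3, 32, 7⟩, ⟨0, 2, 2, 2, 18, 0, 32, 2⟩, ⟨2, 0, 2, 2, 18, 5, 32, 13⟩, ⟨0, 1, 0, 0, 19, 3, 33, 7⟩, ⟨0, 2, 2, 2, 19, 0, 33, 2⟩, ⟨2, 0, 2, 2, 19, 5, 33, 13⟩, ⟨0, 1, 0, 0, 20, 6, 34, 14⟩, ⟨1, 0, 2, 2, 20, 2, 34, 6⟩, ⟨0, 1, 0, 0, 21, 6, 35, 14⟩, ⟨0, 1, 2, 2, 21, 0, 35, 1⟩,
    ⟨1, 0, 2, 2, 21, 2, 35, 6⟩, ⟨0, 1, 0, 0, 5, 6, 11, 14⟩, ⟨0, 1, 0, 0, 7, 6, 15, 14⟩, ⟨0, 1, 2, 1, 7, 0, 17, 0⟩, ⟨1, 0, 2, 1, 7, 2, 16, 5⟩, ⟨0, 1, 0, 0, 12, 6, 24, 14⟩, ⟨0, 1, 2, 1, 12, 0, 26, 0⟩, ⟨1, 0, 2, 1, 12, 2, 25, 5⟩, ⟨0, 1, 0, 0, 22, 6, 36, 14⟩, ⟨0, 1, 2, 2, 22, 0, 36, 1⟩, ⟨1, 0, 2, 2, 22, 2, 36, 6⟩, ⟨0, 1, 0, 0, 23, 6, 37, 14⟩,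
    ⟨0, 1, 2, 2, 23, 0, 37, 1⟩, ⟨1, 0, 2, 2, 23, 2, 37, 6⟩, ⟨0, 1, 0, 0, 6, 10, 14, 22⟩, ⟨0, 1, 0, 0, 6, 11, 14, 23⟩, ⟨0, 1, 0, 0, 3, 14, 7, 28⟩, ⟨0, 1, 0, 0, 3, 15, 7, 29⟩]
  pp := [⟨0, 1, 1, 0, 47⟩, ⟨1, 2, 1, 2, 38⟩, ⟨2, 0, 1, 5, 28⟩, ⟨0, 1, 2, 0, 46⟩, ⟨1, 0, 2, 2, 37⟩, ⟨0, 1, 0, 10, 15⟩, ⟨0, 1, 0, 11, 14⟩, ⟨0, 2, 2, 0, 45⟩, ⟨2, 0, 2, 5, 27⟩, ⟨0, 2, 0, 14, 9⟩, ⟨0, 2, 0, 15, 8⟩, ⟨1, 2, 2, 4, 33⟩,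
    ⟨1, 2, 3, 4, 32⟩, ⟨1, 2, 4, 4, 31⟩, ⟨2, 1, 2, 7, 22⟩, ⟨2, 1, 3, 7, 21⟩, ⟨2, 1, 4, 7, 20⟩]
  pn := [⟨0, 1, 0, 0, 48⟩, ⟨0, 1, 0, 1, 42⟩, ⟨0, 1, 0, 16, 7⟩, ⟨0, 1, 0, 17, 6⟩, ⟨0, 1, 0, 2, 39⟩, ⟨0, 1, 0, 4, 35⟩, ⟨0, 1, 0, 9, 18⟩, ⟨0, 1, 0, 18, 5⟩, ⟨0, 1, 0, 19, 4⟩, ⟨0, 1, 0, 20, 3⟩, ⟨0, 1, 0, 21, 2⟩, ⟨0, 1, 0, 5, 29⟩,
    ⟨0, 1, 0, 7, 25⟩, ⟨0, 1, 0, 12, 13⟩, ⟨0, 1, 0, 22, 1⟩, ⟨0, 1, 0, 23, 0⟩, ⟨1, 2, 4, 0, 44⟩, ⟨1, 2, 4, 1, 41⟩, ⟨2, 1, 4, 0, 43⟩, ⟨2, 1, 4, 1, 40⟩]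
  st := [(0, 0), (1, 0), (16, 1), (17, 1), (2, 1), (4, 1), (9, 1), (18, 1), (19, 1), (20, 2), (21, 2), (5, 2),
    (7, 2), (12, 2), (22, 2), (23, 2)]
  sk _ := sTA4_33EI
  sf := sTA4_33EI.map SK.fct
  vd d := fun i j => match i, j with
    | 0, 1 => .sym false (d.f.getD 0 (.cst 0 0)) 0 8 10 11
    | 0, 2 => .sym true (d.f.getD 1 (.cst 0 0)) 0 13 14 15
    | 1, 0 => .sym true (d.f.getD 0 (.cst 0 0)) 0 9 10 11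
    | 1, 2 => .small 4 4
    | 2, 0 => .sym false (d.f.getD 1 (.cst 0 0)) 0 12 14 15
    | 2, 1 => .small 4 7
    | _, _ => .small 0 0
  vx := fun i j => match i, j with
    | 0, 1 => .big 3 8 10 11
    | 0, 2 => .big 3 13 15 14
    | 1, 0 => .big 3 9 11 10
    | 1, 2 => .small 4 4
    | 2, 0 => .big 3 12 14 15
    | 2, 1 => .small 4 7
    | _, _ => .small 0 0
  lb := fun i j => match i, j with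
    | 1, 2 => 4
    | 2, 1 => 4
    | _, _ => 0

theorem TA4_33EI_ok {K : ℕ → ℕ → ℕ → Prop} (h1 : ∀ p q r, K p q r → p = 4) : TA4_33EI.OK K where
  ok := Sys.ok_of (by decide +kernel)
  stt := by decide +kernel
  vx d i j := by fin_cases i <;> fin_cases j <;> rfl
  vd d i j hij := by
    fin_cases i <;> fin_cases j <;> first | exact absurd rfl hij | exact trivial | exact ⟨rfl, rfl, rfl⟩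
  sf d := rfl
  sk d := (SKA.cons ⟨by decide, by decide, by decide, rfl, rfl⟩
    (SKA.cons ⟨by decide, by decide, by decide, rfl, by decide, by decide, rfl, rfl⟩
    (SKA.cons ⟨by decide, by decide, by decide, rfl, rfl⟩
    (SKA.cons (Or.inl rfl)
    (SKA.cons (Or.inl rfl)
    (SKA.cons ⟨by decide, by decide, by decide, rfl, rfl⟩
    (SKA.cons ⟨by decide, by decide, by decide, rfl, rfl⟩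
    (SKA.cons ⟨by decide, by decide, by decide, rfl, rfl⟩
    (SKA.cons ⟨by decide, by decide, by decide, rfl, by decide, by decide, rfl, rfl⟩
    (SKA.cons ⟨by decide, by decide, by decide, rfl, rfl⟩
    (SKA.cons (Or.inl rfl)
    (SKA.cons (Or.inl rfl)
    (SKA.cons ⟨by decide, by decide, by decide, rfl, rfl⟩
    (SKA.cons ⟨by decide, by decide, by decide, rfl, rfl⟩
    SKA.nil))))))))))))))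
  cl d p q r hp hq hr hK' i j hij := by
    have e1 := h1 p q r hK'
    fin_cases i <;> fin_cases j <;> first
      | exact absurd rfl hij
      | exact ⟨Nat.zero_le _, fun m E h => VD.noConfusion h⟩
      | exact ⟨e1.ge, fun m E h => VD.noConfusion h fun e _ => e1.trans e⟩

end Pool.Agent.Work.MP_88b7aa_gt.Kc
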