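import Pool.Agent.Work.MP_88b7aa_gt.Kc.TplU
import Pool.Agent.Work.MP_88b7aa_gt.PQ.SysQ

/-! Template: System A, `p = 5`. -/

set_option autoImplicit false

namespace Pool.Agent.Work.MP_88b7aa_gt.Kc

open Pool.Agent.Work.MP_88b7aa_gt.PQ

def sTA5_33EI : List SK := [.imgT 0 1 2 2 0 16, .star 0 2 1 2 16 0, .imgT 0 1 2 3 0 17, .imgT 0 1 2 4 0 18, .star 0 2 1 4 18 0, .img 1 2 2 1 19, .img 1 2 3 1 20, .img 1 2 4 1 21, .cc 0 2 1 2 0, .cc 2 0 1 2 5, .imgT 0 2 1 2 0 22, .star 0 1 2 2 22 0,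
    .imgT 0 2 1 3 0 23, .imgT 0 2 1 4 0 24, .star 0 1 2 4 24 0, .img 2 1 2 1 25, .img 2 1 3 1 26, .img 2 1 4 1 27, .cc 0 1 2 5 0, .cc 1 0 2 5 2]

def TA5_33EI : Tm where
  fes d := [FEQ 0,
    d.c.getD 0 .gram,
    FEQ 1,
    d.c.getD 1 .gram,
    d.c.getD 2 .gram,
    FEQ 2,
    d.c.getD 3 .gram,
    d.c.getD 4 .gram,
    FEV 0 1 (d.f.getD 0 (.cst 0 0)) (ngS (DpS (.par (cpar 0 1)) 0)) (ngS (DpS (.par (cpar 0 1)) 1)),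
    FEV 0 1 (d.f.getD 0 (.cst 0 0)) (ngS (DpS (.par (cpar 0 1)) 1)) (ngS (DpS (.par (cpar 0 1)) 0)),
    FEV 0 1 (d.f.getD 0 (.cst 0 0)) (DpS (.par (cpar 0 1)) 2) (DpS (.par (cpar 0 1)) 1),
    FEV 0 1 (d.f.getD 0 (.cst 0 0)) (DpS (.par (cpar 0 1)) 1) (DpS (.par (cpar 0 1)) 2),
    FEV 2 0 (d.f.getD 1 (.cst 0 0)) (ngS (DpS (.par (cpar 2 0)) 0)) (ngS (DpS (.par (cpar 2 0)) 1)),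
    FEV 2 0 (d.f.getD 1 (.cst 0 0)) (ngS (DpS (.par (cpar 2 0)) 1)) (ngS (DpS (.par (cpar 2 0)) 0)),
    FEV 2 0 (d.f.getD 1 (.cst 0 0)) (DpS (.par (cpar 2 0)) 2) (DpS (.par (cpar 2 0)) 1),
    FEV 2 0 (d.f.getD 1 (.cst 0 0)) (DpS (.par (cpar 2 0)) 1) (DpS (.par (cpar 2 0)) 2),
    FUT 0 1 2 2,
    FUT 0 1 2 3,
    FUT 0 1 2 4,
    .word (rv1 1 2 2) (rv2 1 2 2) 2 (d.c.getD 0 .gram),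
    .word (rv1 1 2 3) (rv2 1 2 3) 3 (d.c.getD 0 .gram),
    .word (rv1 1 2 4) (rv2 1 2 4) 4 (d.c.getD 0 .gram),
    FUT 0 2 1 2,
    FUT 0 2 1 3,
    FUT 0 2 1 4,
    .word (rv1 2 1 2) (rv2 2 1 2) 2 (d.c.getD 0 .gram),
    .word (rv1 2 1 3) (rv2 2 1 3) 3 (d.c.getD 0 .gram),
    .word (rv1 2 1 4) (rv2 2 1 4) 4 (d.c.getD 0 .gram)]
  is := [.form 0, .comp 0 0, .word 0 1 2 1, .word 0 2 2 2, .word 1 2 5 3, .word 2 1 5 4, .form 1, .word 1 2 5 0, .word 2 1 5 1, .form 2, .comp 1 0, .word 1 0 2 1,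
    .form 3, .form 4, .comp 0 0, .word 1 2 2 1, .word 1 2 3 2, .word 1 2 4 3, .word 1 2 5 4, .comp 2 5, .form 5, .comp 2 0, .word 2 0 2 1, .form 6,
    .form 7, .comp 0 0, .comp 1 1, .word 2 1 2 2, .word 2 1 3 3, .word 2 1 4 4, .word 2 1 5 5, .form 8, .form 9, .comp 0 0, .comp 2 1, .form 10,
    .form 11, .form 12, .comp 0 0, .comp 1 1, .form 13, .form 14, .form 15, .form 16, .form 17, .form 18, .form 19, .form 20,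
    .form 21, .form 22, .form 23, .form 24, .form 25, .form 26, .form 27]
  pks := [53, 52, 51, 48, 45, 44, 43, 42, 41, 40, 35, 34,
    33, 32, 31, 30, 29, 28, 23, 22, 21, 20, 19, 18,
    17, 16, 15, 14, 13, 12, 11, 10, 9, 8, 7, 6,
    5, 4, 3, 2, 1, 0]
  cn := [⟨0, 1, 0, 0, 8, 1, 18, 3⟩, ⟨0, 1, 0, 0, 13, 1, 27, 3⟩, ⟨0, 1, 0, 0, 16, 3, 30, 7⟩, ⟨2, 0, 2, 2, 16, 5, 30, 13⟩, ⟨0, 1, 0, 0, 17, 3, 31, 7⟩, ⟨0, 2, 2, 2, 17, 0, 31, 2⟩, ⟨2, 0, 2, 2, 17, 5, 31, 13⟩, ⟨0, 1, 0, 0, 18, 3, 32, 7⟩, ⟨2, 0, 2, 2, 18, 5, 32, 13⟩, ⟨0, 1, 0, 0, 2, 3, 4, 7⟩, ⟨0, 1, 0, 0, 4, 3, 8, 7⟩, ⟨0, 2, 2, 1, 4, 0, 10, 0⟩,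
    ⟨2, 0, 2, 1, 4, 5, 9, 12⟩, ⟨0, 1, 0, 0, 9, 3, 19, 7⟩, ⟨0, 2, 2, 1, 9, 0, 21, 0⟩, ⟨2, 0, 2, 1, 9, 5, 20, 12⟩, ⟨0, 1, 0, 0, 19, 3, 33, 7⟩, ⟨0, 2, 2, 2, 19, 0, 33, 2⟩, ⟨2, 0, 2, 2, 19, 5, 33, 13⟩, ⟨0, 1, 0, 0, 20, 3, 34, 7⟩, ⟨0, 2, 2, 2, 20, 0, 34, 2⟩, ⟨2, 0, 2, 2, 20, 5, 34, 13⟩, ⟨0, 1, 0, 0, 21, 3, 35, 7⟩, ⟨0, 2, 2, 2, 21, 0, 35, 2⟩,
    ⟨2, 0, 2, 2, 21, 5, 35, 13⟩, ⟨0, 1, 0, 0, 22, 6, 36, 14⟩, ⟨1, 0, 2, 2, 22, 2, 36, 6⟩, ⟨0, 1, 0, 0, 23, 6, 37, 14⟩, ⟨0, 1, 2, 2, 23, 0, 37, 1⟩, ⟨1, 0, 2, 2, 23, 2, 37, 6⟩, ⟨0, 1, 0, 0, 24, 6, 38, 14⟩, ⟨1, 0, 2, 2, 24, 2, 38, 6⟩, ⟨0, 1, 0, 0, 5, 6, 11, 14⟩, ⟨0, 1, 0, 0, 7, 6, 15, 14⟩, ⟨0, 1, 2, 1, 7, 0, 17, 0⟩, ⟨1, 0, 2, 1, 7, 2, 16, 5⟩,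
    ⟨0, 1, 0, 0, 12, 6, 24, 14⟩, ⟨0, 1, 2, 1, 12, 0, 26, 0⟩, ⟨1, 0, 2, 1, 12, 2, 25, 5⟩, ⟨0, 1, 0, 0, 25, 6, 39, 14⟩, ⟨0, 1, 2, 2, 25, 0, 39, 1⟩, ⟨1, 0, 2, 2, 25, 2, 39, 6⟩, ⟨0, 1, 0, 0, 26, 6, 40, 14⟩, ⟨0, 1, 2, 2, 26, 0, 40, 1⟩, ⟨1, 0, 2, 2, 26, 2, 40, 6⟩, ⟨0, 1, 0, 0, 27, 6, 41, 14⟩, ⟨0, 1, 2, 2, 27, 0, 41, 1⟩, ⟨1, 0, 2, 2, 27, 2, 41, 6⟩,
    ⟨0, 1, 0, 0, 6, 10, 14, 22⟩, ⟨0, 1, 0, 0, 6, 11, 14, 23⟩, ⟨0, 1, 0, 0, 3, 14, 7, 28⟩, ⟨0, 1, 0, 0, 3, 15, 7, 29⟩]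
  pp := [⟨0, 1, 1, 0, 53⟩, ⟨1, 2, 1, 2, 44⟩, ⟨2, 0, 1, 5, 33⟩, ⟨0, 1, 2, 0, 52⟩, ⟨1, 0, 2, 2, 43⟩, ⟨0, 1, 0, 10, 19⟩, ⟨0, 1, 0, 11, 18⟩, ⟨0, 2, 2, 0, 51⟩, ⟨2, 0, 2, 5, 32⟩, ⟨0, 2, 0, 14, 13⟩, ⟨0, 2, 0, 15, 12⟩, ⟨1, 2, 2, 4, 39⟩,
    ⟨1, 2, 3, 4, 38⟩, ⟨1, 2, 4, 4, 37⟩, ⟨1, 2, 5, 4, 36⟩, ⟨2, 1, 2, 7, 27⟩, ⟨2, 1, 3, 7, 26⟩, ⟨2, 1, 4, 7, 25⟩, ⟨2, 1, 5, 7, 24⟩]
  pn := [⟨0, 1, 0, 0, 54⟩, ⟨0, 1, 0, 1, 48⟩, ⟨0, 1, 0, 16, 11⟩, ⟨0, 1, 0, 17, 10⟩, ⟨0, 1, 0, 18, 9⟩, ⟨0, 1, 0, 2, 45⟩, ⟨0, 1, 0, 4, 41⟩, ⟨0, 1, 0, 9, 22⟩, ⟨0, 1, 0, 19, 8⟩, ⟨0, 1, 0, 20, 7⟩, ⟨0, 1, 0, 21, 6⟩, ⟨0, 1, 0, 22, 5⟩,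
    ⟨0, 1, 0, 23, 4⟩, ⟨0, 1, 0, 24, 3⟩, ⟨0, 1, 0, 5, 34⟩, ⟨0, 1, 0, 7, 30⟩, ⟨0, 1, 0, 12, 17⟩, ⟨0, 1, 0, 25, 2⟩, ⟨0, 1, 0, 26, 1⟩, ⟨0, 1, 0, 27, 0⟩, ⟨1, 2, 5, 0, 50⟩, ⟨1, 2, 5, 1, 47⟩, ⟨2, 1, 5, 0, 49⟩, ⟨2, 1, 5, 1, 46⟩]
  st := [(0, 0), (1, 0), (16, 1), (17, 1), (18, 1), (2, 1), (4, 1), (9, 1), (19, 1), (20, 1), (21, 1), (22, 2),
    (23, 2), (24, 2), (5, 2), (7, 2), (12, 2), (25, 2), (26, 2), (27, 2)]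
  sk _ := sTA5_33EI
  sf := sTA5_33EI.map SK.fct
  vd d := fun i j => match i, j with
    | 0, 1 => .sym false (d.f.getD 0 (.cst 0 0)) 0 8 10 11
    | 0, 2 => .sym true (d.f.getD 1 (.cst 0 0)) 0 13 14 15
    | 1, 0 => .sym true (d.f.getD 0 (.cst 0 0)) 0 9 10 11
    | 1, 2 => .small 5 4
    | 2, 0 => .sym false (d.f.getD 1 (.cst 0 0)) 0 12 14 15
    | 2, 1 => .small 5 7
    | _, _ => .small 0 0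
  vx := fun i j => match i, j with
    | 0, 1 => .big 3 8 10 11
    | 0, 2 => .big 3 13 15 14
    | 1, 0 => .big 3 9 11 10
    | 1, 2 => .small 5 4
    | 2, 0 => .big 3 12 14 15
    | 2, 1 => .small 5 7
    | _, _ => .small 0 0
  lb := fun i j => match i, j with
    | 1, 2 => 5
    | 2, 1 => 5
    | _, _ => 0

theorem TA5_33EI_ok {K : ℕ → ℕ → ℕ → Prop} (h1 : ∀ p q r, K p q r → p = 5) : TA5_33EI.OK K where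
  ok := Sys.ok_of (by decide +kernel)
  stt := by decide +kernel
  vx d i j := by fin_cases i <;> fin_cases j <;> rfl
  vd d i j hij := by
    fin_cases i <;> fin_cases j <;> first | exact absurd rfl hij | exact trivial | exact ⟨rfl, rfl, rfl⟩
  sf d := rfl
  sk d := (SKA.cons ⟨by decide, by decide, by decide, rfl, rfl⟩
    (SKA.cons ⟨by decide, by decide, by decide, rfl, by decide, by decide, rfl, rfl⟩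
    (SKA.cons ⟨by decide, by decide, by decide, rfl, rfl⟩
    (SKA.cons ⟨by decide, by decide, by decide, rfl, rfl⟩
    (SKA.cons ⟨by decide, by decide, by decide, rfl, by decide, by decide, rfl, rfl⟩
    (SKA.cons (Or.inl rfl)
    (SKA.cons (Or.inl rfl)
    (SKA.cons (Or.inl rfl)
    (SKA.cons ⟨by decide, by decide, by decide, rfl, rfl⟩
    (SKA.cons ⟨by decide, by decide, by decide, rfl, rfl⟩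
    (SKA.cons ⟨by decide, by decide, by decide, rfl, rfl⟩
    (SKA.cons ⟨by decide, by decide, by decide, rfl, by decide, by decide, rfl, rfl⟩
    (SKA.cons ⟨by decide, by decide, by decide, rfl, rfl⟩
    (SKA.cons ⟨by decide, by decide, by decide, rfl, rfl⟩
    (SKA.cons ⟨by decide, by decide, by decide, rfl, by decide, by decide, rfl, rfl⟩
    (SKA.cons (Or.inl rfl)
    (SKA.cons (Or.inl rfl)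
    (SKA.cons (Or.inl rfl)
    (SKA.cons ⟨by decide, by decide, by decide, rfl, rfl⟩
    (SKA.cons ⟨by decide, by decide, by decide, rfl, rfl⟩
    SKA.nil))))))))))))))))))))
  cl d p q r hp hq hr hK' i j hij := by
    have e1 := h1 p q r hK'
    fin_cases i <;> fin_cases j <;> first
      | exact absurd rfl hij
      | exact ⟨Nat.zero_le _, fun m E h => VD.noConfusion h⟩
      | exact ⟨e1.ge, fun m E h => VD.noConfusion h fun e _ => e1.trans e⟩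

end Pool.Agent.Work.MP_88b7aa_gt.Kc
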