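import Pool.Agent.Work.MP_88b7aa_gt.Kc.TplU
import Pool.Agent.Work.MP_88b7aa_gt.PQ.SysQ

/-! Template: System A, `p = 5`. -/

set_option autoImplicit false

namespace Pool.Agent.Work.MP_88b7aa_gt.Kc

open Pool.Agent.Work.MP_88b7aa_gt.PQ

def sTA5_55 : List SK := [.imgT 0 1 2 2 0 16, .star 0 2 1 2 16 0, .imgT 0 1 2 3 0 17, .imgT 0 1 2 4 0 18, .star 0 2 1 4 18 0, .imgT 0 2 1 2 0 19, .star 0 1 2 2 19 0, .imgT 0 2 1 3 0 20, .imgT 0 2 1 4 0 21, .star 0 1 2 4 21 0]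

def TA5_55 : Tm where
  fes d := [FEQ 0,
    d.c.getD 0 .gram,
    d.c.getD 1 .gram,
    d.c.getD 2 .gram,
    d.c.getD 3 .gram,
    d.c.getD 4 .gram,
    d.c.getD 5 .gram,
    d.c.getD 6 .gram,
    FEV 0 1 (d.f.getD 0 (.cst 0 0)) (ngS (DpS (.par (cpar 0 1)) 1)) (ngS (DpS (.par (cpar 0 1)) 2)),
    FEV 0 1 (d.f.getD 0 (.cst 0 0)) (ngS (DpS (.par (cpar 0 1)) 2)) (ngS (DpS (.par (cpar 0 1)) 1)),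
    FEV 0 1 (d.f.getD 0 (.cst 0 0)) (DpS (.par (cpar 0 1)) 3) (DpS (.par (cpar 0 1)) 2),
    FEV 0 1 (d.f.getD 0 (.cst 0 0)) (DpS (.par (cpar 0 1)) 2) (DpS (.par (cpar 0 1)) 3),
    FEV 2 0 (d.f.getD 1 (.cst 0 0)) (ngS (DpS (.par (cpar 2 0)) 1)) (ngS (DpS (.par (cpar 2 0)) 2)),
    FEV 2 0 (d.f.getD 1 (.cst 0 0)) (ngS (DpS (.par (cpar 2 0)) 2)) (ngS (DpS (.par (cpar 2 0)) 1)),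
    FEV 2 0 (d.f.getD 1 (.cst 0 0)) (DpS (.par (cpar 2 0)) 3) (DpS (.par (cpar 2 0)) 2),
    FEV 2 0 (d.f.getD 1 (.cst 0 0)) (DpS (.par (cpar 2 0)) 2) (DpS (.par (cpar 2 0)) 3),
    FUT 0 1 2 2,
    FUT 0 1 2 3,
    FUT 0 1 2 4,
    FUT 0 2 1 2,
    FUT 0 2 1 3,
    FUT 0 2 1 4]
  is := [.form 0, .comp 0 0, .word 0 1 2 1, .word 0 2 2 2, .word 1 2 5 3, .word 2 1 5 4, .form 1, .word 0 1 2 0, .word 0 1 3 1, .word 0 1 4 2, .word 0 2 2 3, .word 0 2 3 4,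
    .word 0 2 4 5, .comp 1 6, .word 1 2 2 7, .word 1 2 5 8, .comp 2 9, .word 2 1 2 10, .word 2 1 5 11, .form 2, .comp 0 0, .comp 1 1, .word 1 0 2 2, .comp 2 3,
    .form 3, .comp 0 0, .word 0 2 2 1, .comp 2 2, .word 2 0 2 3, .form 4, .comp 0 0, .comp 1 1, .word 1 0 2 2, .word 1 0 3 3, .word 1 0 4 4, .word 1 2 2 5,
    .word 1 2 3 6, .word 1 2 4 7, .word 1 2 5 8, .comp 2 9, .form 5, .comp 0 0, .comp 1 1, .comp 2 2, .word 2 0 2 3, .form 6, .comp 0 0, .word 0 1 2 1,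
    .comp 1 2, .word 1 0 2 3, .form 7, .comp 0 0, .comp 1 1, .comp 2 2, .word 2 0 2 3, .word 2 0 3 4, .word 2 0 4 5, .word 2 1 2 6, .word 2 1 3 7, .word 2 1 4 8,
    .word 2 1 5 9, .form 8, .form 9, .comp 0 0, .comp 2 1, .form 10, .form 11, .form 12, .comp 0 0, .comp 1 1, .form 13, .form 14,
    .form 15, .form 16, .form 17, .form 18, .form 19, .form 20, .form 21]
  pks := [77, 76, 75, 72, 71, 68, 65, 64, 62, 61, 59, 58,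
    57, 56, 55, 54, 53, 52, 51, 50, 49, 48, 47, 46,
    43, 39, 38, 37, 36, 35, 34, 33, 32, 31, 30, 29,
    28, 27, 26, 25, 24, 21, 17, 16, 15, 14, 13, 12,
    11, 10, 9, 8, 7, 6, 5, 4, 3, 2, 1, 0]
  cn := [⟨0, 1, 0, 0, 8, 1, 42, 3⟩, ⟨0, 1, 0, 0, 13, 1, 51, 3⟩, ⟨1, 2, 2, 1, 1, 4, 8, 22⟩, ⟨1, 2, 3, 1, 1, 4, 7, 22⟩, ⟨1, 2, 4, 2, 1, 4, 9, 24⟩, ⟨0, 1, 0, 0, 16, 3, 54, 15⟩, ⟨2, 0, 2, 2, 16, 5, 54, 30⟩, ⟨0, 1, 0, 0, 17, 3, 55, 15⟩, ⟨0, 2, 2, 2, 17, 0, 55, 2⟩, ⟨2, 0, 2, 2, 17, 5, 55, 30⟩, ⟨0, 1, 0, 0, 18, 3, 56, 15⟩, ⟨2, 0, 2, 2, 18, 5, 56, 30⟩,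
    ⟨0, 1, 0, 0, 2, 3, 10, 15⟩, ⟨0, 2, 2, 1, 2, 0, 14, 0⟩, ⟨2, 0, 2, 1, 2, 5, 11, 29⟩, ⟨0, 1, 0, 0, 4, 3, 20, 15⟩, ⟨0, 2, 2, 1, 4, 0, 25, 0⟩, ⟨2, 0, 2, 1, 4, 5, 21, 29⟩, ⟨0, 1, 0, 0, 9, 3, 43, 15⟩, ⟨0, 2, 2, 1, 9, 0, 45, 0⟩, ⟨2, 0, 2, 1, 9, 5, 44, 29⟩, ⟨0, 2, 3, 2, 3, 1, 16, 5⟩, ⟨2, 0, 3, 2, 3, 7, 18, 40⟩, ⟨0, 2, 4, 2, 3, 1, 19, 5⟩,
    ⟨2, 0, 4, 2, 3, 7, 17, 40⟩, ⟨2, 1, 2, 1, 1, 7, 6, 39⟩, ⟨2, 1, 3, 1, 1, 7, 9, 39⟩, ⟨2, 1, 4, 2, 1, 7, 7, 41⟩, ⟨0, 1, 0, 0, 19, 6, 57, 31⟩, ⟨1, 0, 2, 2, 19, 2, 57, 13⟩, ⟨0, 1, 0, 0, 20, 6, 58, 31⟩, ⟨0, 1, 2, 2, 20, 0, 58, 1⟩, ⟨1, 0, 2, 2, 20, 2, 58, 13⟩, ⟨0, 1, 0, 0, 21, 6, 59, 31⟩, ⟨1, 0, 2, 2, 21, 2, 59, 13⟩, ⟨0, 1, 0, 0, 5, 6, 26, 31⟩,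
    ⟨0, 1, 2, 1, 5, 0, 28, 0⟩, ⟨1, 0, 2, 1, 5, 2, 27, 12⟩, ⟨0, 1, 0, 0, 7, 6, 36, 31⟩, ⟨0, 1, 2, 1, 7, 0, 38, 0⟩, ⟨1, 0, 2, 1, 7, 2, 37, 12⟩, ⟨0, 1, 0, 0, 12, 6, 48, 31⟩, ⟨0, 1, 2, 1, 12, 0, 50, 0⟩, ⟨1, 0, 2, 1, 12, 2, 49, 12⟩, ⟨0, 1, 3, 2, 6, 1, 32, 4⟩, ⟨1, 0, 3, 2, 6, 4, 34, 23⟩, ⟨0, 1, 4, 2, 6, 1, 35, 4⟩, ⟨1, 0, 4, 2, 6, 4, 33, 23⟩,
    ⟨0, 1, 0, 0, 6, 10, 31, 46⟩, ⟨0, 1, 0, 0, 6, 11, 31, 47⟩, ⟨0, 1, 0, 0, 3, 14, 15, 52⟩, ⟨0, 1, 0, 0, 3, 15, 15, 53⟩]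
  pp := [⟨0, 1, 1, 0, 77⟩, ⟨1, 2, 1, 2, 57⟩, ⟨2, 0, 1, 5, 35⟩, ⟨0, 1, 2, 0, 76⟩, ⟨1, 0, 2, 2, 56⟩, ⟨0, 1, 3, 1, 70⟩, ⟨1, 0, 3, 4, 45⟩, ⟨0, 1, 4, 1, 69⟩, ⟨1, 0, 4, 4, 44⟩, ⟨0, 1, 0, 10, 13⟩, ⟨0, 1, 0, 11, 12⟩, ⟨0, 2, 2, 0, 75⟩,
    ⟨2, 0, 2, 5, 34⟩, ⟨0, 2, 3, 1, 67⟩, ⟨2, 0, 3, 7, 23⟩, ⟨0, 2, 4, 1, 66⟩, ⟨2, 0, 4, 7, 22⟩, ⟨0, 2, 0, 14, 7⟩, ⟨0, 2, 0, 15, 6⟩, ⟨1, 2, 2, 4, 43⟩, ⟨1, 2, 3, 4, 42⟩, ⟨1, 2, 4, 4, 41⟩, ⟨1, 2, 5, 4, 40⟩, ⟨2, 1, 2, 7, 21⟩,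
    ⟨2, 1, 3, 7, 20⟩, ⟨2, 1, 4, 7, 19⟩, ⟨2, 1, 5, 7, 18⟩]
  pn := [⟨0, 1, 0, 0, 78⟩, ⟨0, 1, 0, 1, 72⟩, ⟨0, 1, 0, 16, 5⟩, ⟨0, 1, 0, 17, 4⟩, ⟨0, 1, 0, 18, 3⟩, ⟨0, 1, 0, 2, 59⟩, ⟨0, 1, 0, 4, 49⟩, ⟨0, 1, 0, 9, 16⟩, ⟨0, 1, 0, 19, 2⟩, ⟨0, 1, 0, 20, 1⟩, ⟨0, 1, 0, 21, 0⟩, ⟨0, 1, 0, 5, 38⟩,
    ⟨0, 1, 0, 7, 28⟩, ⟨0, 1, 0, 12, 11⟩, ⟨1, 2, 5, 0, 74⟩, ⟨1, 2, 5, 1, 63⟩, ⟨2, 1, 5, 0, 73⟩, ⟨2, 1, 5, 1, 60⟩]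
  st := [(0, 0), (1, 0), (16, 1), (17, 1), (18, 1), (2, 1), (4, 1), (9, 1), (19, 2), (20, 2), (21, 2), (5, 2),
    (7, 2), (12, 2)]
  sk _ := sTA5_55
  sf := sTA5_55.map SK.fct
  vd d := fun i j => match i, j with
    | 0, 1 => .sym false (d.f.getD 0 (.cst 0 0)) 1 8 10 11
    | 0, 2 => .sym true (d.f.getD 1 (.cst 0 0)) 1 13 14 15
    | 1, 0 => .sym true (d.f.getD 0 (.cst 0 0)) 1 9 10 11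
    | 1, 2 => .small 5 4
    | 2, 0 => .sym false (d.f.getD 1 (.cst 0 0)) 1 12 14 15
    | 2, 1 => .small 5 7
    | _, _ => .small 0 0
  vx := fun i j => match i, j with
    | 0, 1 => .big 5 8 10 11
    | 0, 2 => .big 5 13 15 14
    | 1, 0 => .big 5 9 11 10
    | 1, 2 => .small 5 4
    | 2, 0 => .big 5 12 14 15
    | 2, 1 => .small 5 7
    | _, _ => .small 0 0
  lb := fun i j => match i, j with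
    | 1, 2 => 5
    | 2, 1 => 5
    | _, _ => 0

theorem TA5_55_ok {K : ℕ → ℕ → ℕ → Prop} (h1 : ∀ p q r, K p q r → p = 5) : TA5_55.OK K where
  ok := Sys.ok_of (by decide +kernel)
  stt := by decide +kernel
  vx d i j := by fin_cases i <;> fin_cases j <;> rfl
  vd d i j hij := by
    fin_cases i <;> fin_cases j <;> first | exact absurd rfl hij | exact trivial | exact ⟨rfl, rfl, rfl⟩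
  sf d := rfl
  sk d := (SKA.cons ⟨by decide, by decide, by decide, rfl, rfl⟩
    (SKA.cons ⟨by decide, by decide, by decide, rfl, by decide, by decide, rfl, rfl⟩
    (SKA.cons ⟨by decide, by decide, by decide, rfl, rfl⟩
    (SKA.cons ⟨by decide, by decide, by decide, rfl, rfl⟩
    (SKA.cons ⟨by decide, by decide, by decide, rfl, by decide, by decide, rfl, rfl⟩
    (SKA.cons ⟨by decide, by decide, by decide, rfl, rfl⟩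
    (SKA.cons ⟨by decide, by decide, by decide, rfl, by decide, by decide, rfl, rfl⟩
    (SKA.cons ⟨by decide, by decide, by decide, rfl, rfl⟩
    (SKA.cons ⟨by decide, by decide, by decide, rfl, rfl⟩
    (SKA.cons ⟨by decide, by decide, by decide, rfl, by decide, by decide, rfl, rfl⟩
    SKA.nil))))))))))
  cl d p q r hp hq hr hK' i j hij := by
    have e1 := h1 p q r hK'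
    fin_cases i <;> fin_cases j <;> first
      | exact absurd rfl hij
      | exact ⟨Nat.zero_le _, fun m E h => VD.noConfusion h⟩
      | exact ⟨e1.ge, fun m E h => VD.noConfusion h fun e _ => e1.trans e⟩

end Pool.Agent.Work.MP_88b7aa_gt.Kc
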