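import Pool.Agent.Work.MP_88b7aa_gt.Kc.TplU
import Pool.Agent.Work.MP_88b7aa_gt.PQ.SysQ

/-! Template: System A, `p = 5`. -/

set_option autoImplicit false

namespace Pool.Agent.Work.MP_88b7aa_gt.Kc

open Pool.Agent.Work.MP_88b7aa_gt.PQ

def sTA5_77 : List SK := [.imgT 0 1 2 2 0 16, .star 0 2 1 2 16 0, .imgT 0 1 2 3 0 17, .imgT 0 1 2 4 0 18, .star 0 2 1 4 18 0, .imgT 0 2 1 2 0 19, .star 0 1 2 2 19 0, .imgT 0 2 1 3 0 20, .imgT 0 2 1 4 0 21, .star 0 1 2 4 21 0]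

def TA5_77 : Tm where
  fes d := [FEQ 0,
    d.c.getD 0 .gram,
    d.c.getD 1 .gram,
    d.c.getD 2 .gram,
    d.c.getD 3 .gram,
    d.c.getD 4 .gram,
    d.c.getD 5 .gram,
    d.c.getD 6 .gram,
    FEV 0 1 (d.f.getD 0 (.cst 0 0)) (ngS (DpS (.par (cpar 0 1)) 2)) (ngS (DpS (.par (cpar 0 1)) 3)),
    FEV 0 1 (d.f.getD 0 (.cst 0 0)) (ngS (DpS (.par (cpar 0 1)) 3)) (ngS (DpS (.par (cpar 0 1)) 2)),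
    FEV 0 1 (d.f.getD 0 (.cst 0 0)) (DpS (.par (cpar 0 1)) 4) (DpS (.par (cpar 0 1)) 3),
    FEV 0 1 (d.f.getD 0 (.cst 0 0)) (DpS (.par (cpar 0 1)) 3) (DpS (.par (cpar 0 1)) 4),
    FEV 2 0 (d.f.getD 1 (.cst 0 0)) (ngS (DpS (.par (cpar 2 0)) 2)) (ngS (DpS (.par (cpar 2 0)) 3)),
    FEV 2 0 (d.f.getD 1 (.cst 0 0)) (ngS (DpS (.par (cpar 2 0)) 3)) (ngS (DpS (.par (cpar 2 0)) 2)),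
    FEV 2 0 (d.f.getD 1 (.cst 0 0)) (DpS (.par (cpar 2 0)) 4) (DpS (.par (cpar 2 0)) 3),
    FEV 2 0 (d.f.getD 1 (.cst 0 0)) (DpS (.par (cpar 2 0)) 3) (DpS (.par (cpar 2 0)) 4),
    FUT 0 1 2 2,
    FUT 0 1 2 3,
    FUT 0 1 2 4,
    FUT 0 2 1 2,
    FUT 0 2 1 3,
    FUT 0 2 1 4]
  is := [.form 0, .comp 0 0, .word 0 1 2 1, .word 0 2 2 2, .word 1 2 5 3, .word 2 1 5 4, .form 1, .word 0 1 2 0, .word 0 1 3 1, .word 0 1 4 2, .word 0 1 5 3, .word 0 1 6 4,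
    .word 0 2 2 5, .word 0 2 3 6, .word 0 2 4 7, .word 0 2 5 8, .word 0 2 6 9, .comp 1 10, .word 1 2 2 11, .word 1 2 5 12, .comp 2 13, .word 2 1 2 14, .word 2 1 5 15, .form 2,
    .comp 0 0, .comp 1 1, .word 1 0 2 2, .comp 2 3, .form 3, .comp 0 0, .word 0 2 2 1, .word 0 2 3 2, .comp 2 3, .word 2 0 2 4, .word 2 0 3 5, .form 4,
    .comp 0 0, .comp 1 1, .word 1 0 2 2, .word 1 0 3 3, .word 1 0 4 4, .word 1 0 5 5, .word 1 0 6 6, .word 1 2 2 7, .word 1 2 3 8, .word 1 2 4 9, .word 1 2 5 10, .comp 2 11,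
    .form 5, .comp 0 0, .comp 1 1, .comp 2 2, .word 2 0 2 3, .form 6, .comp 0 0, .word 0 1 2 1, .word 0 1 3 2, .comp 1 3, .word 1 0 2 4, .word 1 0 3 5,
    .form 7, .comp 0 0, .comp 1 1, .comp 2 2, .word 2 0 2 3, .word 2 0 3 4, .word 2 0 4 5, .word 2 0 5 6, .word 2 0 6 7, .word 2 1 2 8, .word 2 1 3 9, .word 2 1 4 10,
    .word 2 1 5 11, .form 8, .form 9, .comp 0 0, .comp 2 1, .form 10, .form 11, .form 12, .comp 0 0, .comp 1 1, .form 13, .form 14,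
    .form 15, .form 16, .form 17, .form 18, .form 19, .form 20, .form 21]
  pks := [89, 88, 87, 84, 83, 82, 78, 77, 73, 72, 70, 69,
    67, 66, 65, 64, 63, 62, 61, 60, 59, 58, 57, 56,
    55, 54, 53, 52, 51, 47, 43, 42, 41, 40, 39, 38,
    37, 36, 35, 34, 33, 32, 31, 30, 29, 28, 27, 26,
    25, 21, 17, 16, 15, 14, 13, 12, 11, 10, 9, 8,
    7, 6, 5, 4, 3, 2, 1, 0]
  cn := [⟨0, 1, 0, 0, 8, 1, 50, 3⟩, ⟨0, 1, 0, 0, 13, 1, 59, 3⟩, ⟨1, 2, 2, 1, 1, 4, 10, 26⟩, ⟨1, 2, 3, 1, 1, 4, 9, 26⟩, ⟨1, 2, 4, 2, 1, 4, 11, 29⟩, ⟨0, 1, 0, 0, 16, 3, 62, 17⟩, ⟨2, 0, 2, 2, 16, 5, 62, 35⟩, ⟨0, 1, 0, 0, 17, 3, 63, 17⟩, ⟨0, 2, 2, 2, 17, 0, 63, 2⟩, ⟨2, 0, 2, 2, 17, 5, 63, 35⟩, ⟨0, 1, 0, 0, 18, 3, 64, 17⟩, ⟨2, 0, 2, 2, 18, 5, 64, 35⟩,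
    ⟨0, 1, 0, 0, 2, 3, 12, 17⟩, ⟨0, 2, 2, 1, 2, 0, 16, 0⟩, ⟨2, 0, 2, 1, 2, 5, 13, 34⟩, ⟨0, 1, 0, 0, 4, 3, 24, 17⟩, ⟨0, 2, 2, 1, 4, 0, 30, 0⟩, ⟨2, 0, 2, 1, 4, 5, 25, 34⟩, ⟨0, 1, 0, 0, 9, 3, 51, 17⟩, ⟨0, 2, 2, 1, 9, 0, 53, 0⟩, ⟨2, 0, 2, 1, 9, 5, 52, 34⟩, ⟨0, 2, 3, 2, 3, 1, 18, 6⟩, ⟨2, 0, 3, 2, 3, 7, 21, 47⟩, ⟨0, 2, 4, 2, 3, 1, 22, 6⟩,
    ⟨2, 0, 4, 2, 3, 7, 19, 47⟩, ⟨0, 2, 5, 3, 3, 1, 19, 7⟩, ⟨2, 0, 5, 3, 3, 7, 22, 48⟩, ⟨0, 2, 6, 3, 3, 1, 23, 7⟩, ⟨2, 0, 6, 3, 3, 7, 20, 48⟩, ⟨2, 1, 2, 1, 1, 7, 8, 46⟩, ⟨2, 1, 3, 1, 1, 7, 11, 46⟩, ⟨2, 1, 4, 2, 1, 7, 9, 49⟩, ⟨0, 1, 0, 0, 19, 6, 65, 36⟩, ⟨1, 0, 2, 2, 19, 2, 65, 15⟩, ⟨0, 1, 0, 0, 20, 6, 66, 36⟩, ⟨0, 1, 2, 2, 20, 0, 66, 1⟩,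
    ⟨1, 0, 2, 2, 20, 2, 66, 15⟩, ⟨0, 1, 0, 0, 21, 6, 67, 36⟩, ⟨1, 0, 2, 2, 21, 2, 67, 15⟩, ⟨0, 1, 0, 0, 5, 6, 31, 36⟩, ⟨0, 1, 2, 1, 5, 0, 33, 0⟩, ⟨1, 0, 2, 1, 5, 2, 32, 14⟩, ⟨0, 1, 0, 0, 7, 6, 43, 36⟩, ⟨0, 1, 2, 1, 7, 0, 45, 0⟩, ⟨1, 0, 2, 1, 7, 2, 44, 14⟩, ⟨0, 1, 0, 0, 12, 6, 56, 36⟩, ⟨0, 1, 2, 1, 12, 0, 58, 0⟩, ⟨1, 0, 2, 1, 12, 2, 57, 14⟩,
    ⟨0, 1, 3, 2, 6, 1, 37, 4⟩, ⟨1, 0, 3, 2, 6, 4, 40, 27⟩, ⟨0, 1, 4, 2, 6, 1, 41, 4⟩, ⟨1, 0, 4, 2, 6, 4, 38, 27⟩, ⟨0, 1, 5, 3, 6, 1, 38, 5⟩, ⟨1, 0, 5, 3, 6, 4, 41, 28⟩, ⟨0, 1, 6, 3, 6, 1, 42, 5⟩, ⟨1, 0, 6, 3, 6, 4, 39, 28⟩, ⟨0, 1, 0, 0, 6, 10, 36, 54⟩, ⟨0, 1, 0, 0, 6, 11, 36, 55⟩, ⟨0, 1, 0, 0, 3, 14, 17, 60⟩, ⟨0, 1, 0, 0, 3, 15, 17, 61⟩]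
  pp := [⟨0, 1, 1, 0, 89⟩, ⟨1, 2, 1, 2, 65⟩, ⟨2, 0, 1, 5, 39⟩, ⟨0, 1, 2, 0, 88⟩, ⟨1, 0, 2, 2, 64⟩, ⟨0, 1, 3, 1, 82⟩, ⟨1, 0, 3, 4, 51⟩, ⟨0, 1, 4, 1, 81⟩, ⟨1, 0, 4, 4, 50⟩, ⟨0, 1, 5, 1, 80⟩, ⟨1, 0, 5, 4, 49⟩, ⟨0, 1, 6, 1, 79⟩,
    ⟨1, 0, 6, 4, 48⟩, ⟨0, 1, 0, 10, 13⟩, ⟨0, 1, 0, 11, 12⟩, ⟨0, 2, 2, 0, 87⟩, ⟨2, 0, 2, 5, 38⟩, ⟨0, 2, 3, 1, 77⟩, ⟨2, 0, 3, 7, 25⟩, ⟨0, 2, 4, 1, 76⟩, ⟨2, 0, 4, 7, 24⟩, ⟨0, 2, 5, 1, 75⟩, ⟨2, 0, 5, 7, 23⟩, ⟨0, 2, 6, 1, 74⟩,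
    ⟨2, 0, 6, 7, 22⟩, ⟨0, 2, 0, 14, 7⟩, ⟨0, 2, 0, 15, 6⟩, ⟨1, 2, 2, 4, 47⟩, ⟨1, 2, 3, 4, 46⟩, ⟨1, 2, 4, 4, 45⟩, ⟨1, 2, 5, 4, 44⟩, ⟨2, 1, 2, 7, 21⟩, ⟨2, 1, 3, 7, 20⟩, ⟨2, 1, 4, 7, 19⟩, ⟨2, 1, 5, 7, 18⟩]
  pn := [⟨0, 1, 0, 0, 90⟩, ⟨0, 1, 0, 1, 84⟩, ⟨0, 1, 0, 16, 5⟩, ⟨0, 1, 0, 17, 4⟩, ⟨0, 1, 0, 18, 3⟩, ⟨0, 1, 0, 2, 67⟩, ⟨0, 1, 0, 4, 55⟩, ⟨0, 1, 0, 9, 16⟩, ⟨0, 1, 0, 19, 2⟩, ⟨0, 1, 0, 20, 1⟩, ⟨0, 1, 0, 21, 0⟩, ⟨0, 1, 0, 5, 42⟩,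
    ⟨0, 1, 0, 7, 30⟩, ⟨0, 1, 0, 12, 11⟩, ⟨1, 2, 5, 0, 86⟩, ⟨1, 2, 5, 1, 71⟩, ⟨2, 1, 5, 0, 85⟩, ⟨2, 1, 5, 1, 68⟩]
  st := [(0, 0), (1, 0), (16, 1), (17, 1), (18, 1), (2, 1), (4, 1), (9, 1), (19, 2), (20, 2), (21, 2), (5, 2),
    (7, 2), (12, 2)]
  sk _ := sTA5_77
  sf := sTA5_77.map SK.fct
  vd d := fun i j => match i, j with
    | 0, 1 => .sym false (d.f.getD 0 (.cst 0 0)) 2 8 10 11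
    | 0, 2 => .sym true (d.f.getD 1 (.cst 0 0)) 2 13 14 15
    | 1, 0 => .sym true (d.f.getD 0 (.cst 0 0)) 2 9 10 11
    | 1, 2 => .small 5 4
    | 2, 0 => .sym false (d.f.getD 1 (.cst 0 0)) 2 12 14 15
    | 2, 1 => .small 5 7
    | _, _ => .small 0 0
  vx := fun i j => match i, j with
    | 0, 1 => .big 7 8 10 11
    | 0, 2 => .big 7 13 15 14
    | 1, 0 => .big 7 9 11 10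
    | 1, 2 => .small 5 4
    | 2, 0 => .big 7 12 14 15
    | 2, 1 => .small 5 7
    | _, _ => .small 0 0
  lb := fun i j => match i, j with
    | 1, 2 => 5
    | 2, 1 => 5
    | _, _ => 0

theorem TA5_77_ok {K : ℕ → ℕ → ℕ → Prop} (h1 : ∀ p q r, K p q r → p = 5) : TA5_77.OK K where
  ok := Sys.ok_of (by decide +kernel)
  stt := by decide +kernel
  vx d i j := by fin_cases i <;> fin_cases j <;> rfl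
  vd d i j hij := by
    fin_cases i <;> fin_cases j <;> first | exact absurd rfl hij | exact trivial | exact ⟨rfl, rfl, rfl⟩
  sf d := rfl
  sk d := (SKA.cons ⟨by decide, by decide, by decide, rfl, rfl⟩
    (SKA.cons ⟨by decide, by decide, by decide, rfl, by decide, by decide, rfl, rfl⟩
    (SKA.cons ⟨by decide, by decide, by decide, rfl, rfl⟩
    (SKA.cons ⟨by decide, by decide, by decide, rfl, rfl⟩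
    (SKA.cons ⟨by decide, by decide, by decide, rfl, by decide, by decide, rfl, rfl⟩
    (SKA.cons ⟨by decide, by decide, by decide, rfl, rfl⟩
    (SKA.cons ⟨by decide, by decide, by decide, rfl, by decide, by decide, rfl, rfl⟩
    (SKA.cons ⟨by decide, by decide, by decide, rfl, rfl⟩
    (SKA.cons ⟨by decide, by decide, by decide, rfl, rfl⟩
    (SKA.cons ⟨by decide, by decide, by decide, rfl, by decide, by decide, rfl, rfl⟩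
    SKA.nil))))))))))
  cl d p q r hp hq hr hK' i j hij := by
    have e1 := h1 p q r hK'
    fin_cases i <;> fin_cases j <;> first
      | exact absurd rfl hij
      | exact ⟨Nat.zero_le _, fun m E h => VD.noConfusion h⟩
      | exact ⟨e1.ge, fun m E h => VD.noConfusion h fun e _ => e1.trans e⟩

end Pool.Agent.Work.MP_88b7aa_gt.Kc
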