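import Pool.Agent.Work.MP_88b7aa_gt.Kc.TplU
import Pool.Agent.Work.MP_88b7aa_gt.PQ.SysQ

/-! Template: System A, `p = 6`. -/

set_option autoImplicit false

namespace Pool.Agent.Work.MP_88b7aa_gt.Kc

open Pool.Agent.Work.MP_88b7aa_gt.PQ

def sTA6_55EI : List SK := [.imgT 0 1 2 2 0 16, .star 0 2 1 2 16 0, .imgT 0 1 2 3 0 17, .imgT 0 1 2 4 0 18, .star 0 2 1 4 18 0, .imgT 0 1 2 5 0 19, .img 1 2 2 1 20, .img 1 2 3 1 21, .img 1 2 4 1 22, .img 1 2 5 1 23, .cc 0 2 1 2 0, .cc 2 0 1 2 5,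
    .imgT 0 2 1 2 0 24, .star 0 1 2 2 24 0, .imgT 0 2 1 3 0 25, .imgT 0 2 1 4 0 26, .star 0 1 2 4 26 0, .imgT 0 2 1 5 0 27, .img 2 1 2 1 28, .img 2 1 3 1 29, .img 2 1 4 1 30, .img 2 1 5 1 31, .cc 0 1 2 5 0, .cc 1 0 2 5 2]

def TA6_55EI : Tm where
  fes d := [FEQ 0,
    d.c.getD 0 .gram,
    FEQ 1,
    d.c.getD 1 .gram,
    d.c.getD 2 .gram,
    FEQ 2,
    d.c.getD 3 .gram,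
    d.c.getD 4 .gram,
    FEV 0 1 (d.f.getD 0 (.cst 0 0)) (ngS (DpS (.par (cpar 0 1)) 1)) (ngS (DpS (.par (cpar 0 1)) 2)),
    FEV 0 1 (d.f.getD 0 (.cst 0 0)) (ngS (DpS (.par (cpar 0 1)) 2)) (ngS (DpS (.par (cpar 0 1)) 1)),
    FEV 0 1 (d.f.getD 0 (.cst 0 0)) (DpS (.par (cpar 0 1)) 3) (DpS (.par (cpar 0 1)) 2),
    FEV 0 1 (d.f.getD 0 (.cst 0 0)) (DpS (.par (cpar 0 1)) 2) (DpS (.par (cpar 0 1)) 3),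
    FEV 2 0 (d.f.getD 1 (.cst 0 0)) (ngS (DpS (.par (cpar 2 0)) 1)) (ngS (DpS (.par (cpar 2 0)) 2)),
    FEV 2 0 (d.f.getD 1 (.cst 0 0)) (ngS (DpS (.par (cpar 2 0)) 2)) (ngS (DpS (.par (cpar 2 0)) 1)),
    FEV 2 0 (d.f.getD 1 (.cst 0 0)) (DpS (.par (cpar 2 0)) 3) (DpS (.par (cpar 2 0)) 2),
    FEV 2 0 (d.f.getD 1 (.cst 0 0)) (DpS (.par (cpar 2 0)) 2) (DpS (.par (cpar 2 0)) 3),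
    FUT 0 1 2 2,
    FUT 0 1 2 3,
    FUT 0 1 2 4,
    FUT 0 1 2 5,
    .word (rv1 1 2 2) (rv2 1 2 2) 2 (d.c.getD 0 .gram),
    .word (rv1 1 2 3) (rv2 1 2 3) 3 (d.c.getD 0 .gram),
    .word (rv1 1 2 4) (rv2 1 2 4) 4 (d.c.getD 0 .gram),
    .word (rv1 1 2 5) (rv2 1 2 5) 5 (d.c.getD 0 .gram),
    FUT 0 2 1 2,
    FUT 0 2 1 3,
    FUT 0 2 1 4,
    FUT 0 2 1 5,
    .word (rv1 2 1 2) (rv2 2 1 2) 2 (d.c.getD 0 .gram),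
    .word (rv1 2 1 3) (rv2 2 1 3) 3 (d.c.getD 0 .gram),
    .word (rv1 2 1 4) (rv2 2 1 4) 4 (d.c.getD 0 .gram),
    .word (rv1 2 1 5) (rv2 2 1 5) 5 (d.c.getD 0 .gram)]
  is := [.form 0, .comp 0 0, .word 0 1 2 1, .word 0 2 2 2, .word 1 2 6 3, .word 2 1 6 4, .form 1, .word 0 1 2 0, .word 0 1 3 1, .word 0 1 4 2, .word 0 2 2 3, .word 0 2 3 4,
    .word 0 2 4 5, .word 1 2 6 6, .word 2 1 6 7, .form 2, .comp 1 0, .word 1 0 2 1, .form 3, .comp 0 0, .word 0 2 2 1, .comp 2 2, .word 2 0 2 3, .form 4,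
    .comp 0 0, .word 1 0 2 1, .word 1 0 3 2, .word 1 0 4 3, .word 1 2 2 4, .word 1 2 3 5, .word 1 2 4 6, .word 1 2 5 7, .word 1 2 6 8, .comp 2 9, .form 5, .comp 2 0,
    .word 2 0 2 1, .form 6, .comp 0 0, .word 0 1 2 1, .comp 1 2, .word 1 0 2 3, .form 7, .comp 0 0, .comp 1 1, .word 2 0 2 2, .word 2 0 3 3, .word 2 0 4 4,
    .word 2 1 2 5, .word 2 1 3 6, .word 2 1 4 7, .word 2 1 5 8, .word 2 1 6 9, .form 8, .form 9, .comp 0 0, .comp 2 1, .form 10, .form 11, .form 12,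
    .comp 0 0, .comp 1 1, .form 13, .form 14, .form 15, .form 16, .form 17, .form 18, .form 19, .form 20, .form 21, .form 22,
    .form 23, .form 24, .form 25, .form 26, .form 27, .form 28, .form 29, .form 30, .form 31]
  pks := [79, 78, 77, 74, 73, 70, 65, 64, 63, 62, 61, 60,
    59, 58, 57, 56, 55, 47, 46, 45, 44, 43, 42, 41,
    40, 39, 38, 37, 36, 35, 27, 26, 25, 24, 23, 22,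
    21, 20, 19, 18, 17, 16, 15, 14, 13, 12, 11, 10,
    9, 8, 7, 6, 5, 4, 3, 2, 1, 0]
  cn := [⟨0, 1, 0, 0, 8, 1, 30, 3⟩, ⟨0, 1, 0, 0, 13, 1, 39, 3⟩, ⟨0, 1, 0, 0, 16, 3, 42, 9⟩, ⟨2, 0, 2, 2, 16, 5, 42, 20⟩, ⟨0, 1, 0, 0, 17, 3, 43, 9⟩, ⟨0, 2, 2, 2, 17, 0, 43, 2⟩, ⟨2, 0, 2, 2, 17, 5, 43, 20⟩, ⟨0, 1, 0, 0, 18, 3, 44, 9⟩, ⟨2, 0, 2, 2, 18, 5, 44, 20⟩, ⟨0, 1, 0, 0, 19, 3, 45, 9⟩, ⟨0, 2, 2, 2, 19, 0, 45, 2⟩, ⟨2, 0, 2, 2, 19, 5, 45, 20⟩,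
    ⟨0, 1, 0, 0, 2, 3, 6, 9⟩, ⟨0, 1, 0, 0, 4, 3, 14, 9⟩, ⟨0, 2, 2, 1, 4, 0, 17, 0⟩, ⟨2, 0, 2, 1, 4, 5, 15, 19⟩, ⟨0, 1, 0, 0, 9, 3, 31, 9⟩, ⟨0, 2, 2, 1, 9, 0, 33, 0⟩, ⟨2, 0, 2, 1, 9, 5, 32, 19⟩, ⟨0, 1, 0, 0, 20, 3, 46, 9⟩, ⟨0, 2, 2, 2, 20, 0, 46, 2⟩, ⟨2, 0, 2, 2, 20, 5, 46, 20⟩, ⟨0, 1, 0, 0, 21, 3, 47, 9⟩, ⟨0, 2, 2, 2, 21, 0, 47, 2⟩,
    ⟨2, 0, 2, 2, 21, 5, 47, 20⟩, ⟨0, 1, 0, 0, 22, 3, 48, 9⟩, ⟨0, 2, 2, 2, 22, 0, 48, 2⟩, ⟨2, 0, 2, 2, 22, 5, 48, 20⟩, ⟨0, 1, 0, 0, 23, 3, 49, 9⟩, ⟨0, 2, 2, 2, 23, 0, 49, 2⟩, ⟨2, 0, 2, 2, 23, 5, 49, 20⟩, ⟨0, 2, 3, 2, 3, 1, 10, 5⟩, ⟨2, 0, 3, 2, 3, 7, 12, 29⟩, ⟨0, 2, 4, 2, 3, 1, 13, 5⟩, ⟨2, 0, 4, 2, 3, 7, 11, 29⟩, ⟨0, 1, 0, 0, 24, 6, 50, 21⟩,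
    ⟨1, 0, 2, 2, 24, 2, 50, 8⟩, ⟨0, 1, 0, 0, 25, 6, 51, 21⟩, ⟨0, 1, 2, 2, 25, 0, 51, 1⟩, ⟨1, 0, 2, 2, 25, 2, 51, 8⟩, ⟨0, 1, 0, 0, 26, 6, 52, 21⟩, ⟨1, 0, 2, 2, 26, 2, 52, 8⟩, ⟨0, 1, 0, 0, 27, 6, 53, 21⟩, ⟨0, 1, 2, 2, 27, 0, 53, 1⟩, ⟨1, 0, 2, 2, 27, 2, 53, 8⟩, ⟨0, 1, 0, 0, 5, 6, 18, 21⟩, ⟨0, 1, 0, 0, 7, 6, 26, 21⟩, ⟨0, 1, 2, 1, 7, 0, 28, 0⟩,
    ⟨1, 0, 2, 1, 7, 2, 27, 7⟩, ⟨0, 1, 0, 0, 12, 6, 36, 21⟩, ⟨0, 1, 2, 1, 12, 0, 38, 0⟩, ⟨1, 0, 2, 1, 12, 2, 37, 7⟩, ⟨0, 1, 0, 0, 28, 6, 54, 21⟩, ⟨0, 1, 2, 2, 28, 0, 54, 1⟩, ⟨1, 0, 2, 2, 28, 2, 54, 8⟩, ⟨0, 1, 0, 0, 29, 6, 55, 21⟩, ⟨0, 1, 2, 2, 29, 0, 55, 1⟩, ⟨1, 0, 2, 2, 29, 2, 55, 8⟩, ⟨0, 1, 0, 0, 30, 6, 56, 21⟩, ⟨0, 1, 2, 2, 30, 0, 56, 1⟩,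
    ⟨1, 0, 2, 2, 30, 2, 56, 8⟩, ⟨0, 1, 0, 0, 31, 6, 57, 21⟩, ⟨0, 1, 2, 2, 31, 0, 57, 1⟩, ⟨1, 0, 2, 2, 31, 2, 57, 8⟩, ⟨0, 1, 3, 2, 6, 1, 22, 4⟩, ⟨1, 0, 3, 2, 6, 4, 24, 16⟩, ⟨0, 1, 4, 2, 6, 1, 25, 4⟩, ⟨1, 0, 4, 2, 6, 4, 23, 16⟩, ⟨0, 1, 0, 0, 6, 10, 21, 34⟩, ⟨0, 1, 0, 0, 6, 11, 21, 35⟩, ⟨0, 1, 0, 0, 3, 14, 9, 40⟩, ⟨0, 1, 0, 0, 3, 15, 9, 41⟩]
  pp := [⟨0, 1, 1, 0, 79⟩, ⟨1, 2, 1, 2, 64⟩, ⟨2, 0, 1, 5, 45⟩, ⟨0, 1, 2, 0, 78⟩, ⟨1, 0, 2, 2, 63⟩, ⟨0, 1, 3, 1, 72⟩, ⟨1, 0, 3, 4, 54⟩, ⟨0, 1, 4, 1, 71⟩, ⟨1, 0, 4, 4, 53⟩, ⟨0, 1, 0, 10, 23⟩, ⟨0, 1, 0, 11, 22⟩, ⟨0, 2, 2, 0, 77⟩,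
    ⟨2, 0, 2, 5, 44⟩, ⟨0, 2, 3, 1, 69⟩, ⟨2, 0, 3, 7, 34⟩, ⟨0, 2, 4, 1, 68⟩, ⟨2, 0, 4, 7, 33⟩, ⟨0, 2, 0, 14, 17⟩, ⟨0, 2, 0, 15, 16⟩, ⟨1, 2, 2, 4, 52⟩, ⟨1, 2, 3, 4, 51⟩, ⟨1, 2, 4, 4, 50⟩, ⟨1, 2, 5, 4, 49⟩, ⟨1, 2, 6, 4, 48⟩,
    ⟨2, 1, 2, 7, 32⟩, ⟨2, 1, 3, 7, 31⟩, ⟨2, 1, 4, 7, 30⟩, ⟨2, 1, 5, 7, 29⟩, ⟨2, 1, 6, 7, 28⟩]
  pn := [⟨0, 1, 0, 0, 80⟩, ⟨0, 1, 0, 1, 74⟩, ⟨0, 1, 0, 16, 15⟩, ⟨0, 1, 0, 17, 14⟩, ⟨0, 1, 0, 18, 13⟩, ⟨0, 1, 0, 19, 12⟩, ⟨0, 1, 0, 2, 65⟩, ⟨0, 1, 0, 4, 57⟩, ⟨0, 1, 0, 9, 26⟩, ⟨0, 1, 0, 20, 11⟩, ⟨0, 1, 0, 21, 10⟩, ⟨0, 1, 0, 22, 9⟩,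
    ⟨0, 1, 0, 23, 8⟩, ⟨0, 1, 0, 24, 7⟩, ⟨0, 1, 0, 25, 6⟩, ⟨0, 1, 0, 26, 5⟩, ⟨0, 1, 0, 27, 4⟩, ⟨0, 1, 0, 5, 46⟩, ⟨0, 1, 0, 7, 38⟩, ⟨0, 1, 0, 12, 21⟩, ⟨0, 1, 0, 28, 3⟩, ⟨0, 1, 0, 29, 2⟩, ⟨0, 1, 0, 30, 1⟩, ⟨0, 1, 0, 31, 0⟩,
    ⟨1, 2, 6, 0, 76⟩, ⟨1, 2, 6, 1, 67⟩, ⟨2, 1, 6, 0, 75⟩, ⟨2, 1, 6, 1, 66⟩]
  st := [(0, 0), (1, 0), (16, 1), (17, 1), (18, 1), (19, 1), (2, 1), (4, 1), (9, 1), (20, 1), (21, 1), (22, 1),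
    (23, 1), (24, 2), (25, 2), (26, 2), (27, 2), (5, 2), (7, 2), (12, 2), (28, 2), (29, 2), (30, 2), (31, 2)]
  sk _ := sTA6_55EI
  sf := sTA6_55EI.map SK.fct
  vd d := fun i j => match i, j with
    | 0, 1 => .sym false (d.f.getD 0 (.cst 0 0)) 1 8 10 11
    | 0, 2 => .sym true (d.f.getD 1 (.cst 0 0)) 1 13 14 15
    | 1, 0 => .sym true (d.f.getD 0 (.cst 0 0)) 1 9 10 11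
    | 1, 2 => .small 6 4
    | 2, 0 => .sym false (d.f.getD 1 (.cst 0 0)) 1 12 14 15
    | 2, 1 => .small 6 7
    | _, _ => .small 0 0
  vx := fun i j => match i, j with
    | 0, 1 => .big 5 8 10 11
    | 0, 2 => .big 5 13 15 14
    | 1, 0 => .big 5 9 11 10
    | 1, 2 => .small 6 4
    | 2, 0 => .big 5 12 14 15
    | 2, 1 => .small 6 7
    | _, _ => .small 0 0
  lb := fun i j => match i, j with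
    | 1, 2 => 6
    | 2, 1 => 6
    | _, _ => 0

theorem TA6_55EI_ok {K : ℕ → ℕ → ℕ → Prop} (h1 : ∀ p q r, K p q r → p = 6) : TA6_55EI.OK K where
  ok := Sys.ok_of (by decide +kernel)
  stt := by decide +kernel
  vx d i j := by fin_cases i <;> fin_cases j <;> rfl
  vd d i j hij := by
    fin_cases i <;> fin_cases j <;> first | exact absurd rfl hij | exact trivial | exact ⟨rfl, rfl, rfl⟩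
  sf d := rfl
  sk d := (SKA.cons ⟨by decide, by decide, by decide, rfl, rfl⟩
    (SKA.cons ⟨by decide, by decide, by decide, rfl, by decide, by decide, rfl, rfl⟩
    (SKA.cons ⟨by decide, by decide, by decide, rfl, rfl⟩
    (SKA.cons ⟨by decide, by decide, by decide, rfl, rfl⟩
    (SKA.cons ⟨by decide, by decide, by decide, rfl, by decide, by decide, rfl, rfl⟩
    (SKA.cons ⟨by decide, by decide, by decide, rfl, rfl⟩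
    (SKA.cons (Or.inl rfl)
    (SKA.cons (Or.inl rfl)
    (SKA.cons (Or.inl rfl)
    (SKA.cons (Or.inl rfl)
    (SKA.cons ⟨by decide, by decide, by decide, rfl, rfl⟩
    (SKA.cons ⟨by decide, by decide, by decide, rfl, rfl⟩
    (SKA.cons ⟨by decide, by decide, by decide, rfl, rfl⟩
    (SKA.cons ⟨by decide, by decide, by decide, rfl, by decide, by decide, rfl, rfl⟩
    (SKA.cons ⟨by decide, by decide, by decide, rfl, rfl⟩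
    (SKA.cons ⟨by decide, by decide, by decide, rfl, rfl⟩
    (SKA.cons ⟨by decide, by decide, by decide, rfl, by decide, by decide, rfl, rfl⟩
    (SKA.cons ⟨by decide, by decide, by decide, rfl, rfl⟩
    (SKA.cons (Or.inl rfl)
    (SKA.cons (Or.inl rfl)
    (SKA.cons (Or.inl rfl)
    (SKA.cons (Or.inl rfl)
    (SKA.cons ⟨by decide, by decide, by decide, rfl, rfl⟩
    (SKA.cons ⟨by decide, by decide, by decide, rfl, rfl⟩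
    SKA.nil))))))))))))))))))))))))
  cl d p q r hp hq hr hK' i j hij := by
    have e1 := h1 p q r hK'
    fin_cases i <;> fin_cases j <;> first
      | exact absurd rfl hij
      | exact ⟨Nat.zero_le _, fun m E h => VD.noConfusion h⟩
      | exact ⟨e1.ge, fun m E h => VD.noConfusion h fun e _ => e1.trans e⟩

end Pool.Agent.Work.MP_88b7aa_gt.Kc
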