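import Pool.Agent.Work.MP_88b7aa_gt.Kc.TplU
import Pool.Agent.Work.MP_88b7aa_gt.PQ.SysQ

/-! Template: System A, `p = 7`. -/

set_option autoImplicit false

namespace Pool.Agent.Work.MP_88b7aa_gt.Kc

open Pool.Agent.Work.MP_88b7aa_gt.PQ

def sTA7_55 : List SK := [.imgT 0 1 2 2 0 16, .star 0 2 1 2 16 0, .imgT 0 1 2 3 0 17, .imgT 0 1 2 4 0 18, .star 0 2 1 4 18 0, .imgT 0 1 2 5 0 19, .imgT 0 1 2 6 0 20, .star 0 2 1 6 20 0, .imgT 0 2 1 2 0 21, .star 0 1 2 2 21 0, .imgT 0 2 1 3 0 22, .imgT 0 2 1 4 0 23,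
    .star 0 1 2 4 23 0, .imgT 0 2 1 5 0 24, .imgT 0 2 1 6 0 25, .star 0 1 2 6 25 0]

def TA7_55 : Tm where
  fes d := [FEQ 0,
    d.c.getD 0 .gram,
    d.c.getD 1 .gram,
    d.c.getD 2 .gram,
    d.c.getD 3 .gram,
    d.c.getD 4 .gram,
    d.c.getD 5 .gram,
    d.c.getD 6 .gram,
    FEV 0 1 (d.f.getD 0 (.cst 0 0)) (ngS (DpS (.par (cpar 0 1)) 1)) (ngS (DpS (.par (cpar 0 1)) 2)),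
    FEV 0 1 (d.f.getD 0 (.cst 0 0)) (ngS (DpS (.par (cpar 0 1)) 2)) (ngS (DpS (.par (cpar 0 1)) 1)),
    FEV 0 1 (d.f.getD 0 (.cst 0 0)) (DpS (.par (cpar 0 1)) 3) (DpS (.par (cpar 0 1)) 2),
    FEV 0 1 (d.f.getD 0 (.cst 0 0)) (DpS (.par (cpar 0 1)) 2) (DpS (.par (cpar 0 1)) 3),
    FEV 2 0 (d.f.getD 1 (.cst 0 0)) (ngS (DpS (.par (cpar 2 0)) 1)) (ngS (DpS (.par (cpar 2 0)) 2)),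
    FEV 2 0 (d.f.getD 1 (.cst 0 0)) (ngS (DpS (.par (cpar 2 0)) 2)) (ngS (DpS (.par (cpar 2 0)) 1)),
    FEV 2 0 (d.f.getD 1 (.cst 0 0)) (DpS (.par (cpar 2 0)) 3) (DpS (.par (cpar 2 0)) 2),
    FEV 2 0 (d.f.getD 1 (.cst 0 0)) (DpS (.par (cpar 2 0)) 2) (DpS (.par (cpar 2 0)) 3),
    FUT 0 1 2 2,
    FUT 0 1 2 3,
    FUT 0 1 2 4,
    FUT 0 1 2 5,
    FUT 0 1 2 6,
    FUT 0 2 1 2,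
    FUT 0 2 1 3,
    FUT 0 2 1 4,
    FUT 0 2 1 5,
    FUT 0 2 1 6]
  is := [.form 0, .comp 0 0, .word 0 1 2 1, .word 0 2 2 2, .word 1 2 7 3, .word 2 1 7 4, .form 1, .word 0 1 2 0, .word 0 1 3 1, .word 0 1 4 2, .word 0 2 2 3, .word 0 2 3 4,
    .word 0 2 4 5, .comp 1 6, .word 1 2 2 7, .word 1 2 3 8, .word 1 2 7 9, .comp 2 10, .word 2 1 2 11, .word 2 1 3 12, .word 2 1 7 13, .form 2, .comp 0 0, .comp 1 1,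
    .word 1 0 2 2, .comp 2 3, .form 3, .comp 0 0, .word 0 2 2 1, .comp 2 2, .word 2 0 2 3, .form 4, .comp 0 0, .comp 1 1, .word 1 0 2 2, .word 1 0 3 3,
    .word 1 0 4 4, .word 1 2 2 5, .word 1 2 3 6, .word 1 2 4 7, .word 1 2 5 8, .word 1 2 6 9, .word 1 2 7 10, .comp 2 11, .form 5, .comp 0 0, .comp 1 1, .comp 2 2,
    .word 2 0 2 3, .form 6, .comp 0 0, .word 0 1 2 1, .comp 1 2, .word 1 0 2 3, .form 7, .comp 0 0, .comp 1 1, .comp 2 2, .word 2 0 2 3, .word 2 0 3 4,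
    .word 2 0 4 5, .word 2 1 2 6, .word 2 1 3 7, .word 2 1 4 8, .word 2 1 5 9, .word 2 1 6 10, .word 2 1 7 11, .form 8, .form 9, .comp 0 0, .comp 2 1, .form 10,
    .form 11, .form 12, .comp 0 0, .comp 1 1, .form 13, .form 14, .form 15, .form 16, .form 17, .form 18, .form 19, .form 20,
    .form 21, .form 22, .form 23, .form 24, .form 25]
  pks := [87, 86, 85, 82, 81, 78, 75, 74, 73, 71, 70, 69,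
    67, 66, 65, 64, 63, 62, 61, 60, 59, 58, 57, 56,
    55, 54, 51, 50, 45, 44, 43, 42, 41, 40, 39, 38,
    37, 36, 35, 34, 33, 32, 31, 30, 27, 26, 21, 20,
    19, 18, 17, 16, 15, 14, 13, 12, 11, 10, 9, 8,
    7, 6, 5, 4, 3, 2, 1, 0]
  cn := [⟨0, 1, 0, 0, 8, 1, 46, 3⟩, ⟨0, 1, 0, 0, 13, 1, 55, 3⟩, ⟨1, 2, 2, 1, 1, 4, 9, 24⟩, ⟨1, 2, 3, 1, 1, 4, 7, 24⟩, ⟨1, 2, 4, 2, 1, 4, 10, 26⟩, ⟨1, 2, 5, 2, 1, 4, 8, 26⟩, ⟨1, 2, 6, 3, 1, 4, 11, 27⟩, ⟨0, 1, 0, 0, 16, 3, 58, 17⟩, ⟨2, 0, 2, 2, 16, 5, 58, 33⟩, ⟨0, 1, 0, 0, 17, 3, 59, 17⟩, ⟨0, 2, 2, 2, 17, 0, 59, 2⟩, ⟨2, 0, 2, 2, 17, 5, 59, 33⟩,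
    ⟨0, 1, 0, 0, 18, 3, 60, 17⟩, ⟨2, 0, 2, 2, 18, 5, 60, 33⟩, ⟨0, 1, 0, 0, 19, 3, 61, 17⟩, ⟨0, 2, 2, 2, 19, 0, 61, 2⟩, ⟨2, 0, 2, 2, 19, 5, 61, 33⟩, ⟨0, 1, 0, 0, 20, 3, 62, 17⟩, ⟨2, 0, 2, 2, 20, 5, 62, 33⟩, ⟨0, 1, 0, 0, 2, 3, 12, 17⟩, ⟨0, 2, 2, 1, 2, 0, 16, 0⟩, ⟨2, 0, 2, 1, 2, 5, 13, 32⟩, ⟨0, 1, 0, 0, 4, 3, 22, 17⟩, ⟨0, 2, 2, 1, 4, 0, 28, 0⟩,
    ⟨2, 0, 2, 1, 4, 5, 23, 32⟩, ⟨0, 1, 0, 0, 9, 3, 47, 17⟩, ⟨0, 2, 2, 1, 9, 0, 49, 0⟩, ⟨2, 0, 2, 1, 9, 5, 48, 32⟩, ⟨0, 2, 3, 2, 3, 1, 18, 5⟩, ⟨2, 0, 3, 2, 3, 7, 20, 43⟩, ⟨0, 2, 4, 2, 3, 1, 21, 5⟩, ⟨2, 0, 4, 2, 3, 7, 19, 43⟩, ⟨2, 1, 2, 1, 1, 7, 6, 42⟩, ⟨2, 1, 3, 1, 1, 7, 10, 42⟩, ⟨2, 1, 4, 2, 1, 7, 7, 44⟩, ⟨2, 1, 5, 2, 1, 7, 11, 44⟩,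
    ⟨2, 1, 6, 3, 1, 7, 8, 45⟩, ⟨0, 1, 0, 0, 21, 6, 63, 34⟩, ⟨1, 0, 2, 2, 21, 2, 63, 15⟩, ⟨0, 1, 0, 0, 22, 6, 64, 34⟩, ⟨0, 1, 2, 2, 22, 0, 64, 1⟩, ⟨1, 0, 2, 2, 22, 2, 64, 15⟩, ⟨0, 1, 0, 0, 23, 6, 65, 34⟩, ⟨1, 0, 2, 2, 23, 2, 65, 15⟩, ⟨0, 1, 0, 0, 24, 6, 66, 34⟩, ⟨0, 1, 2, 2, 24, 0, 66, 1⟩, ⟨1, 0, 2, 2, 24, 2, 66, 15⟩, ⟨0, 1, 0, 0, 25, 6, 67, 34⟩,
    ⟨1, 0, 2, 2, 25, 2, 67, 15⟩, ⟨0, 1, 0, 0, 5, 6, 29, 34⟩, ⟨0, 1, 2, 1, 5, 0, 31, 0⟩, ⟨1, 0, 2, 1, 5, 2, 30, 14⟩, ⟨0, 1, 0, 0, 7, 6, 39, 34⟩, ⟨0, 1, 2, 1, 7, 0, 41, 0⟩, ⟨1, 0, 2, 1, 7, 2, 40, 14⟩, ⟨0, 1, 0, 0, 12, 6, 52, 34⟩, ⟨0, 1, 2, 1, 12, 0, 54, 0⟩, ⟨1, 0, 2, 1, 12, 2, 53, 14⟩, ⟨0, 1, 3, 2, 6, 1, 35, 4⟩, ⟨1, 0, 3, 2, 6, 4, 37, 25⟩,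
    ⟨0, 1, 4, 2, 6, 1, 38, 4⟩, ⟨1, 0, 4, 2, 6, 4, 36, 25⟩, ⟨0, 1, 0, 0, 6, 10, 34, 50⟩, ⟨0, 1, 0, 0, 6, 11, 34, 51⟩, ⟨0, 1, 0, 0, 3, 14, 17, 56⟩, ⟨0, 1, 0, 0, 3, 15, 17, 57⟩]
  pp := [⟨0, 1, 1, 0, 87⟩, ⟨1, 2, 1, 2, 65⟩, ⟨2, 0, 1, 5, 41⟩, ⟨0, 1, 2, 0, 86⟩, ⟨1, 0, 2, 2, 64⟩, ⟨0, 1, 3, 1, 80⟩, ⟨1, 0, 3, 4, 53⟩, ⟨0, 1, 4, 1, 79⟩, ⟨1, 0, 4, 4, 52⟩, ⟨0, 1, 0, 10, 17⟩, ⟨0, 1, 0, 11, 16⟩, ⟨0, 2, 2, 0, 85⟩,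
    ⟨2, 0, 2, 5, 40⟩, ⟨0, 2, 3, 1, 77⟩, ⟨2, 0, 3, 7, 29⟩, ⟨0, 2, 4, 1, 76⟩, ⟨2, 0, 4, 7, 28⟩, ⟨0, 2, 0, 14, 11⟩, ⟨0, 2, 0, 15, 10⟩, ⟨1, 2, 2, 4, 51⟩, ⟨1, 2, 3, 4, 50⟩, ⟨1, 2, 4, 4, 49⟩, ⟨1, 2, 5, 4, 48⟩, ⟨1, 2, 6, 4, 47⟩,
    ⟨1, 2, 7, 4, 46⟩, ⟨2, 1, 2, 7, 27⟩, ⟨2, 1, 3, 7, 26⟩, ⟨2, 1, 4, 7, 25⟩, ⟨2, 1, 5, 7, 24⟩, ⟨2, 1, 6, 7, 23⟩, ⟨2, 1, 7, 7, 22⟩]
  pn := [⟨0, 1, 0, 0, 88⟩, ⟨0, 1, 0, 1, 82⟩, ⟨0, 1, 0, 16, 9⟩, ⟨0, 1, 0, 17, 8⟩, ⟨0, 1, 0, 18, 7⟩, ⟨0, 1, 0, 19, 6⟩, ⟨0, 1, 0, 20, 5⟩, ⟨0, 1, 0, 2, 67⟩, ⟨0, 1, 0, 4, 57⟩, ⟨0, 1, 0, 9, 20⟩, ⟨0, 1, 0, 21, 4⟩, ⟨0, 1, 0, 22, 3⟩,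
    ⟨0, 1, 0, 23, 2⟩, ⟨0, 1, 0, 24, 1⟩, ⟨0, 1, 0, 25, 0⟩, ⟨0, 1, 0, 5, 44⟩, ⟨0, 1, 0, 7, 34⟩, ⟨0, 1, 0, 12, 15⟩, ⟨1, 2, 7, 0, 84⟩, ⟨1, 2, 7, 1, 72⟩, ⟨2, 1, 7, 0, 83⟩, ⟨2, 1, 7, 1, 68⟩]
  st := [(0, 0), (1, 0), (16, 1), (17, 1), (18, 1), (19, 1), (20, 1), (2, 1), (4, 1), (9, 1), (21, 2), (22, 2),
    (23, 2), (24, 2), (25, 2), (5, 2), (7, 2), (12, 2)]
  sk _ := sTA7_55
  sf := sTA7_55.map SK.fct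
  vd d := fun i j => match i, j with
    | 0, 1 => .sym false (d.f.getD 0 (.cst 0 0)) 1 8 10 11
    | 0, 2 => .sym true (d.f.getD 1 (.cst 0 0)) 1 13 14 15
    | 1, 0 => .sym true (d.f.getD 0 (.cst 0 0)) 1 9 10 11
    | 1, 2 => .small 7 4
    | 2, 0 => .sym false (d.f.getD 1 (.cst 0 0)) 1 12 14 15
    | 2, 1 => .small 7 7
    | _, _ => .small 0 0
  vx := fun i j => match i, j with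
    | 0, 1 => .big 5 8 10 11
    | 0, 2 => .big 5 13 15 14
    | 1, 0 => .big 5 9 11 10
    | 1, 2 => .small 7 4
    | 2, 0 => .big 5 12 14 15
    | 2, 1 => .small 7 7
    | _, _ => .small 0 0
  lb := fun i j => match i, j with
    | 1, 2 => 7
    | 2, 1 => 7
    | _, _ => 0

theorem TA7_55_ok {K : ℕ → ℕ → ℕ → Prop} (h1 : ∀ p q r, K p q r → p = 7) : TA7_55.OK K where
  ok := Sys.ok_of (by decide +kernel)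
  stt := by decide +kernel
  vx d i j := by fin_cases i <;> fin_cases j <;> rfl
  vd d i j hij := by
    fin_cases i <;> fin_cases j <;> first | exact absurd rfl hij | exact trivial | exact ⟨rfl, rfl, rfl⟩
  sf d := rfl
  sk d := (SKA.cons ⟨by decide, by decide, by decide, rfl, rfl⟩
    (SKA.cons ⟨by decide, by decide, by decide, rfl, by decide, by decide, rfl, rfl⟩
    (SKA.cons ⟨by decide, by decide, by decide, rfl, rfl⟩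
    (SKA.cons ⟨by decide, by decide, by decide, rfl, rfl⟩
    (SKA.cons ⟨by decide, by decide, by decide, rfl, by decide, by decide, rfl, rfl⟩
    (SKA.cons ⟨by decide, by decide, by decide, rfl, rfl⟩
    (SKA.cons ⟨by decide, by decide, by decide, rfl, rfl⟩
    (SKA.cons ⟨by decide, by decide, by decide, rfl, by decide, by decide, rfl, rfl⟩
    (SKA.cons ⟨by decide, by decide, by decide, rfl, rfl⟩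
    (SKA.cons ⟨by decide, by decide, by decide, rfl, by decide, by decide, rfl, rfl⟩
    (SKA.cons ⟨by decide, by decide, by decide, rfl, rfl⟩
    (SKA.cons ⟨by decide, by decide, by decide, rfl, rfl⟩
    (SKA.cons ⟨by decide, by decide, by decide, rfl, by decide, by decide, rfl, rfl⟩
    (SKA.cons ⟨by decide, by decide, by decide, rfl, rfl⟩
    (SKA.cons ⟨by decide, by decide, by decide, rfl, rfl⟩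
    (SKA.cons ⟨by decide, by decide, by decide, rfl, by decide, by decide, rfl, rfl⟩
    SKA.nil))))))))))))))))
  cl d p q r hp hq hr hK' i j hij := by
    have e1 := h1 p q r hK'
    fin_cases i <;> fin_cases j <;> first
      | exact absurd rfl hij
      | exact ⟨Nat.zero_le _, fun m E h => VD.noConfusion h⟩
      | exact ⟨e1.ge, fun m E h => VD.noConfusion h fun e _ => e1.trans e⟩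

end Pool.Agent.Work.MP_88b7aa_gt.Kc
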