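import Pool.Agent.Work.MP_88b7aa_gt.Kc.TplU
import Pool.Agent.Work.MP_88b7aa_gt.PQ.SysQ

/-! Template: System A, `p = 7`. -/

set_option autoImplicit false

namespace Pool.Agent.Work.MP_88b7aa_gt.Kc

open Pool.Agent.Work.MP_88b7aa_gt.PQ

def sTA7_55EI : List SK := [.imgT 0 1 2 2 0 16, .star 0 2 1 2 16 0, .imgT 0 1 2 3 0 17, .imgT 0 1 2 4 0 18, .star 0 2 1 4 18 0, .imgT 0 1 2 5 0 19, .imgT 0 1 2 6 0 20, .star 0 2 1 6 20 0, .img 1 2 2 1 21, .img 1 2 3 1 22, .img 1 2 4 1 23, .img 1 2 5 1 24,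
    .img 1 2 6 1 25, .cc 0 2 1 2 0, .cc 2 0 1 2 5, .imgT 0 2 1 2 0 26, .star 0 1 2 2 26 0, .imgT 0 2 1 3 0 27, .imgT 0 2 1 4 0 28, .star 0 1 2 4 28 0, .imgT 0 2 1 5 0 29, .imgT 0 2 1 6 0 30, .star 0 1 2 6 30 0, .img 2 1 2 1 31,
    .img 2 1 3 1 32, .img 2 1 4 1 33, .img 2 1 5 1 34, .img 2 1 6 1 35, .cc 0 1 2 5 0, .cc 1 0 2 5 2]

def TA7_55EI : Tm where
  fes d := [FEQ 0,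
    d.c.getD 0 .gram,
    FEQ 1,
    d.c.getD 1 .gram,
    d.c.getD 2 .gram,
    FEQ 2,
    d.c.getD 3 .gram,
    d.c.getD 4 .gram,
    FEV 0 1 (d.f.getD 0 (.cst 0 0)) (ngS (DpS (.par (cpar 0 1)) 1)) (ngS (DpS (.par (cpar 0 1)) 2)),
    FEV 0 1 (d.f.getD 0 (.cst 0 0)) (ngS (DpS (.par (cpar 0 1)) 2)) (ngS (DpS (.par (cpar 0 1)) 1)),
    FEV 0 1 (d.f.getD 0 (.cst 0 0)) (DpS (.par (cpar 0 1)) 3) (DpS (.par (cpar 0 1)) 2),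
    FEV 0 1 (d.f.getD 0 (.cst 0 0)) (DpS (.par (cpar 0 1)) 2) (DpS (.par (cpar 0 1)) 3),
    FEV 2 0 (d.f.getD 1 (.cst 0 0)) (ngS (DpS (.par (cpar 2 0)) 1)) (ngS (DpS (.par (cpar 2 0)) 2)),
    FEV 2 0 (d.f.getD 1 (.cst 0 0)) (ngS (DpS (.par (cpar 2 0)) 2)) (ngS (DpS (.par (cpar 2 0)) 1)),
    FEV 2 0 (d.f.getD 1 (.cst 0 0)) (DpS (.par (cpar 2 0)) 3) (DpS (.par (cpar 2 0)) 2),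
    FEV 2 0 (d.f.getD 1 (.cst 0 0)) (DpS (.par (cpar 2 0)) 2) (DpS (.par (cpar 2 0)) 3),
    FUT 0 1 2 2,
    FUT 0 1 2 3,
    FUT 0 1 2 4,
    FUT 0 1 2 5,
    FUT 0 1 2 6,
    .word (rv1 1 2 2) (rv2 1 2 2) 2 (d.c.getD 0 .gram),
    .word (rv1 1 2 3) (rv2 1 2 3) 3 (d.c.getD 0 .gram),
    .word (rv1 1 2 4) (rv2 1 2 4) 4 (d.c.getD 0 .gram),
    .word (rv1 1 2 5) (rv2 1 2 5) 5 (d.c.getD 0 .gram),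
    .word (rv1 1 2 6) (rv2 1 2 6) 6 (d.c.getD 0 .gram),
    FUT 0 2 1 2,
    FUT 0 2 1 3,
    FUT 0 2 1 4,
    FUT 0 2 1 5,
    FUT 0 2 1 6,
    .word (rv1 2 1 2) (rv2 2 1 2) 2 (d.c.getD 0 .gram),
    .word (rv1 2 1 3) (rv2 2 1 3) 3 (d.c.getD 0 .gram),
    .word (rv1 2 1 4) (rv2 2 1 4) 4 (d.c.getD 0 .gram),
    .word (rv1 2 1 5) (rv2 2 1 5) 5 (d.c.getD 0 .gram),
    .word (rv1 2 1 6) (rv2 2 1 6) 6 (d.c.getD 0 .gram)]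
  is := [.form 0, .comp 0 0, .word 0 1 2 1, .word 0 2 2 2, .word 1 2 7 3, .word 2 1 7 4, .form 1, .word 0 1 2 0, .word 0 1 3 1, .word 0 1 4 2, .word 0 2 2 3, .word 0 2 3 4,
    .word 0 2 4 5, .word 1 2 7 6, .word 2 1 7 7, .form 2, .comp 1 0, .word 1 0 2 1, .form 3, .comp 0 0, .word 0 2 2 1, .comp 2 2, .word 2 0 2 3, .form 4,
    .comp 0 0, .word 1 0 2 1, .word 1 0 3 2, .word 1 0 4 3, .word 1 2 2 4, .word 1 2 3 5, .word 1 2 4 6, .word 1 2 5 7, .word 1 2 6 8, .word 1 2 7 9, .comp 2 10, .form 5,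
    .comp 2 0, .word 2 0 2 1, .form 6, .comp 0 0, .word 0 1 2 1, .comp 1 2, .word 1 0 2 3, .form 7, .comp 0 0, .comp 1 1, .word 2 0 2 2, .word 2 0 3 3,
    .word 2 0 4 4, .word 2 1 2 5, .word 2 1 3 6, .word 2 1 4 7, .word 2 1 5 8, .word 2 1 6 9, .word 2 1 7 10, .form 8, .form 9, .comp 0 0, .comp 2 1, .form 10,
    .form 11, .form 12, .comp 0 0, .comp 1 1, .form 13, .form 14, .form 15, .form 16, .form 17, .form 18, .form 19, .form 20,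
    .form 21, .form 22, .form 23, .form 24, .form 25, .form 26, .form 27, .form 28, .form 29, .form 30, .form 31, .form 32,
    .form 33, .form 34, .form 35]
  pks := [85, 84, 83, 80, 79, 76, 71, 70, 69, 68, 67, 66,
    65, 64, 63, 62, 61, 52, 51, 50, 49, 48, 47, 46,
    45, 44, 43, 42, 41, 40, 31, 30, 29, 28, 27, 26,
    25, 24, 23, 22, 21, 20, 19, 18, 17, 16, 15, 14,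
    13, 12, 11, 10, 9, 8, 7, 6, 5, 4, 3, 2,
    1, 0]
  cn := [⟨0, 1, 0, 0, 8, 1, 30, 3⟩, ⟨0, 1, 0, 0, 13, 1, 39, 3⟩, ⟨0, 1, 0, 0, 16, 3, 42, 9⟩, ⟨2, 0, 2, 2, 16, 5, 42, 20⟩, ⟨0, 1, 0, 0, 17, 3, 43, 9⟩, ⟨0, 2, 2, 2, 17, 0, 43, 2⟩, ⟨2, 0, 2, 2, 17, 5, 43, 20⟩, ⟨0, 1, 0, 0, 18, 3, 44, 9⟩, ⟨2, 0, 2, 2, 18, 5, 44, 20⟩, ⟨0, 1, 0, 0, 19, 3, 45, 9⟩, ⟨0, 2, 2, 2, 19, 0, 45, 2⟩, ⟨2, 0, 2, 2, 19, 5, 45, 20⟩,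
    ⟨0, 1, 0, 0, 20, 3, 46, 9⟩, ⟨2, 0, 2, 2, 20, 5, 46, 20⟩, ⟨0, 1, 0, 0, 2, 3, 6, 9⟩, ⟨0, 1, 0, 0, 4, 3, 14, 9⟩, ⟨0, 2, 2, 1, 4, 0, 17, 0⟩, ⟨2, 0, 2, 1, 4, 5, 15, 19⟩, ⟨0, 1, 0, 0, 9, 3, 31, 9⟩, ⟨0, 2, 2, 1, 9, 0, 33, 0⟩, ⟨2, 0, 2, 1, 9, 5, 32, 19⟩, ⟨0, 1, 0, 0, 21, 3, 47, 9⟩, ⟨0, 2, 2, 2, 21, 0, 47, 2⟩, ⟨2, 0, 2, 2, 21, 5, 47, 20⟩,
    ⟨0, 1, 0, 0, 22, 3, 48, 9⟩, ⟨0, 2, 2, 2, 22, 0, 48, 2⟩, ⟨2, 0, 2, 2, 22, 5, 48, 20⟩, ⟨0, 1, 0, 0, 23, 3, 49, 9⟩, ⟨0, 2, 2, 2, 23, 0, 49, 2⟩, ⟨2, 0, 2, 2, 23, 5, 49, 20⟩, ⟨0, 1, 0, 0, 24, 3, 50, 9⟩, ⟨0, 2, 2, 2, 24, 0, 50, 2⟩, ⟨2, 0, 2, 2, 24, 5, 50, 20⟩, ⟨0, 1, 0, 0, 25, 3, 51, 9⟩, ⟨0, 2, 2, 2, 25, 0, 51, 2⟩, ⟨2, 0, 2, 2, 25, 5, 51, 20⟩,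
    ⟨0, 2, 3, 2, 3, 1, 10, 5⟩, ⟨2, 0, 3, 2, 3, 7, 12, 29⟩, ⟨0, 2, 4, 2, 3, 1, 13, 5⟩, ⟨2, 0, 4, 2, 3, 7, 11, 29⟩, ⟨0, 1, 0, 0, 26, 6, 52, 21⟩, ⟨1, 0, 2, 2, 26, 2, 52, 8⟩, ⟨0, 1, 0, 0, 27, 6, 53, 21⟩, ⟨0, 1, 2, 2, 27, 0, 53, 1⟩, ⟨1, 0, 2, 2, 27, 2, 53, 8⟩, ⟨0, 1, 0, 0, 28, 6, 54, 21⟩, ⟨1, 0, 2, 2, 28, 2, 54, 8⟩, ⟨0, 1, 0, 0, 29, 6, 55, 21⟩,
    ⟨0, 1, 2, 2, 29, 0, 55, 1⟩, ⟨1, 0, 2, 2, 29, 2, 55, 8⟩, ⟨0, 1, 0, 0, 30, 6, 56, 21⟩, ⟨1, 0, 2, 2, 30, 2, 56, 8⟩, ⟨0, 1, 0, 0, 5, 6, 18, 21⟩, ⟨0, 1, 0, 0, 7, 6, 26, 21⟩, ⟨0, 1, 2, 1, 7, 0, 28, 0⟩, ⟨1, 0, 2, 1, 7, 2, 27, 7⟩, ⟨0, 1, 0, 0, 12, 6, 36, 21⟩, ⟨0, 1, 2, 1, 12, 0, 38, 0⟩, ⟨1, 0, 2, 1, 12, 2, 37, 7⟩, ⟨0, 1, 0, 0, 31, 6, 57, 21⟩,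
    ⟨0, 1, 2, 2, 31, 0, 57, 1⟩, ⟨1, 0, 2, 2, 31, 2, 57, 8⟩, ⟨0, 1, 0, 0, 32, 6, 58, 21⟩, ⟨0, 1, 2, 2, 32, 0, 58, 1⟩, ⟨1, 0, 2, 2, 32, 2, 58, 8⟩, ⟨0, 1, 0, 0, 33, 6, 59, 21⟩, ⟨0, 1, 2, 2, 33, 0, 59, 1⟩, ⟨1, 0, 2, 2, 33, 2, 59, 8⟩, ⟨0, 1, 0, 0, 34, 6, 60, 21⟩, ⟨0, 1, 2, 2, 34, 0, 60, 1⟩, ⟨1, 0, 2, 2, 34, 2, 60, 8⟩, ⟨0, 1, 0, 0, 35, 6, 61, 21⟩,
    ⟨0, 1, 2, 2, 35, 0, 61, 1⟩, ⟨1, 0, 2, 2, 35, 2, 61, 8⟩, ⟨0, 1, 3, 2, 6, 1, 22, 4⟩, ⟨1, 0, 3, 2, 6, 4, 24, 16⟩, ⟨0, 1, 4, 2, 6, 1, 25, 4⟩, ⟨1, 0, 4, 2, 6, 4, 23, 16⟩, ⟨0, 1, 0, 0, 6, 10, 21, 34⟩, ⟨0, 1, 0, 0, 6, 11, 21, 35⟩, ⟨0, 1, 0, 0, 3, 14, 9, 40⟩, ⟨0, 1, 0, 0, 3, 15, 9, 41⟩]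
  pp := [⟨0, 1, 1, 0, 85⟩, ⟨1, 2, 1, 2, 70⟩, ⟨2, 0, 1, 5, 50⟩, ⟨0, 1, 2, 0, 84⟩, ⟨1, 0, 2, 2, 69⟩, ⟨0, 1, 3, 1, 78⟩, ⟨1, 0, 3, 4, 60⟩, ⟨0, 1, 4, 1, 77⟩, ⟨1, 0, 4, 4, 59⟩, ⟨0, 1, 0, 10, 27⟩, ⟨0, 1, 0, 11, 26⟩, ⟨0, 2, 2, 0, 83⟩,
    ⟨2, 0, 2, 5, 49⟩, ⟨0, 2, 3, 1, 75⟩, ⟨2, 0, 3, 7, 39⟩, ⟨0, 2, 4, 1, 74⟩, ⟨2, 0, 4, 7, 38⟩, ⟨0, 2, 0, 14, 21⟩, ⟨0, 2, 0, 15, 20⟩, ⟨1, 2, 2, 4, 58⟩, ⟨1, 2, 3, 4, 57⟩, ⟨1, 2, 4, 4, 56⟩, ⟨1, 2, 5, 4, 55⟩, ⟨1, 2, 6, 4, 54⟩,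
    ⟨1, 2, 7, 4, 53⟩, ⟨2, 1, 2, 7, 37⟩, ⟨2, 1, 3, 7, 36⟩, ⟨2, 1, 4, 7, 35⟩, ⟨2, 1, 5, 7, 34⟩, ⟨2, 1, 6, 7, 33⟩, ⟨2, 1, 7, 7, 32⟩]
  pn := [⟨0, 1, 0, 0, 86⟩, ⟨0, 1, 0, 1, 80⟩, ⟨0, 1, 0, 16, 19⟩, ⟨0, 1, 0, 17, 18⟩, ⟨0, 1, 0, 18, 17⟩, ⟨0, 1, 0, 19, 16⟩, ⟨0, 1, 0, 20, 15⟩, ⟨0, 1, 0, 2, 71⟩, ⟨0, 1, 0, 4, 63⟩, ⟨0, 1, 0, 9, 30⟩, ⟨0, 1, 0, 21, 14⟩, ⟨0, 1, 0, 22, 13⟩,
    ⟨0, 1, 0, 23, 12⟩, ⟨0, 1, 0, 24, 11⟩, ⟨0, 1, 0, 25, 10⟩, ⟨0, 1, 0, 26, 9⟩, ⟨0, 1, 0, 27, 8⟩, ⟨0, 1, 0, 28, 7⟩, ⟨0, 1, 0, 29, 6⟩, ⟨0, 1, 0, 30, 5⟩, ⟨0, 1, 0, 5, 51⟩, ⟨0, 1, 0, 7, 43⟩, ⟨0, 1, 0, 12, 25⟩, ⟨0, 1, 0, 31, 4⟩,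
    ⟨0, 1, 0, 32, 3⟩, ⟨0, 1, 0, 33, 2⟩, ⟨0, 1, 0, 34, 1⟩, ⟨0, 1, 0, 35, 0⟩, ⟨1, 2, 7, 0, 82⟩, ⟨1, 2, 7, 1, 73⟩, ⟨2, 1, 7, 0, 81⟩, ⟨2, 1, 7, 1, 72⟩]
  st := [(0, 0), (1, 0), (16, 1), (17, 1), (18, 1), (19, 1), (20, 1), (2, 1), (4, 1), (9, 1), (21, 1), (22, 1),
    (23, 1), (24, 1), (25, 1), (26, 2), (27, 2), (28, 2), (29, 2), (30, 2), (5, 2), (7, 2), (12, 2), (31, 2),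
    (32, 2), (33, 2), (34, 2), (35, 2)]
  sk _ := sTA7_55EI
  sf := sTA7_55EI.map SK.fct
  vd d := fun i j => match i, j with
    | 0, 1 => .sym false (d.f.getD 0 (.cst 0 0)) 1 8 10 11
    | 0, 2 => .sym true (d.f.getD 1 (.cst 0 0)) 1 13 14 15
    | 1, 0 => .sym true (d.f.getD 0 (.cst 0 0)) 1 9 10 11
    | 1, 2 => .small 7 4
    | 2, 0 => .sym false (d.f.getD 1 (.cst 0 0)) 1 12 14 15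
    | 2, 1 => .small 7 7
    | _, _ => .small 0 0
  vx := fun i j => match i, j with
    | 0, 1 => .big 5 8 10 11
    | 0, 2 => .big 5 13 15 14
    | 1, 0 => .big 5 9 11 10
    | 1, 2 => .small 7 4
    | 2, 0 => .big 5 12 14 15
    | 2, 1 => .small 7 7
    | _, _ => .small 0 0
  lb := fun i j => match i, j with
    | 1, 2 => 7
    | 2, 1 => 7
    | _, _ => 0

theorem TA7_55EI_ok {K : ℕ → ℕ → ℕ → Prop} (h1 : ∀ p q r, K p q r → p = 7) : TA7_55EI.OK K where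
  ok := Sys.ok_of (by decide +kernel)
  stt := by decide +kernel
  vx d i j := by fin_cases i <;> fin_cases j <;> rfl
  vd d i j hij := by
    fin_cases i <;> fin_cases j <;> first | exact absurd rfl hij | exact trivial | exact ⟨rfl, rfl, rfl⟩
  sf d := rfl
  sk d := (SKA.cons ⟨by decide, by decide, by decide, rfl, rfl⟩
    (SKA.cons ⟨by decide, by decide, by decide, rfl, by decide, by decide, rfl, rfl⟩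
    (SKA.cons ⟨by decide, by decide, by decide, rfl, rfl⟩
    (SKA.cons ⟨by decide, by decide, by decide, rfl, rfl⟩
    (SKA.cons ⟨by decide, by decide, by decide, rfl, by decide, by decide, rfl, rfl⟩
    (SKA.cons ⟨by decide, by decide, by decide, rfl, rfl⟩
    (SKA.cons ⟨by decide, by decide, by decide, rfl, rfl⟩
    (SKA.cons ⟨by decide, by decide, by decide, rfl, by decide, by decide, rfl, rfl⟩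
    (SKA.cons (Or.inl rfl)
    (SKA.cons (Or.inl rfl)
    (SKA.cons (Or.inl rfl)
    (SKA.cons (Or.inl rfl)
    (SKA.cons (Or.inl rfl)
    (SKA.cons ⟨by decide, by decide, by decide, rfl, rfl⟩
    (SKA.cons ⟨by decide, by decide, by decide, rfl, rfl⟩
    (SKA.cons ⟨by decide, by decide, by decide, rfl, rfl⟩
    (SKA.cons ⟨by decide, by decide, by decide, rfl, by decide, by decide, rfl, rfl⟩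
    (SKA.cons ⟨by decide, by decide, by decide, rfl, rfl⟩
    (SKA.cons ⟨by decide, by decide, by decide, rfl, rfl⟩
    (SKA.cons ⟨by decide, by decide, by decide, rfl, by decide, by decide, rfl, rfl⟩
    (SKA.cons ⟨by decide, by decide, by decide, rfl, rfl⟩
    (SKA.cons ⟨by decide, by decide, by decide, rfl, rfl⟩
    (SKA.cons ⟨by decide, by decide, by decide, rfl, by decide, by decide, rfl, rfl⟩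
    (SKA.cons (Or.inl rfl)
    (SKA.cons (Or.inl rfl)
    (SKA.cons (Or.inl rfl)
    (SKA.cons (Or.inl rfl)
    (SKA.cons (Or.inl rfl)
    (SKA.cons ⟨by decide, by decide, by decide, rfl, rfl⟩
    (SKA.cons ⟨by decide, by decide, by decide, rfl, rfl⟩
    SKA.nil))))))))))))))))))))))))))))))
  cl d p q r hp hq hr hK' i j hij := by
    have e1 := h1 p q r hK'
    fin_cases i <;> fin_cases j <;> first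
      | exact absurd rfl hij
      | exact ⟨Nat.zero_le _, fun m E h => VD.noConfusion h⟩
      | exact ⟨e1.ge, fun m E h => VD.noConfusion h fun e _ => e1.trans e⟩

end Pool.Agent.Work.MP_88b7aa_gt.Kc
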