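import Pool.Agent.Work.MP_88b7aa_gt.Kc.TplU
import Pool.Agent.Work.MP_88b7aa_gt.PQ.SysQ

/-! Template: System A, `p = 8`. -/

set_option autoImplicit false

namespace Pool.Agent.Work.MP_88b7aa_gt.Kc

open Pool.Agent.Work.MP_88b7aa_gt.PQ

def sTA8_55EI : List SK := [.imgT 0 1 2 2 0 16, .star 0 2 1 2 16 0, .imgT 0 1 2 3 0 17, .imgT 0 1 2 4 0 18, .star 0 2 1 4 18 0, .imgT 0 1 2 5 0 19, .imgT 0 1 2 6 0 20, .star 0 2 1 6 20 0, .imgT 0 1 2 7 0 21, .img 1 2 2 1 22, .img 1 2 3 1 23, .img 1 2 4 1 24,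
    .img 1 2 5 1 25, .img 1 2 6 1 26, .img 1 2 7 1 27, .cc 0 2 1 2 0, .cc 2 0 1 2 5, .imgT 0 2 1 2 0 28, .star 0 1 2 2 28 0, .imgT 0 2 1 3 0 29, .imgT 0 2 1 4 0 30, .star 0 1 2 4 30 0, .imgT 0 2 1 5 0 31, .imgT 0 2 1 6 0 32,
    .star 0 1 2 6 32 0, .imgT 0 2 1 7 0 33, .img 2 1 2 1 34, .img 2 1 3 1 35, .img 2 1 4 1 36, .img 2 1 5 1 37, .img 2 1 6 1 38, .img 2 1 7 1 39, .cc 0 1 2 5 0, .cc 1 0 2 5 2]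

def TA8_55EI : Tm where
  fes d := [FEQ 0,
    d.c.getD 0 .gram,
    FEQ 1,
    d.c.getD 1 .gram,
    d.c.getD 2 .gram,
    FEQ 2,
    d.c.getD 3 .gram,
    d.c.getD 4 .gram,
    FEV 0 1 (d.f.getD 0 (.cst 0 0)) (ngS (DpS (.par (cpar 0 1)) 1)) (ngS (DpS (.par (cpar 0 1)) 2)),
    FEV 0 1 (d.f.getD 0 (.cst 0 0)) (ngS (DpS (.par (cpar 0 1)) 2)) (ngS (DpS (.par (cpar 0 1)) 1)),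
    FEV 0 1 (d.f.getD 0 (.cst 0 0)) (DpS (.par (cpar 0 1)) 3) (DpS (.par (cpar 0 1)) 2),
    FEV 0 1 (d.f.getD 0 (.cst 0 0)) (DpS (.par (cpar 0 1)) 2) (DpS (.par (cpar 0 1)) 3),
    FEV 2 0 (d.f.getD 1 (.cst 0 0)) (ngS (DpS (.par (cpar 2 0)) 1)) (ngS (DpS (.par (cpar 2 0)) 2)),
    FEV 2 0 (d.f.getD 1 (.cst 0 0)) (ngS (DpS (.par (cpar 2 0)) 2)) (ngS (DpS (.par (cpar 2 0)) 1)),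
    FEV 2 0 (d.f.getD 1 (.cst 0 0)) (DpS (.par (cpar 2 0)) 3) (DpS (.par (cpar 2 0)) 2),
    FEV 2 0 (d.f.getD 1 (.cst 0 0)) (DpS (.par (cpar 2 0)) 2) (DpS (.par (cpar 2 0)) 3),
    FUT 0 1 2 2,
    FUT 0 1 2 3,
    FUT 0 1 2 4,
    FUT 0 1 2 5,
    FUT 0 1 2 6,
    FUT 0 1 2 7,
    .word (rv1 1 2 2) (rv2 1 2 2) 2 (d.c.getD 0 .gram),
    .word (rv1 1 2 3) (rv2 1 2 3) 3 (d.c.getD 0 .gram),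
    .word (rv1 1 2 4) (rv2 1 2 4) 4 (d.c.getD 0 .gram),
    .word (rv1 1 2 5) (rv2 1 2 5) 5 (d.c.getD 0 .gram),
    .word (rv1 1 2 6) (rv2 1 2 6) 6 (d.c.getD 0 .gram),
    .word (rv1 1 2 7) (rv2 1 2 7) 7 (d.c.getD 0 .gram),
    FUT 0 2 1 2,
    FUT 0 2 1 3,
    FUT 0 2 1 4,
    FUT 0 2 1 5,
    FUT 0 2 1 6,
    FUT 0 2 1 7,
    .word (rv1 2 1 2) (rv2 2 1 2) 2 (d.c.getD 0 .gram),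
    .word (rv1 2 1 3) (rv2 2 1 3) 3 (d.c.getD 0 .gram),
    .word (rv1 2 1 4) (rv2 2 1 4) 4 (d.c.getD 0 .gram),
    .word (rv1 2 1 5) (rv2 2 1 5) 5 (d.c.getD 0 .gram),
    .word (rv1 2 1 6) (rv2 2 1 6) 6 (d.c.getD 0 .gram),
    .word (rv1 2 1 7) (rv2 2 1 7) 7 (d.c.getD 0 .gram)]
  is := [.form 0, .comp 0 0, .word 0 1 2 1, .word 0 2 2 2, .word 1 2 8 3, .word 2 1 8 4, .form 1, .word 0 1 2 0, .word 0 1 3 1, .word 0 1 4 2, .word 0 2 2 3, .word 0 2 3 4,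
    .word 0 2 4 5, .word 1 2 8 6, .word 2 1 8 7, .form 2, .comp 1 0, .word 1 0 2 1, .form 3, .comp 0 0, .word 0 2 2 1, .comp 2 2, .word 2 0 2 3, .form 4,
    .comp 0 0, .word 1 0 2 1, .word 1 0 3 2, .word 1 0 4 3, .word 1 2 2 4, .word 1 2 3 5, .word 1 2 4 6, .word 1 2 5 7, .word 1 2 6 8, .word 1 2 7 9, .word 1 2 8 10, .comp 2 11,
    .form 5, .comp 2 0, .word 2 0 2 1, .form 6, .comp 0 0, .word 0 1 2 1, .comp 1 2, .word 1 0 2 3, .form 7, .comp 0 0, .comp 1 1, .word 2 0 2 2,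
    .word 2 0 3 3, .word 2 0 4 4, .word 2 1 2 5, .word 2 1 3 6, .word 2 1 4 7, .word 2 1 5 8, .word 2 1 6 9, .word 2 1 7 10, .word 2 1 8 11, .form 8, .form 9, .comp 0 0,
    .comp 2 1, .form 10, .form 11, .form 12, .comp 0 0, .comp 1 1, .form 13, .form 14, .form 15, .form 16, .form 17, .form 18,
    .form 19, .form 20, .form 21, .form 22, .form 23, .form 24, .form 25, .form 26, .form 27, .form 28, .form 29, .form 30,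
    .form 31, .form 32, .form 33, .form 34, .form 35, .form 36, .form 37, .form 38, .form 39]
  pks := [91, 90, 89, 86, 85, 82, 77, 76, 75, 74, 73, 72,
    71, 70, 69, 68, 67, 57, 56, 55, 54, 53, 52, 51,
    50, 49, 48, 47, 46, 45, 35, 34, 33, 32, 31, 30,
    29, 28, 27, 26, 25, 24, 23, 22, 21, 20, 19, 18,
    17, 16, 15, 14, 13, 12, 11, 10, 9, 8, 7, 6,
    5, 4, 3, 2, 1, 0]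
  cn := [⟨0, 1, 0, 0, 8, 1, 30, 3⟩, ⟨0, 1, 0, 0, 13, 1, 39, 3⟩, ⟨0, 1, 0, 0, 16, 3, 42, 9⟩, ⟨2, 0, 2, 2, 16, 5, 42, 20⟩, ⟨0, 1, 0, 0, 17, 3, 43, 9⟩, ⟨0, 2, 2, 2, 17, 0, 43, 2⟩, ⟨2, 0, 2, 2, 17, 5, 43, 20⟩, ⟨0, 1, 0, 0, 18, 3, 44, 9⟩, ⟨2, 0, 2, 2, 18, 5, 44, 20⟩, ⟨0, 1, 0, 0, 19, 3, 45, 9⟩, ⟨0, 2, 2, 2, 19, 0, 45, 2⟩, ⟨2, 0, 2, 2, 19, 5, 45, 20⟩,
    ⟨0, 1, 0, 0, 20, 3, 46, 9⟩, ⟨2, 0, 2, 2, 20, 5, 46, 20⟩, ⟨0, 1, 0, 0, 21, 3, 47, 9⟩, ⟨0, 2, 2, 2, 21, 0, 47, 2⟩, ⟨2, 0, 2, 2, 21, 5, 47, 20⟩, ⟨0, 1, 0, 0, 2, 3, 6, 9⟩, ⟨0, 1, 0, 0, 4, 3, 14, 9⟩, ⟨0, 2, 2, 1, 4, 0, 17, 0⟩, ⟨2, 0, 2, 1, 4, 5, 15, 19⟩, ⟨0, 1, 0, 0, 9, 3, 31, 9⟩, ⟨0, 2, 2, 1, 9, 0, 33, 0⟩, ⟨2, 0, 2, 1, 9, 5, 32, 19⟩,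
    ⟨0, 1, 0, 0, 22, 3, 48, 9⟩, ⟨0, 2, 2, 2, 22, 0, 48, 2⟩, ⟨2, 0, 2, 2, 22, 5, 48, 20⟩, ⟨0, 1, 0, 0, 23, 3, 49, 9⟩, ⟨0, 2, 2, 2, 23, 0, 49, 2⟩, ⟨2, 0, 2, 2, 23, 5, 49, 20⟩, ⟨0, 1, 0, 0, 24, 3, 50, 9⟩, ⟨0, 2, 2, 2, 24, 0, 50, 2⟩, ⟨2, 0, 2, 2, 24, 5, 50, 20⟩, ⟨0, 1, 0, 0, 25, 3, 51, 9⟩, ⟨0, 2, 2, 2, 25, 0, 51, 2⟩, ⟨2, 0, 2, 2, 25, 5, 51, 20⟩,
    ⟨0, 1, 0, 0, 26, 3, 52, 9⟩, ⟨0, 2, 2, 2, 26, 0, 52, 2⟩, ⟨2, 0, 2, 2, 26, 5, 52, 20⟩, ⟨0, 1, 0, 0, 27, 3, 53, 9⟩, ⟨0, 2, 2, 2, 27, 0, 53, 2⟩, ⟨2, 0, 2, 2, 27, 5, 53, 20⟩, ⟨0, 2, 3, 2, 3, 1, 10, 5⟩, ⟨2, 0, 3, 2, 3, 7, 12, 29⟩, ⟨0, 2, 4, 2, 3, 1, 13, 5⟩, ⟨2, 0, 4, 2, 3, 7, 11, 29⟩, ⟨0, 1, 0, 0, 28, 6, 54, 21⟩, ⟨1, 0, 2, 2, 28, 2, 54, 8⟩,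
    ⟨0, 1, 0, 0, 29, 6, 55, 21⟩, ⟨0, 1, 2, 2, 29, 0, 55, 1⟩, ⟨1, 0, 2, 2, 29, 2, 55, 8⟩, ⟨0, 1, 0, 0, 30, 6, 56, 21⟩, ⟨1, 0, 2, 2, 30, 2, 56, 8⟩, ⟨0, 1, 0, 0, 31, 6, 57, 21⟩, ⟨0, 1, 2, 2, 31, 0, 57, 1⟩, ⟨1, 0, 2, 2, 31, 2, 57, 8⟩, ⟨0, 1, 0, 0, 32, 6, 58, 21⟩, ⟨1, 0, 2, 2, 32, 2, 58, 8⟩, ⟨0, 1, 0, 0, 33, 6, 59, 21⟩, ⟨0, 1, 2, 2, 33, 0, 59, 1⟩,
    ⟨1, 0, 2, 2, 33, 2, 59, 8⟩, ⟨0, 1, 0, 0, 5, 6, 18, 21⟩, ⟨0, 1, 0, 0, 7, 6, 26, 21⟩, ⟨0, 1, 2, 1, 7, 0, 28, 0⟩, ⟨1, 0, 2, 1, 7, 2, 27, 7⟩, ⟨0, 1, 0, 0, 12, 6, 36, 21⟩, ⟨0, 1, 2, 1, 12, 0, 38, 0⟩, ⟨1, 0, 2, 1, 12, 2, 37, 7⟩, ⟨0, 1, 0, 0, 34, 6, 60, 21⟩, ⟨0, 1, 2, 2, 34, 0, 60, 1⟩, ⟨1, 0, 2, 2, 34, 2, 60, 8⟩, ⟨0, 1, 0, 0, 35, 6, 61, 21⟩,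
    ⟨0, 1, 2, 2, 35, 0, 61, 1⟩, ⟨1, 0, 2, 2, 35, 2, 61, 8⟩, ⟨0, 1, 0, 0, 36, 6, 62, 21⟩, ⟨0, 1, 2, 2, 36, 0, 62, 1⟩, ⟨1, 0, 2, 2, 36, 2, 62, 8⟩, ⟨0, 1, 0, 0, 37, 6, 63, 21⟩, ⟨0, 1, 2, 2, 37, 0, 63, 1⟩, ⟨1, 0, 2, 2, 37, 2, 63, 8⟩, ⟨0, 1, 0, 0, 38, 6, 64, 21⟩, ⟨0, 1, 2, 2, 38, 0, 64, 1⟩, ⟨1, 0, 2, 2, 38, 2, 64, 8⟩, ⟨0, 1, 0, 0, 39, 6, 65, 21⟩,
    ⟨0, 1, 2, 2, 39, 0, 65, 1⟩, ⟨1, 0, 2, 2, 39, 2, 65, 8⟩, ⟨0, 1, 3, 2, 6, 1, 22, 4⟩, ⟨1, 0, 3, 2, 6, 4, 24, 16⟩, ⟨0, 1, 4, 2, 6, 1, 25, 4⟩, ⟨1, 0, 4, 2, 6, 4, 23, 16⟩, ⟨0, 1, 0, 0, 6, 10, 21, 34⟩, ⟨0, 1, 0, 0, 6, 11, 21, 35⟩, ⟨0, 1, 0, 0, 3, 14, 9, 40⟩, ⟨0, 1, 0, 0, 3, 15, 9, 41⟩]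
  pp := [⟨0, 1, 1, 0, 91⟩, ⟨1, 2, 1, 2, 76⟩, ⟨2, 0, 1, 5, 55⟩, ⟨0, 1, 2, 0, 90⟩, ⟨1, 0, 2, 2, 75⟩, ⟨0, 1, 3, 1, 84⟩, ⟨1, 0, 3, 4, 66⟩, ⟨0, 1, 4, 1, 83⟩, ⟨1, 0, 4, 4, 65⟩, ⟨0, 1, 0, 10, 31⟩, ⟨0, 1, 0, 11, 30⟩, ⟨0, 2, 2, 0, 89⟩,
    ⟨2, 0, 2, 5, 54⟩, ⟨0, 2, 3, 1, 81⟩, ⟨2, 0, 3, 7, 44⟩, ⟨0, 2, 4, 1, 80⟩, ⟨2, 0, 4, 7, 43⟩, ⟨0, 2, 0, 14, 25⟩, ⟨0, 2, 0, 15, 24⟩, ⟨1, 2, 2, 4, 64⟩, ⟨1, 2, 3, 4, 63⟩, ⟨1, 2, 4, 4, 62⟩, ⟨1, 2, 5, 4, 61⟩, ⟨1, 2, 6, 4, 60⟩,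
    ⟨1, 2, 7, 4, 59⟩, ⟨1, 2, 8, 4, 58⟩, ⟨2, 1, 2, 7, 42⟩, ⟨2, 1, 3, 7, 41⟩, ⟨2, 1, 4, 7, 40⟩, ⟨2, 1, 5, 7, 39⟩, ⟨2, 1, 6, 7, 38⟩, ⟨2, 1, 7, 7, 37⟩, ⟨2, 1, 8, 7, 36⟩]
  pn := [⟨0, 1, 0, 0, 92⟩, ⟨0, 1, 0, 1, 86⟩, ⟨0, 1, 0, 16, 23⟩, ⟨0, 1, 0, 17, 22⟩, ⟨0, 1, 0, 18, 21⟩, ⟨0, 1, 0, 19, 20⟩, ⟨0, 1, 0, 20, 19⟩, ⟨0, 1, 0, 21, 18⟩, ⟨0, 1, 0, 2, 77⟩, ⟨0, 1, 0, 4, 69⟩, ⟨0, 1, 0, 9, 34⟩, ⟨0, 1, 0, 22, 17⟩,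
    ⟨0, 1, 0, 23, 16⟩, ⟨0, 1, 0, 24, 15⟩, ⟨0, 1, 0, 25, 14⟩, ⟨0, 1, 0, 26, 13⟩, ⟨0, 1, 0, 27, 12⟩, ⟨0, 1, 0, 28, 11⟩, ⟨0, 1, 0, 29, 10⟩, ⟨0, 1, 0, 30, 9⟩, ⟨0, 1, 0, 31, 8⟩, ⟨0, 1, 0, 32, 7⟩, ⟨0, 1, 0, 33, 6⟩, ⟨0, 1, 0, 5, 56⟩,
    ⟨0, 1, 0, 7, 48⟩, ⟨0, 1, 0, 12, 29⟩, ⟨0, 1, 0, 34, 5⟩, ⟨0, 1, 0, 35, 4⟩, ⟨0, 1, 0, 36, 3⟩, ⟨0, 1, 0, 37, 2⟩, ⟨0, 1, 0, 38, 1⟩, ⟨0, 1, 0, 39, 0⟩, ⟨1, 2, 8, 0, 88⟩, ⟨1, 2, 8, 1, 79⟩, ⟨2, 1, 8, 0, 87⟩, ⟨2, 1, 8, 1, 78⟩]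
  st := [(0, 0), (1, 0), (16, 1), (17, 1), (18, 1), (19, 1), (20, 1), (21, 1), (2, 1), (4, 1), (9, 1), (22, 1),
    (23, 1), (24, 1), (25, 1), (26, 1), (27, 1), (28, 2), (29, 2), (30, 2), (31, 2), (32, 2), (33, 2), (5, 2),
    (7, 2), (12, 2), (34, 2), (35, 2), (36, 2), (37, 2), (38, 2), (39, 2)]
  sk _ := sTA8_55EI
  sf := sTA8_55EI.map SK.fct
  vd d := fun i j => match i, j with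
    | 0, 1 => .sym false (d.f.getD 0 (.cst 0 0)) 1 8 10 11
    | 0, 2 => .sym true (d.f.getD 1 (.cst 0 0)) 1 13 14 15
    | 1, 0 => .sym true (d.f.getD 0 (.cst 0 0)) 1 9 10 11
    | 1, 2 => .small 8 4
    | 2, 0 => .sym false (d.f.getD 1 (.cst 0 0)) 1 12 14 15
    | 2, 1 => .small 8 7
    | _, _ => .small 0 0
  vx := fun i j => match i, j with
    | 0, 1 => .big 5 8 10 11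
    | 0, 2 => .big 5 13 15 14
    | 1, 0 => .big 5 9 11 10
    | 1, 2 => .small 8 4
    | 2, 0 => .big 5 12 14 15
    | 2, 1 => .small 8 7
    | _, _ => .small 0 0
  lb := fun i j => match i, j with
    | 1, 2 => 8
    | 2, 1 => 8
    | _, _ => 0

theorem TA8_55EI_ok {K : ℕ → ℕ → ℕ → Prop} (h1 : ∀ p q r, K p q r → p = 8) : TA8_55EI.OK K where
  ok := Sys.ok_of (by decide +kernel)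
  stt := by decide +kernel
  vx d i j := by fin_cases i <;> fin_cases j <;> rfl
  vd d i j hij := by
    fin_cases i <;> fin_cases j <;> first | exact absurd rfl hij | exact trivial | exact ⟨rfl, rfl, rfl⟩
  sf d := rfl
  sk d := (SKA.cons ⟨by decide, by decide, by decide, rfl, rfl⟩
    (SKA.cons ⟨by decide, by decide, by decide, rfl, by decide, by decide, rfl, rfl⟩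
    (SKA.cons ⟨by decide, by decide, by decide, rfl, rfl⟩
    (SKA.cons ⟨by decide, by decide, by decide, rfl, rfl⟩
    (SKA.cons ⟨by decide, by decide, by decide, rfl, by decide, by decide, rfl, rfl⟩
    (SKA.cons ⟨by decide, by decide, by decide, rfl, rfl⟩
    (SKA.cons ⟨by decide, by decide, by decide, rfl, rfl⟩
    (SKA.cons ⟨by decide, by decide, by decide, rfl, by decide, by decide, rfl, rfl⟩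
    (SKA.cons ⟨by decide, by decide, by decide, rfl, rfl⟩
    (SKA.cons (Or.inl rfl)
    (SKA.cons (Or.inl rfl)
    (SKA.cons (Or.inl rfl)
    (SKA.cons (Or.inl rfl)
    (SKA.cons (Or.inl rfl)
    (SKA.cons (Or.inl rfl)
    (SKA.cons ⟨by decide, by decide, by decide, rfl, rfl⟩
    (SKA.cons ⟨by decide, by decide, by decide, rfl, rfl⟩
    (SKA.cons ⟨by decide, by decide, by decide, rfl, rfl⟩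
    (SKA.cons ⟨by decide, by decide, by decide, rfl, by decide, by decide, rfl, rfl⟩
    (SKA.cons ⟨by decide, by decide, by decide, rfl, rfl⟩
    (SKA.cons ⟨by decide, by decide, by decide, rfl, rfl⟩
    (SKA.cons ⟨by decide, by decide, by decide, rfl, by decide, by decide, rfl, rfl⟩
    (SKA.cons ⟨by decide, by decide, by decide, rfl, rfl⟩
    (SKA.cons ⟨by decide, by decide, by decide, rfl, rfl⟩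
    (SKA.cons ⟨by decide, by decide, by decide, rfl, by decide, by decide, rfl, rfl⟩
    (SKA.cons ⟨by decide, by decide, by decide, rfl, rfl⟩
    (SKA.cons (Or.inl rfl)
    (SKA.cons (Or.inl rfl)
    (SKA.cons (Or.inl rfl)
    (SKA.cons (Or.inl rfl)
    (SKA.cons (Or.inl rfl)
    (SKA.cons (Or.inl rfl)
    (SKA.cons ⟨by decide, by decide, by decide, rfl, rfl⟩
    (SKA.cons ⟨by decide, by decide, by decide, rfl, rfl⟩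
    SKA.nil))))))))))))))))))))))))))))))))))
  cl d p q r hp hq hr hK' i j hij := by
    have e1 := h1 p q r hK'
    fin_cases i <;> fin_cases j <;> first
      | exact absurd rfl hij
      | exact ⟨Nat.zero_le _, fun m E h => VD.noConfusion h⟩
      | exact ⟨e1.ge, fun m E h => VD.noConfusion h fun e _ => e1.trans e⟩

end Pool.Agent.Work.MP_88b7aa_gt.Kc
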