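import Pool.Agent.Work.MP_88b7aa_gt.Kc.TplU
import Pool.Agent.Work.MP_88b7aa_gt.PQ.SysQ

/-! Template: System A, `p = 8`. -/

set_option autoImplicit false

namespace Pool.Agent.Work.MP_88b7aa_gt.Kc

open Pool.Agent.Work.MP_88b7aa_gt.PQ

def sTA8_77 : List SK := [.imgT 0 1 2 2 0 16, .star 0 2 1 2 16 0, .imgT 0 1 2 3 0 17, .imgT 0 1 2 4 0 18, .star 0 2 1 4 18 0, .imgT 0 1 2 5 0 19, .imgT 0 1 2 6 0 20, .star 0 2 1 6 20 0, .imgT 0 1 2 7 0 21, .imgT 0 2 1 2 0 22, .star 0 1 2 2 22 0, .imgT 0 2 1 3 0 23,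
    .imgT 0 2 1 4 0 24, .star 0 1 2 4 24 0, .imgT 0 2 1 5 0 25, .imgT 0 2 1 6 0 26, .star 0 1 2 6 26 0, .imgT 0 2 1 7 0 27]

def TA8_77 : Tm where
  fes d := [FEQ 0,
    d.c.getD 0 .gram,
    d.c.getD 1 .gram,
    d.c.getD 2 .gram,
    d.c.getD 3 .gram,
    d.c.getD 4 .gram,
    d.c.getD 5 .gram,
    d.c.getD 6 .gram,
    FEV 0 1 (d.f.getD 0 (.cst 0 0)) (ngS (DpS (.par (cpar 0 1)) 2)) (ngS (DpS (.par (cpar 0 1)) 3)),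
    FEV 0 1 (d.f.getD 0 (.cst 0 0)) (ngS (DpS (.par (cpar 0 1)) 3)) (ngS (DpS (.par (cpar 0 1)) 2)),
    FEV 0 1 (d.f.getD 0 (.cst 0 0)) (DpS (.par (cpar 0 1)) 4) (DpS (.par (cpar 0 1)) 3),
    FEV 0 1 (d.f.getD 0 (.cst 0 0)) (DpS (.par (cpar 0 1)) 3) (DpS (.par (cpar 0 1)) 4),
    FEV 2 0 (d.f.getD 1 (.cst 0 0)) (ngS (DpS (.par (cpar 2 0)) 2)) (ngS (DpS (.par (cpar 2 0)) 3)),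
    FEV 2 0 (d.f.getD 1 (.cst 0 0)) (ngS (DpS (.par (cpar 2 0)) 3)) (ngS (DpS (.par (cpar 2 0)) 2)),
    FEV 2 0 (d.f.getD 1 (.cst 0 0)) (DpS (.par (cpar 2 0)) 4) (DpS (.par (cpar 2 0)) 3),
    FEV 2 0 (d.f.getD 1 (.cst 0 0)) (DpS (.par (cpar 2 0)) 3) (DpS (.par (cpar 2 0)) 4),
    FUT 0 1 2 2,
    FUT 0 1 2 3,
    FUT 0 1 2 4,
    FUT 0 1 2 5,
    FUT 0 1 2 6,
    FUT 0 1 2 7,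
    FUT 0 2 1 2,
    FUT 0 2 1 3,
    FUT 0 2 1 4,
    FUT 0 2 1 5,
    FUT 0 2 1 6,
    FUT 0 2 1 7]
  is := [.form 0, .comp 0 0, .word 0 1 2 1, .word 0 2 2 2, .word 1 2 8 3, .word 2 1 8 4, .form 1, .word 0 1 2 0, .word 0 1 3 1, .word 0 1 4 2, .word 0 1 5 3, .word 0 1 6 4,
    .word 0 2 2 5, .word 0 2 3 6, .word 0 2 4 7, .word 0 2 5 8, .word 0 2 6 9, .comp 1 10, .word 1 2 2 11, .word 1 2 3 12, .word 1 2 4 13, .word 1 2 8 14, .comp 2 15, .word 2 1 2 16,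
    .word 2 1 3 17, .word 2 1 4 18, .word 2 1 8 19, .form 2, .comp 0 0, .comp 1 1, .word 1 0 2 2, .comp 2 3, .form 3, .comp 0 0, .word 0 2 2 1, .word 0 2 3 2,
    .comp 2 3, .word 2 0 2 4, .word 2 0 3 5, .form 4, .comp 0 0, .comp 1 1, .word 1 0 2 2, .word 1 0 3 3, .word 1 0 4 4, .word 1 0 5 5, .word 1 0 6 6, .word 1 2 2 7,
    .word 1 2 3 8, .word 1 2 4 9, .word 1 2 5 10, .word 1 2 6 11, .word 1 2 7 12, .word 1 2 8 13, .comp 2 14, .form 5, .comp 0 0, .comp 1 1, .comp 2 2, .word 2 0 2 3,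
    .form 6, .comp 0 0, .word 0 1 2 1, .word 0 1 3 2, .comp 1 3, .word 1 0 2 4, .word 1 0 3 5, .form 7, .comp 0 0, .comp 1 1, .comp 2 2, .word 2 0 2 3,
    .word 2 0 3 4, .word 2 0 4 5, .word 2 0 5 6, .word 2 0 6 7, .word 2 1 2 8, .word 2 1 3 9, .word 2 1 4 10, .word 2 1 5 11, .word 2 1 6 12, .word 2 1 7 13, .word 2 1 8 14, .form 8,
    .form 9, .comp 0 0, .comp 2 1, .form 10, .form 11, .form 12, .comp 0 0, .comp 1 1, .form 13, .form 14, .form 15, .form 16,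
    .form 17, .form 18, .form 19, .form 20, .form 21, .form 22, .form 23, .form 24, .form 25, .form 26, .form 27]
  pks := [105, 104, 103, 100, 99, 98, 94, 93, 89, 88, 87, 86,
    84, 83, 82, 81, 79, 78, 77, 76, 75, 74, 73, 72,
    71, 70, 69, 68, 67, 66, 65, 64, 63, 59, 58, 52,
    51, 50, 49, 48, 47, 46, 45, 44, 43, 42, 41, 40,
    39, 38, 37, 36, 35, 34, 30, 29, 23, 22, 21, 20,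
    19, 18, 17, 16, 15, 14, 13, 12, 11, 10, 9, 8,
    7, 6, 5, 4, 3, 2, 1, 0]
  cn := [⟨0, 1, 0, 0, 8, 1, 56, 3⟩, ⟨0, 1, 0, 0, 13, 1, 65, 3⟩, ⟨1, 2, 2, 1, 1, 4, 12, 30⟩, ⟨1, 2, 3, 1, 1, 4, 9, 30⟩, ⟨1, 2, 4, 2, 1, 4, 13, 33⟩, ⟨1, 2, 5, 2, 1, 4, 10, 33⟩, ⟨1, 2, 6, 3, 1, 4, 14, 34⟩, ⟨1, 2, 7, 3, 1, 4, 11, 34⟩, ⟨0, 1, 0, 0, 16, 3, 68, 21⟩, ⟨2, 0, 2, 2, 16, 5, 68, 40⟩, ⟨0, 1, 0, 0, 17, 3, 69, 21⟩, ⟨0, 2, 2, 2, 17, 0, 69, 2⟩,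
    ⟨2, 0, 2, 2, 17, 5, 69, 40⟩, ⟨0, 1, 0, 0, 18, 3, 70, 21⟩, ⟨2, 0, 2, 2, 18, 5, 70, 40⟩, ⟨0, 1, 0, 0, 19, 3, 71, 21⟩, ⟨0, 2, 2, 2, 19, 0, 71, 2⟩, ⟨2, 0, 2, 2, 19, 5, 71, 40⟩, ⟨0, 1, 0, 0, 20, 3, 72, 21⟩, ⟨2, 0, 2, 2, 20, 5, 72, 40⟩, ⟨0, 1, 0, 0, 21, 3, 73, 21⟩, ⟨0, 2, 2, 2, 21, 0, 73, 2⟩, ⟨2, 0, 2, 2, 21, 5, 73, 40⟩, ⟨0, 1, 0, 0, 2, 3, 16, 21⟩,
    ⟨0, 2, 2, 1, 2, 0, 20, 0⟩, ⟨2, 0, 2, 1, 2, 5, 17, 39⟩, ⟨0, 1, 0, 0, 4, 3, 28, 21⟩, ⟨0, 2, 2, 1, 4, 0, 35, 0⟩, ⟨2, 0, 2, 1, 4, 5, 29, 39⟩, ⟨0, 1, 0, 0, 9, 3, 57, 21⟩, ⟨0, 2, 2, 1, 9, 0, 59, 0⟩, ⟨2, 0, 2, 1, 9, 5, 58, 39⟩, ⟨0, 2, 3, 2, 3, 1, 22, 6⟩, ⟨2, 0, 3, 2, 3, 7, 25, 52⟩, ⟨0, 2, 4, 2, 3, 1, 26, 6⟩, ⟨2, 0, 4, 2, 3, 7, 23, 52⟩,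
    ⟨0, 2, 5, 3, 3, 1, 23, 7⟩, ⟨2, 0, 5, 3, 3, 7, 26, 53⟩, ⟨0, 2, 6, 3, 3, 1, 27, 7⟩, ⟨2, 0, 6, 3, 3, 7, 24, 53⟩, ⟨2, 1, 2, 1, 1, 7, 8, 51⟩, ⟨2, 1, 3, 1, 1, 7, 13, 51⟩, ⟨2, 1, 4, 2, 1, 7, 9, 54⟩, ⟨2, 1, 5, 2, 1, 7, 14, 54⟩, ⟨2, 1, 6, 3, 1, 7, 10, 55⟩, ⟨2, 1, 7, 3, 1, 7, 15, 55⟩, ⟨0, 1, 0, 0, 22, 6, 74, 41⟩, ⟨1, 0, 2, 2, 22, 2, 74, 19⟩,
    ⟨0, 1, 0, 0, 23, 6, 75, 41⟩, ⟨0, 1, 2, 2, 23, 0, 75, 1⟩, ⟨1, 0, 2, 2, 23, 2, 75, 19⟩, ⟨0, 1, 0, 0, 24, 6, 76, 41⟩, ⟨1, 0, 2, 2, 24, 2, 76, 19⟩, ⟨0, 1, 0, 0, 25, 6, 77, 41⟩, ⟨0, 1, 2, 2, 25, 0, 77, 1⟩, ⟨1, 0, 2, 2, 25, 2, 77, 19⟩, ⟨0, 1, 0, 0, 26, 6, 78, 41⟩, ⟨1, 0, 2, 2, 26, 2, 78, 19⟩, ⟨0, 1, 0, 0, 27, 6, 79, 41⟩, ⟨0, 1, 2, 2, 27, 0, 79, 1⟩,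
    ⟨1, 0, 2, 2, 27, 2, 79, 19⟩, ⟨0, 1, 0, 0, 5, 6, 36, 41⟩, ⟨0, 1, 2, 1, 5, 0, 38, 0⟩, ⟨1, 0, 2, 1, 5, 2, 37, 18⟩, ⟨0, 1, 0, 0, 7, 6, 48, 41⟩, ⟨0, 1, 2, 1, 7, 0, 50, 0⟩, ⟨1, 0, 2, 1, 7, 2, 49, 18⟩, ⟨0, 1, 0, 0, 12, 6, 62, 41⟩, ⟨0, 1, 2, 1, 12, 0, 64, 0⟩, ⟨1, 0, 2, 1, 12, 2, 63, 18⟩, ⟨0, 1, 3, 2, 6, 1, 42, 4⟩, ⟨1, 0, 3, 2, 6, 4, 45, 31⟩,
    ⟨0, 1, 4, 2, 6, 1, 46, 4⟩, ⟨1, 0, 4, 2, 6, 4, 43, 31⟩, ⟨0, 1, 5, 3, 6, 1, 43, 5⟩, ⟨1, 0, 5, 3, 6, 4, 46, 32⟩, ⟨0, 1, 6, 3, 6, 1, 47, 5⟩, ⟨1, 0, 6, 3, 6, 4, 44, 32⟩, ⟨0, 1, 0, 0, 6, 10, 41, 60⟩, ⟨0, 1, 0, 0, 6, 11, 41, 61⟩, ⟨0, 1, 0, 0, 3, 14, 21, 66⟩, ⟨0, 1, 0, 0, 3, 15, 21, 67⟩]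
  pp := [⟨0, 1, 1, 0, 105⟩, ⟨1, 2, 1, 2, 77⟩, ⟨2, 0, 1, 5, 48⟩, ⟨0, 1, 2, 0, 104⟩, ⟨1, 0, 2, 2, 76⟩, ⟨0, 1, 3, 1, 98⟩, ⟨1, 0, 3, 4, 63⟩, ⟨0, 1, 4, 1, 97⟩, ⟨1, 0, 4, 4, 62⟩, ⟨0, 1, 5, 1, 96⟩, ⟨1, 0, 5, 4, 61⟩, ⟨0, 1, 6, 1, 95⟩,
    ⟨1, 0, 6, 4, 60⟩, ⟨0, 1, 0, 10, 19⟩, ⟨0, 1, 0, 11, 18⟩, ⟨0, 2, 2, 0, 103⟩, ⟨2, 0, 2, 5, 47⟩, ⟨0, 2, 3, 1, 93⟩, ⟨2, 0, 3, 7, 34⟩, ⟨0, 2, 4, 1, 92⟩, ⟨2, 0, 4, 7, 33⟩, ⟨0, 2, 5, 1, 91⟩, ⟨2, 0, 5, 7, 32⟩, ⟨0, 2, 6, 1, 90⟩,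
    ⟨2, 0, 6, 7, 31⟩, ⟨0, 2, 0, 14, 13⟩, ⟨0, 2, 0, 15, 12⟩, ⟨1, 2, 2, 4, 59⟩, ⟨1, 2, 3, 4, 58⟩, ⟨1, 2, 4, 4, 57⟩, ⟨1, 2, 5, 4, 56⟩, ⟨1, 2, 6, 4, 55⟩, ⟨1, 2, 7, 4, 54⟩, ⟨1, 2, 8, 4, 53⟩, ⟨2, 1, 2, 7, 30⟩, ⟨2, 1, 3, 7, 29⟩,
    ⟨2, 1, 4, 7, 28⟩, ⟨2, 1, 5, 7, 27⟩, ⟨2, 1, 6, 7, 26⟩, ⟨2, 1, 7, 7, 25⟩, ⟨2, 1, 8, 7, 24⟩]
  pn := [⟨0, 1, 0, 0, 106⟩, ⟨0, 1, 0, 1, 100⟩, ⟨0, 1, 0, 16, 11⟩, ⟨0, 1, 0, 17, 10⟩, ⟨0, 1, 0, 18, 9⟩, ⟨0, 1, 0, 19, 8⟩, ⟨0, 1, 0, 20, 7⟩, ⟨0, 1, 0, 21, 6⟩, ⟨0, 1, 0, 2, 79⟩, ⟨0, 1, 0, 4, 67⟩, ⟨0, 1, 0, 9, 22⟩, ⟨0, 1, 0, 22, 5⟩,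
    ⟨0, 1, 0, 23, 4⟩, ⟨0, 1, 0, 24, 3⟩, ⟨0, 1, 0, 25, 2⟩, ⟨0, 1, 0, 26, 1⟩, ⟨0, 1, 0, 27, 0⟩, ⟨0, 1, 0, 5, 51⟩, ⟨0, 1, 0, 7, 39⟩, ⟨0, 1, 0, 12, 17⟩, ⟨1, 2, 8, 0, 102⟩, ⟨1, 2, 8, 1, 85⟩, ⟨2, 1, 8, 0, 101⟩, ⟨2, 1, 8, 1, 80⟩]
  st := [(0, 0), (1, 0), (16, 1), (17, 1), (18, 1), (19, 1), (20, 1), (21, 1), (2, 1), (4, 1), (9, 1), (22, 2),
    (23, 2), (24, 2), (25, 2), (26, 2), (27, 2), (5, 2), (7, 2), (12, 2)]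
  sk _ := sTA8_77
  sf := sTA8_77.map SK.fct
  vd d := fun i j => match i, j with
    | 0, 1 => .sym false (d.f.getD 0 (.cst 0 0)) 2 8 10 11
    | 0, 2 => .sym true (d.f.getD 1 (.cst 0 0)) 2 13 14 15
    | 1, 0 => .sym true (d.f.getD 0 (.cst 0 0)) 2 9 10 11
    | 1, 2 => .small 8 4
    | 2, 0 => .sym false (d.f.getD 1 (.cst 0 0)) 2 12 14 15
    | 2, 1 => .small 8 7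
    | _, _ => .small 0 0
  vx := fun i j => match i, j with
    | 0, 1 => .big 7 8 10 11
    | 0, 2 => .big 7 13 15 14
    | 1, 0 => .big 7 9 11 10
    | 1, 2 => .small 8 4
    | 2, 0 => .big 7 12 14 15
    | 2, 1 => .small 8 7
    | _, _ => .small 0 0
  lb := fun i j => match i, j with
    | 1, 2 => 8
    | 2, 1 => 8
    | _, _ => 0

theorem TA8_77_ok {K : ℕ → ℕ → ℕ → Prop} (h1 : ∀ p q r, K p q r → p = 8) : TA8_77.OK K where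
  ok := Sys.ok_of (by decide +kernel)
  stt := by decide +kernel
  vx d i j := by fin_cases i <;> fin_cases j <;> rfl
  vd d i j hij := by
    fin_cases i <;> fin_cases j <;> first | exact absurd rfl hij | exact trivial | exact ⟨rfl, rfl, rfl⟩
  sf d := rfl
  sk d := (SKA.cons ⟨by decide, by decide, by decide, rfl, rfl⟩
    (SKA.cons ⟨by decide, by decide, by decide, rfl, by decide, by decide, rfl, rfl⟩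
    (SKA.cons ⟨by decide, by decide, by decide, rfl, rfl⟩
    (SKA.cons ⟨by decide, by decide, by decide, rfl, rfl⟩
    (SKA.cons ⟨by decide, by decide, by decide, rfl, by decide, by decide, rfl, rfl⟩
    (SKA.cons ⟨by decide, by decide, by decide, rfl, rfl⟩
    (SKA.cons ⟨by decide, by decide, by decide, rfl, rfl⟩
    (SKA.cons ⟨by decide, by decide, by decide, rfl, by decide, by decide, rfl, rfl⟩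
    (SKA.cons ⟨by decide, by decide, by decide, rfl, rfl⟩
    (SKA.cons ⟨by decide, by decide, by decide, rfl, rfl⟩
    (SKA.cons ⟨by decide, by decide, by decide, rfl, by decide, by decide, rfl, rfl⟩
    (SKA.cons ⟨by decide, by decide, by decide, rfl, rfl⟩
    (SKA.cons ⟨by decide, by decide, by decide, rfl, rfl⟩
    (SKA.cons ⟨by decide, by decide, by decide, rfl, by decide, by decide, rfl, rfl⟩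
    (SKA.cons ⟨by decide, by decide, by decide, rfl, rfl⟩
    (SKA.cons ⟨by decide, by decide, by decide, rfl, rfl⟩
    (SKA.cons ⟨by decide, by decide, by decide, rfl, by decide, by decide, rfl, rfl⟩
    (SKA.cons ⟨by decide, by decide, by decide, rfl, rfl⟩
    SKA.nil))))))))))))))))))
  cl d p q r hp hq hr hK' i j hij := by
    have e1 := h1 p q r hK'
    fin_cases i <;> fin_cases j <;> first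
      | exact absurd rfl hij
      | exact ⟨Nat.zero_le _, fun m E h => VD.noConfusion h⟩
      | exact ⟨e1.ge, fun m E h => VD.noConfusion h fun e _ => e1.trans e⟩

end Pool.Agent.Work.MP_88b7aa_gt.Kc
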