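import Pool.Agent.Work.MP_88b7aa_gt.Kc.TplU
import Pool.Agent.Work.MP_88b7aa_gt.PQ.SysQ

/-! Template: System A, `p = 9`. -/

set_option autoImplicit false

namespace Pool.Agent.Work.MP_88b7aa_gt.Kc

open Pool.Agent.Work.MP_88b7aa_gt.PQ

def sTA9_55 : List SK := [.imgT 0 1 2 2 0 16, .star 0 2 1 2 16 0, .imgT 0 1 2 3 0 17, .imgT 0 1 2 4 0 18, .star 0 2 1 4 18 0, .imgT 0 1 2 5 0 19, .imgT 0 1 2 6 0 20, .star 0 2 1 6 20 0, .imgT 0 1 2 7 0 21, .imgT 0 1 2 8 0 22, .star 0 2 1 8 22 0, .imgT 0 2 1 2 0 23,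
    .star 0 1 2 2 23 0, .imgT 0 2 1 3 0 24, .imgT 0 2 1 4 0 25, .star 0 1 2 4 25 0, .imgT 0 2 1 5 0 26, .imgT 0 2 1 6 0 27, .star 0 1 2 6 27 0, .imgT 0 2 1 7 0 28, .imgT 0 2 1 8 0 29, .star 0 1 2 8 29 0]

def TA9_55 : Tm where
  fes d := [FEQ 0,
    d.c.getD 0 .gram,
    d.c.getD 1 .gram,
    d.c.getD 2 .gram,
    d.c.getD 3 .gram,
    d.c.getD 4 .gram,
    d.c.getD 5 .gram,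
    d.c.getD 6 .gram,
    FEV 0 1 (d.f.getD 0 (.cst 0 0)) (ngS (DpS (.par (cpar 0 1)) 1)) (ngS (DpS (.par (cpar 0 1)) 2)),
    FEV 0 1 (d.f.getD 0 (.cst 0 0)) (ngS (DpS (.par (cpar 0 1)) 2)) (ngS (DpS (.par (cpar 0 1)) 1)),
    FEV 0 1 (d.f.getD 0 (.cst 0 0)) (DpS (.par (cpar 0 1)) 3) (DpS (.par (cpar 0 1)) 2),
    FEV 0 1 (d.f.getD 0 (.cst 0 0)) (DpS (.par (cpar 0 1)) 2) (DpS (.par (cpar 0 1)) 3),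
    FEV 2 0 (d.f.getD 1 (.cst 0 0)) (ngS (DpS (.par (cpar 2 0)) 1)) (ngS (DpS (.par (cpar 2 0)) 2)),
    FEV 2 0 (d.f.getD 1 (.cst 0 0)) (ngS (DpS (.par (cpar 2 0)) 2)) (ngS (DpS (.par (cpar 2 0)) 1)),
    FEV 2 0 (d.f.getD 1 (.cst 0 0)) (DpS (.par (cpar 2 0)) 3) (DpS (.par (cpar 2 0)) 2),
    FEV 2 0 (d.f.getD 1 (.cst 0 0)) (DpS (.par (cpar 2 0)) 2) (DpS (.par (cpar 2 0)) 3),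
    FUT 0 1 2 2,
    FUT 0 1 2 3,
    FUT 0 1 2 4,
    FUT 0 1 2 5,
    FUT 0 1 2 6,
    FUT 0 1 2 7,
    FUT 0 1 2 8,
    FUT 0 2 1 2,
    FUT 0 2 1 3,
    FUT 0 2 1 4,
    FUT 0 2 1 5,
    FUT 0 2 1 6,
    FUT 0 2 1 7,
    FUT 0 2 1 8]
  is := [.form 0, .comp 0 0, .word 0 1 2 1, .word 0 2 2 2, .word 1 2 9 3, .word 2 1 9 4, .form 1, .word 0 1 2 0, .word 0 1 3 1, .word 0 1 4 2, .word 0 2 2 3, .word 0 2 3 4,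
    .word 0 2 4 5, .comp 1 6, .word 1 2 2 7, .word 1 2 3 8, .word 1 2 4 9, .word 1 2 9 10, .comp 2 11, .word 2 1 2 12, .word 2 1 3 13, .word 2 1 4 14, .word 2 1 9 15, .form 2,
    .comp 0 0, .comp 1 1, .word 1 0 2 2, .comp 2 3, .form 3, .comp 0 0, .word 0 2 2 1, .comp 2 2, .word 2 0 2 3, .form 4, .comp 0 0, .comp 1 1,
    .word 1 0 2 2, .word 1 0 3 3, .word 1 0 4 4, .word 1 2 2 5, .word 1 2 3 6, .word 1 2 4 7, .word 1 2 5 8, .word 1 2 6 9, .word 1 2 7 10, .word 1 2 8 11, .word 1 2 9 12, .comp 2 13,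
    .form 5, .comp 0 0, .comp 1 1, .comp 2 2, .word 2 0 2 3, .form 6, .comp 0 0, .word 0 1 2 1, .comp 1 2, .word 1 0 2 3, .form 7, .comp 0 0,
    .comp 1 1, .comp 2 2, .word 2 0 2 3, .word 2 0 3 4, .word 2 0 4 5, .word 2 1 2 6, .word 2 1 3 7, .word 2 1 4 8, .word 2 1 5 9, .word 2 1 6 10, .word 2 1 7 11, .word 2 1 8 12,
    .word 2 1 9 13, .form 8, .form 9, .comp 0 0, .comp 2 1, .form 10, .form 11, .form 12, .comp 0 0, .comp 1 1, .form 13, .form 14,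
    .form 15, .form 16, .form 17, .form 18, .form 19, .form 20, .form 21, .form 22, .form 23, .form 24, .form 25, .form 26,
    .form 27, .form 28, .form 29]
  pks := [97, 96, 95, 92, 91, 88, 85, 84, 83, 82, 80, 79,
    78, 77, 75, 74, 73, 72, 71, 70, 69, 68, 67, 66,
    65, 64, 63, 62, 59, 58, 57, 51, 50, 49, 48, 47,
    46, 45, 44, 43, 42, 41, 40, 39, 38, 37, 36, 33,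
    32, 31, 25, 24, 23, 22, 21, 20, 19, 18, 17, 16,
    15, 14, 13, 12, 11, 10, 9, 8, 7, 6, 5, 4,
    3, 2, 1, 0]
  cn := [⟨0, 1, 0, 0, 8, 1, 50, 3⟩, ⟨0, 1, 0, 0, 13, 1, 59, 3⟩, ⟨1, 2, 2, 1, 1, 4, 10, 26⟩, ⟨1, 2, 3, 1, 1, 4, 7, 26⟩, ⟨1, 2, 4, 2, 1, 4, 11, 28⟩, ⟨1, 2, 5, 2, 1, 4, 8, 28⟩, ⟨1, 2, 6, 3, 1, 4, 12, 29⟩, ⟨1, 2, 7, 3, 1, 4, 9, 29⟩, ⟨1, 2, 8, 4, 1, 4, 13, 30⟩, ⟨0, 1, 0, 0, 16, 3, 62, 19⟩, ⟨2, 0, 2, 2, 16, 5, 62, 36⟩, ⟨0, 1, 0, 0, 17, 3, 63, 19⟩,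
    ⟨0, 2, 2, 2, 17, 0, 63, 2⟩, ⟨2, 0, 2, 2, 17, 5, 63, 36⟩, ⟨0, 1, 0, 0, 18, 3, 64, 19⟩, ⟨2, 0, 2, 2, 18, 5, 64, 36⟩, ⟨0, 1, 0, 0, 19, 3, 65, 19⟩, ⟨0, 2, 2, 2, 19, 0, 65, 2⟩, ⟨2, 0, 2, 2, 19, 5, 65, 36⟩, ⟨0, 1, 0, 0, 20, 3, 66, 19⟩, ⟨2, 0, 2, 2, 20, 5, 66, 36⟩, ⟨0, 1, 0, 0, 21, 3, 67, 19⟩, ⟨0, 2, 2, 2, 21, 0, 67, 2⟩, ⟨2, 0, 2, 2, 21, 5, 67, 36⟩,
    ⟨0, 1, 0, 0, 22, 3, 68, 19⟩, ⟨2, 0, 2, 2, 22, 5, 68, 36⟩, ⟨0, 1, 0, 0, 2, 3, 14, 19⟩, ⟨0, 2, 2, 1, 2, 0, 18, 0⟩, ⟨2, 0, 2, 1, 2, 5, 15, 35⟩, ⟨0, 1, 0, 0, 4, 3, 24, 19⟩, ⟨0, 2, 2, 1, 4, 0, 31, 0⟩, ⟨2, 0, 2, 1, 4, 5, 25, 35⟩, ⟨0, 1, 0, 0, 9, 3, 51, 19⟩, ⟨0, 2, 2, 1, 9, 0, 53, 0⟩, ⟨2, 0, 2, 1, 9, 5, 52, 35⟩, ⟨0, 2, 3, 2, 3, 1, 20, 5⟩,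
    ⟨2, 0, 3, 2, 3, 7, 22, 46⟩, ⟨0, 2, 4, 2, 3, 1, 23, 5⟩, ⟨2, 0, 4, 2, 3, 7, 21, 46⟩, ⟨2, 1, 2, 1, 1, 7, 6, 45⟩, ⟨2, 1, 3, 1, 1, 7, 11, 45⟩, ⟨2, 1, 4, 2, 1, 7, 7, 47⟩, ⟨2, 1, 5, 2, 1, 7, 12, 47⟩, ⟨2, 1, 6, 3, 1, 7, 8, 48⟩, ⟨2, 1, 7, 3, 1, 7, 13, 48⟩, ⟨2, 1, 8, 4, 1, 7, 9, 49⟩, ⟨0, 1, 0, 0, 23, 6, 69, 37⟩, ⟨1, 0, 2, 2, 23, 2, 69, 17⟩,
    ⟨0, 1, 0, 0, 24, 6, 70, 37⟩, ⟨0, 1, 2, 2, 24, 0, 70, 1⟩, ⟨1, 0, 2, 2, 24, 2, 70, 17⟩, ⟨0, 1, 0, 0, 25, 6, 71, 37⟩, ⟨1, 0, 2, 2, 25, 2, 71, 17⟩, ⟨0, 1, 0, 0, 26, 6, 72, 37⟩, ⟨0, 1, 2, 2, 26, 0, 72, 1⟩, ⟨1, 0, 2, 2, 26, 2, 72, 17⟩, ⟨0, 1, 0, 0, 27, 6, 73, 37⟩, ⟨1, 0, 2, 2, 27, 2, 73, 17⟩, ⟨0, 1, 0, 0, 28, 6, 74, 37⟩, ⟨0, 1, 2, 2, 28, 0, 74, 1⟩,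
    ⟨1, 0, 2, 2, 28, 2, 74, 17⟩, ⟨0, 1, 0, 0, 29, 6, 75, 37⟩, ⟨1, 0, 2, 2, 29, 2, 75, 17⟩, ⟨0, 1, 0, 0, 5, 6, 32, 37⟩, ⟨0, 1, 2, 1, 5, 0, 34, 0⟩, ⟨1, 0, 2, 1, 5, 2, 33, 16⟩, ⟨0, 1, 0, 0, 7, 6, 42, 37⟩, ⟨0, 1, 2, 1, 7, 0, 44, 0⟩, ⟨1, 0, 2, 1, 7, 2, 43, 16⟩, ⟨0, 1, 0, 0, 12, 6, 56, 37⟩, ⟨0, 1, 2, 1, 12, 0, 58, 0⟩, ⟨1, 0, 2, 1, 12, 2, 57, 16⟩,
    ⟨0, 1, 3, 2, 6, 1, 38, 4⟩, ⟨1, 0, 3, 2, 6, 4, 40, 27⟩, ⟨0, 1, 4, 2, 6, 1, 41, 4⟩, ⟨1, 0, 4, 2, 6, 4, 39, 27⟩, ⟨0, 1, 0, 0, 6, 10, 37, 54⟩, ⟨0, 1, 0, 0, 6, 11, 37, 55⟩, ⟨0, 1, 0, 0, 3, 14, 19, 60⟩, ⟨0, 1, 0, 0, 3, 15, 19, 61⟩]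
  pp := [⟨0, 1, 1, 0, 97⟩, ⟨1, 2, 1, 2, 73⟩, ⟨2, 0, 1, 5, 47⟩, ⟨0, 1, 2, 0, 96⟩, ⟨1, 0, 2, 2, 72⟩, ⟨0, 1, 3, 1, 90⟩, ⟨1, 0, 3, 4, 61⟩, ⟨0, 1, 4, 1, 89⟩, ⟨1, 0, 4, 4, 60⟩, ⟨0, 1, 0, 10, 21⟩, ⟨0, 1, 0, 11, 20⟩, ⟨0, 2, 2, 0, 95⟩,
    ⟨2, 0, 2, 5, 46⟩, ⟨0, 2, 3, 1, 87⟩, ⟨2, 0, 3, 7, 35⟩, ⟨0, 2, 4, 1, 86⟩, ⟨2, 0, 4, 7, 34⟩, ⟨0, 2, 0, 14, 15⟩, ⟨0, 2, 0, 15, 14⟩, ⟨1, 2, 2, 4, 59⟩, ⟨1, 2, 3, 4, 58⟩, ⟨1, 2, 4, 4, 57⟩, ⟨1, 2, 5, 4, 56⟩, ⟨1, 2, 6, 4, 55⟩,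
    ⟨1, 2, 7, 4, 54⟩, ⟨1, 2, 8, 4, 53⟩, ⟨1, 2, 9, 4, 52⟩, ⟨2, 1, 2, 7, 33⟩, ⟨2, 1, 3, 7, 32⟩, ⟨2, 1, 4, 7, 31⟩, ⟨2, 1, 5, 7, 30⟩, ⟨2, 1, 6, 7, 29⟩, ⟨2, 1, 7, 7, 28⟩, ⟨2, 1, 8, 7, 27⟩, ⟨2, 1, 9, 7, 26⟩]
  pn := [⟨0, 1, 0, 0, 98⟩, ⟨0, 1, 0, 1, 92⟩, ⟨0, 1, 0, 16, 13⟩, ⟨0, 1, 0, 17, 12⟩, ⟨0, 1, 0, 18, 11⟩, ⟨0, 1, 0, 19, 10⟩, ⟨0, 1, 0, 20, 9⟩, ⟨0, 1, 0, 21, 8⟩, ⟨0, 1, 0, 22, 7⟩, ⟨0, 1, 0, 2, 75⟩, ⟨0, 1, 0, 4, 65⟩, ⟨0, 1, 0, 9, 24⟩,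
    ⟨0, 1, 0, 23, 6⟩, ⟨0, 1, 0, 24, 5⟩, ⟨0, 1, 0, 25, 4⟩, ⟨0, 1, 0, 26, 3⟩, ⟨0, 1, 0, 27, 2⟩, ⟨0, 1, 0, 28, 1⟩, ⟨0, 1, 0, 29, 0⟩, ⟨0, 1, 0, 5, 50⟩, ⟨0, 1, 0, 7, 40⟩, ⟨0, 1, 0, 12, 19⟩, ⟨1, 2, 9, 0, 94⟩, ⟨1, 2, 9, 1, 81⟩,
    ⟨2, 1, 9, 0, 93⟩, ⟨2, 1, 9, 1, 76⟩]
  st := [(0, 0), (1, 0), (16, 1), (17, 1), (18, 1), (19, 1), (20, 1), (21, 1), (22, 1), (2, 1), (4, 1), (9, 1),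
    (23, 2), (24, 2), (25, 2), (26, 2), (27, 2), (28, 2), (29, 2), (5, 2), (7, 2), (12, 2)]
  sk _ := sTA9_55
  sf := sTA9_55.map SK.fct
  vd d := fun i j => match i, j with
    | 0, 1 => .sym false (d.f.getD 0 (.cst 0 0)) 1 8 10 11
    | 0, 2 => .sym true (d.f.getD 1 (.cst 0 0)) 1 13 14 15
    | 1, 0 => .sym true (d.f.getD 0 (.cst 0 0)) 1 9 10 11
    | 1, 2 => .small 9 4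
    | 2, 0 => .sym false (d.f.getD 1 (.cst 0 0)) 1 12 14 15
    | 2, 1 => .small 9 7
    | _, _ => .small 0 0
  vx := fun i j => match i, j with
    | 0, 1 => .big 5 8 10 11
    | 0, 2 => .big 5 13 15 14
    | 1, 0 => .big 5 9 11 10
    | 1, 2 => .small 9 4
    | 2, 0 => .big 5 12 14 15
    | 2, 1 => .small 9 7
    | _, _ => .small 0 0
  lb := fun i j => match i, j with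
    | 1, 2 => 9
    | 2, 1 => 9
    | _, _ => 0

theorem TA9_55_ok {K : ℕ → ℕ → ℕ → Prop} (h1 : ∀ p q r, K p q r → p = 9) : TA9_55.OK K where
  ok := Sys.ok_of (by decide +kernel)
  stt := by decide +kernel
  vx d i j := by fin_cases i <;> fin_cases j <;> rfl
  vd d i j hij := by
    fin_cases i <;> fin_cases j <;> first | exact absurd rfl hij | exact trivial | exact ⟨rfl, rfl, rfl⟩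
  sf d := rfl
  sk d := (SKA.cons ⟨by decide, by decide, by decide, rfl, rfl⟩
    (SKA.cons ⟨by decide, by decide, by decide, rfl, by decide, by decide, rfl, rfl⟩
    (SKA.cons ⟨by decide, by decide, by decide, rfl, rfl⟩
    (SKA.cons ⟨by decide, by decide, by decide, rfl, rfl⟩
    (SKA.cons ⟨by decide, by decide, by decide, rfl, by decide, by decide, rfl, rfl⟩
    (SKA.cons ⟨by decide, by decide, by decide, rfl, rfl⟩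
    (SKA.cons ⟨by decide, by decide, by decide, rfl, rfl⟩
    (SKA.cons ⟨by decide, by decide, by decide, rfl, by decide, by decide, rfl, rfl⟩
    (SKA.cons ⟨by decide, by decide, by decide, rfl, rfl⟩
    (SKA.cons ⟨by decide, by decide, by decide, rfl, rfl⟩
    (SKA.cons ⟨by decide, by decide, by decide, rfl, by decide, by decide, rfl, rfl⟩
    (SKA.cons ⟨by decide, by decide, by decide, rfl, rfl⟩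
    (SKA.cons ⟨by decide, by decide, by decide, rfl, by decide, by decide, rfl, rfl⟩
    (SKA.cons ⟨by decide, by decide, by decide, rfl, rfl⟩
    (SKA.cons ⟨by decide, by decide, by decide, rfl, rfl⟩
    (SKA.cons ⟨by decide, by decide, by decide, rfl, by decide, by decide, rfl, rfl⟩
    (SKA.cons ⟨by decide, by decide, by decide, rfl, rfl⟩
    (SKA.cons ⟨by decide, by decide, by decide, rfl, rfl⟩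
    (SKA.cons ⟨by decide, by decide, by decide, rfl, by decide, by decide, rfl, rfl⟩
    (SKA.cons ⟨by decide, by decide, by decide, rfl, rfl⟩
    (SKA.cons ⟨by decide, by decide, by decide, rfl, rfl⟩
    (SKA.cons ⟨by decide, by decide, by decide, rfl, by decide, by decide, rfl, rfl⟩
    SKA.nil))))))))))))))))))))))
  cl d p q r hp hq hr hK' i j hij := by
    have e1 := h1 p q r hK'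
    fin_cases i <;> fin_cases j <;> first
      | exact absurd rfl hij
      | exact ⟨Nat.zero_le _, fun m E h => VD.noConfusion h⟩
      | exact ⟨e1.ge, fun m E h => VD.noConfusion h fun e _ => e1.trans e⟩

end Pool.Agent.Work.MP_88b7aa_gt.Kc
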